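import Pool.Agent.W966.Mm.Const

/-!
# Bounds with constant factors: forms with real parameters
-/

set_option linter.unusedSectionVars false

namespace Pool.Agent.W966.Mm

open Module Pool.Agent.H515R2.MMR MvPolynomial

/-- The algorithm `t` computes `K` entries of the products of pairs in general position: for all
pairs `A, B` outside the zero set of a nonzero polynomial in their entries it can output a matrix
which agrees with `A B` in at least `K` entries, with at most `L` multiplications and divisions and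
at most `Q` queries. -/
def InEntries {k : Type} [Field k] {n : ℕ} (t : QTree k n) (L Q K : ℕ) : Prop :=
  ∃ P : MvPolynomial (Ent n) k, P ≠ 0 ∧ ∀ A B : Matrix (Fin n) (Fin n) k,
    eval (entries A B) P ≠ 0 → t.CanOutput A B (fun C => AgreeIn K C (A * B)) 0 0 L Q

lemma rk_zero : rk 0 = 0 := by
  have : HasRank 0 0 := ⟨fun _ _ _ => 0, fun _ _ _ => 0, fun _ _ _ => 0, fun i => i.elim0⟩
  exact Nat.le_zero.mp (rk_le this)

/-- From a smaller size to the size `n`. -/
lemma rk_le_of_hasRank {n m r : ℕ} {c : ℝ} (hm : 0 < m) (hc : (n : ℝ) ≤ c * m)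
    (h : HasRank m r) : (rk n : ℝ) ≤ (c + 1) ^ 3 * r := by
  have hm0 : (0 : ℝ) < m := by exact_mod_cast hm
  have hc0 : 0 ≤ c := by
    by_contra hcon
    push Not at hcon
    have : (0 : ℝ) ≤ n := Nat.cast_nonneg n
    nlinarith
  have h1 : n ≤ ⌈c⌉₊ * m := by
    have : (n : ℝ) ≤ (⌈c⌉₊ * m : ℕ) := by
      push_cast
      exact hc.trans (mul_le_mul_of_nonneg_right (Nat.le_ceil c) hm0.le)
    exact_mod_cast this
  have h2 := HasRank.rk_le_of_mul h h1
  have h3 : (rk n : ℝ) ≤ (⌈c⌉₊ : ℝ) ^ 3 * r := by exact_mod_cast h2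
  refine h3.trans (mul_le_mul_of_nonneg_right ?_ (Nat.cast_nonneg r))
  exact pow_le_pow_left₀ (Nat.cast_nonneg _) (Nat.ceil_lt_add_one hc0).le 3

theorem query_const_real {k : Type} [Field k] (σ : k →+* ℂ) {n L Q K : ℕ} {ε : ℝ} (hε : 0 < ε)
    (hK : K ≤ n ^ 2) (t : QTree k n) (h : InEntries t L Q K)
    (hd : ε * (n : ℝ) ^ 2 + Q ≤ K) : (rk n : ℝ) ≤ 2 * (2 / ε + 1) ^ 3 * L := by
  obtain ⟨P, hP, hgood⟩ := h
  rcases Nat.eq_zero_or_pos n with hn | hn
  · subst hn
    rw [rk_zero]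
    push_cast
    positivity
  have hn0 : (0 : ℝ) < n := by exact_mod_cast hn
  have hn1 : (1 : ℝ) ≤ n := by exact_mod_cast hn
  have hε1 : ε ≤ 1 := by
    have h1 : (K : ℝ) ≤ (n : ℝ) ^ 2 := by exact_mod_cast hK
    have h2 : (0 : ℝ) ≤ Q := Nat.cast_nonneg Q
    have h3 : 0 < (n : ℝ) ^ 2 := by positivity
    by_contra hcon
    push Not at hcon
    nlinarith
  obtain ⟨q, hq1, hq2⟩ : ∃ q : ℕ, (q : ℝ) ≤ ε / 2 * n ∧ ε / 2 * n < (q : ℝ) + 1 :=
    ⟨⌊ε / 2 * n⌋₊, Nat.floor_le (by positivity), Nat.lt_floor_add_one _⟩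
  have hqn : q + 1 ≤ n := by
    by_contra hcon
    push Not at hcon
    have : (n : ℝ) ≤ q := by exact_mod_cast (by omega : n ≤ q)
    nlinarith
  have hr := query_const σ (m := q + 1) hqn hK t P hP hgood (by
    obtain ⟨r, hr⟩ : ∃ r, n = r + (q + 1) := ⟨n - (q + 1), by omega⟩
    have e1 : n - (q + 1) + 1 = r + 1 := by omega
    rw [e1]
    have h1 : ((r : ℝ) + 1) = n - q := by rw [hr]; push_cast; ring
    have : ((Q + n ^ 2 : ℕ) : ℝ) < (((r + 1) ^ 2 + K : ℕ) : ℝ) := by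
      push_cast
      rw [h1]
      have h3 : ((n : ℝ) - ε / 2 * n) ^ 2 ≤ ((n : ℝ) - q) ^ 2 := by
        refine pow_le_pow_left₀ ?_ (by linarith) 2
        nlinarith
      have h4 : 0 < (ε / 2 * (n : ℝ)) ^ 2 := by positivity
      nlinarith
    exact_mod_cast this)
  have h2 := rk_le_of_hasRank (n := n) (c := 2 / ε) (Nat.succ_pos q) (by
    push_cast
    rw [div_mul_eq_mul_div, le_div_iff₀ hε]
    nlinarith) hr
  refine h2.trans (le_of_eq ?_)
  push_cast
  ring

theorem rank_const_real {k : Type} [Field k] (σ : k →+* ℂ) {n L s : ℕ} {ρ : ℝ} (hρ : ρ < 1)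
    (t : QTree k n) (h : UpToRank t s L 0) (hs : (s : ℝ) ≤ ρ * n) :
    (rk n : ℝ) ≤ 2 * (2 / (1 - ρ) ^ 2 + 1) ^ 3 * L := by
  obtain ⟨P, hP, hgood⟩ := h
  rcases Nat.eq_zero_or_pos n with hn | hn
  · subst hn
    rw [rk_zero]
    push_cast
    positivity
  have hn0 : (0 : ℝ) < n := by exact_mod_cast hn
  have hρ0 : 0 ≤ ρ := by
    by_contra hcon
    push Not at hcon
    have : (0 : ℝ) ≤ s := Nat.cast_nonneg s
    nlinarith
  have hsn : s < n := by
    have : (s : ℝ) < n := by nlinarith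
    exact_mod_cast this
  obtain ⟨M, hM⟩ : ∃ M, n = M + s := ⟨n - s, by omega⟩
  have hMe : n - s = M := by omega
  have hM0 : 0 < M := by omega
  have hM0' : (0 : ℝ) < M := by exact_mod_cast hM0
  have hMr : (1 - ρ) * n ≤ M := by
    have : (n : ℝ) = M + s := by exact_mod_cast hM
    linarith
  -- the size of the block
  set q : ℕ := M ^ 2 / (M + n) with hq
  have hq1 : q * (M + n) ≤ M ^ 2 := Nat.div_mul_le_self _ _
  have hq2 : M ^ 2 < (q + 1) * (M + n) := by
    have := Nat.lt_succ_iff.mpr (le_refl q)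
    rw [hq] at this ⊢
    exact Nat.lt_mul_of_div_lt this (by omega)
  have hqM : q + 1 ≤ M := by
    by_contra hcon
    push Not at hcon
    have : M ≤ q := by omega
    nlinarith
  have hr := rank_const σ (s := s) (m := q + 1) hsn.le (by rw [hMe]; exact hqM) t P hP hgood (by
    rw [hMe]
    obtain ⟨u, hu⟩ : ∃ u, M = u + (q + 1) := ⟨M - (q + 1), by omega⟩
    have e1 : n - (q + 1) + 1 = u + s + 1 := by omega
    have e2 : M - (q + 1) + 1 = u + 1 := by omega
    rw [e1, e2]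
    rw [hM] at hq1
    rw [hu] at hq1 ⊢
    rcases Nat.eq_zero_or_pos q with h0 | h0
    · rw [h0] at hq1 ⊢
      nlinarith
    · nlinarith)
  have hθ : 0 < 1 - ρ := by linarith
  have h2 := rk_le_of_hasRank (n := n) (c := 2 / (1 - ρ) ^ 2) (Nat.succ_pos q) (by
    have h3 : (M : ℝ) ^ 2 ≤ ((q + 1 : ℕ) : ℝ) * (M + n) := by exact_mod_cast hq2.le
    have h4 : (M : ℝ) ≤ n := by exact_mod_cast (by omega : M ≤ n)
    have h5 : ((1 - ρ) * n) ^ 2 ≤ (M : ℝ) ^ 2 := pow_le_pow_left₀ (by positivity) hMr 2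
    have h6 : ((q + 1 : ℕ) : ℝ) * (M + n) ≤ ((q + 1 : ℕ) : ℝ) * (2 * n) :=
      mul_le_mul_of_nonneg_left (by linarith) (Nat.cast_nonneg _)
    have h7 : (1 - ρ) ^ 2 * (n : ℝ) * n ≤ (2 * ((q + 1 : ℕ) : ℝ)) * n := by nlinarith
    have h8 : (1 - ρ) ^ 2 * (n : ℝ) ≤ 2 * ((q + 1 : ℕ) : ℝ) := le_of_mul_le_mul_right h7 hn0
    rw [div_mul_eq_mul_div, le_div_iff₀ (by positivity)]
    linarith) hr
  refine h2.trans (le_of_eq ?_)
  push_cast
  ring

/-- **Sharpness**: `Q` queries give `Q` entries. -/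
theorem entries_sharp (k : Type) [Field k] {n Q : ℕ} (hQ : Q ≤ n ^ 2) :
    ∃ t : QTree k n, InEntries t 0 Q Q := by
  classical
  let pos : Fin Q → Fin n × Fin n := fun s =>
    finProdFinEquiv.symm (Fin.cast (pow_two n) (Fin.castLE hQ s))
  have hpos : Function.Injective pos := by
    intro s s' h
    have h1 := finProdFinEquiv.symm.injective h
    exact Fin.castLE_injective hQ (Fin.cast_injective _ h1)
  refine ⟨askT pos, 1, one_ne_zero, fun A B _ => ?_⟩
  set C0 : Matrix (Fin n) (Fin n) k := Matrix.of fun i j =>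
    if ∃ s, pos s = (i, j) then (A * B) i j else 0 with hC0
  refine QTree.CanOutput.mono (E := fun C => C = C0) (fun C hC => ?_) _ 0 0 0 _
    (askT_can hpos _ _ _ fun i j hij => ?_)
  · subst hC
    unfold AgreeIn
    have hT1c : (Finset.univ.image pos).card = Q := by
      rw [Finset.card_image_of_injective _ hpos, Finset.card_univ, Fintype.card_fin]
    refine (le_of_eq hT1c.symm).trans (Finset.card_le_card fun p hp => ?_)
    rw [Finset.mem_filter]
    obtain ⟨s, -, hs⟩ := Finset.mem_image.mp hp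
    refine ⟨Finset.mem_univ _, ?_⟩
    rw [hC0, Matrix.of_apply, if_pos ⟨s, hs⟩]
  · rw [hC0, Matrix.of_apply, if_neg]
    rintro ⟨s, hs⟩
    exact hij s hs

end Pool.Agent.W966.Mm
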