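import Pool.Agent.W966.Mm.Two
import Pool.Agent.W966.Mm.ConstAsym

/-!
# Families of pairs: form with a real parameter
-/

set_option linter.unusedSectionVars false

namespace Pool.Agent.W966.Mm

open Module Pool.Agent.H515R2.MMR MvPolynomial

/-- The algorithm `t` computes the products of the pairs in general position in the affine family
`(A₀ + ∑ x i • a i, B₀ + ∑ x i • b i)`, without queries: for all parameters `x` outside the zero
set of a nonzero polynomial it can output the product, with at most `L` multiplications and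
divisions. -/
def ProductsOn {k : Type} [Field k] {n : ℕ} {κ : Type} [Fintype κ] (t : QTree k n)
    (A₀ B₀ : Matrix (Fin n) (Fin n) k) (a b : κ → Matrix (Fin n) (Fin n) k) (L : ℕ) : Prop :=
  ∃ P : MvPolynomial κ k, P ≠ 0 ∧ ∀ x : κ → k, eval x P ≠ 0 →
    t.CanOutput (fam A₀ a x) (fam B₀ b x) (fun C => C = fam A₀ a x * fam B₀ b x) 0 0 L 0

theorem fam_const_real {k : Type} [Field k] (σ : k →+* ℂ) {n d L : ℕ} {ε : ℝ} (hε : 0 < ε)
    (A₀ B₀ : Matrix (Fin n) (Fin n) k) (a b : Fin d → Matrix (Fin n) (Fin n) k)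
    (hind : LinearIndependent k fun i => (a i, b i)) (t : QTree k n)
    (h : ProductsOn t A₀ B₀ a b L) (hd : (1 + ε) * (n : ℝ) ^ 2 ≤ d) :
    (rk n : ℝ) ≤ 2 * (2 / ε + 1) ^ 3 * L := by
  obtain ⟨P, hP, hgood⟩ := h
  rcases Nat.eq_zero_or_pos n with hn | hn
  · subst hn
    rw [rk_zero]
    push_cast
    positivity
  have hn0 : (0 : ℝ) < n := by exact_mod_cast hn
  have hn1 : (1 : ℝ) ≤ n := by exact_mod_cast hn
  have hε1 : ε ≤ 1 := by
    have h1 : d ≤ 2 * (n * n) := by
      have := hind.fintype_card_le_finrank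
      rw [Module.finrank_prod, Module.finrank_matrix, Module.finrank_self, Fintype.card_fin,
        Fintype.card_fin, mul_one] at this
      omega
    have h2 : (d : ℝ) ≤ 2 * (n : ℝ) ^ 2 := by
      rw [pow_two]
      exact_mod_cast h1
    have h3 : 0 < (n : ℝ) ^ 2 := by positivity
    by_contra hcon
    push Not at hcon
    nlinarith
  obtain ⟨q, hq1, hq2⟩ : ∃ q : ℕ, (q : ℝ) ≤ ε / 2 * n ∧ ε / 2 * n < (q : ℝ) + 1 :=
    ⟨⌊ε / 2 * n⌋₊, Nat.floor_le (by positivity), Nat.lt_floor_add_one _⟩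
  have hqn : q + 1 ≤ n := by
    by_contra hcon
    push Not at hcon
    have : (n : ℝ) ≤ q := by exact_mod_cast (by omega : n ≤ q)
    nlinarith
  have hr := fam_const σ (m := q + 1) hqn A₀ B₀ a b hind t P hP hgood (by
    rw [Fintype.card_fin]
    obtain ⟨r, hr⟩ : ∃ r, n = r + (q + 1) := ⟨n - (q + 1), by omega⟩
    have e1 : n - (q + 1) + 1 = r + 1 := by omega
    rw [e1]
    have h1 : ((r : ℝ) + 1) = n - q := by rw [hr]; push_cast; ring
    have : ((2 * n ^ 2 : ℕ) : ℝ) < ((d + (r + 1) ^ 2 : ℕ) : ℝ) := by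
      push_cast
      rw [h1]
      have h3 : ((n : ℝ) - ε / 2 * n) ^ 2 ≤ ((n : ℝ) - q) ^ 2 := by
        refine pow_le_pow_left₀ ?_ (by linarith) 2
        nlinarith
      have h4 : 0 < (ε / 2 * (n : ℝ)) ^ 2 := by positivity
      nlinarith
    exact_mod_cast this)
  have h2 := rk_le_of_hasRank (n := n) (c := 2 / ε) (Nat.succ_pos q) (by
    push_cast
    rw [div_mul_eq_mul_div, le_div_iff₀ hε]
    nlinarith) hr
  refine h2.trans (le_of_eq ?_)
  push_cast
  ring

end Pool.Agent.W966.Mm
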