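import Pool.Agent.W966.Mm.Asym

/-!
# Sharpness
-/

set_option linter.unusedSectionVars false

namespace Pool.Agent.W966.Mm

open Module MvPolynomial

/-- Pairs `A, B` where only the first `b` rows of `A` may be nonzero: `Q ≤ b n` queries give
`n ^ 2 - b n + Q` entries of the product, without any multiplication. -/
theorem fam_sharp (k : Type) [Field k] (n b Q : ℕ) (hb : b ≤ n) (hQ : Q ≤ b * n) :
    ∃ (a b' : Fin (n ^ 2 + b * n) → Matrix (Fin n) (Fin n) k) (t : QTree k n),
      (LinearIndependent k fun i => (a i, b' i)) ∧ ∀ x : Fin (n ^ 2 + b * n) → k,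
        t.CanOutput (fam 0 a x) (fam 0 b' x)
          (fun C => AgreeIn (n ^ 2 - b * n + Q) C (fam 0 a x * fam 0 b' x)) 0 0 0 Q := by
  classical
  have hcard : Fintype.card ((Fin n × Fin n) ⊕ (Fin b × Fin n)) = n ^ 2 + b * n := by
    simp [pow_two]
  let e : Fin (n ^ 2 + b * n) ≃ (Fin n × Fin n) ⊕ (Fin b × Fin n) :=
    (Fintype.equivFinOfCardEq hcard).symm
  let a0 : (Fin n × Fin n) ⊕ (Fin b × Fin n) → Matrix (Fin n) (Fin n) k :=
    Sum.elim (fun _ => 0) (fun p => Matrix.single (Fin.castLE hb p.1) p.2 1)
  let b0 : (Fin n × Fin n) ⊕ (Fin b × Fin n) → Matrix (Fin n) (Fin n) k :=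
    Sum.elim (fun p => Matrix.single p.1 p.2 1) (fun _ => 0)
  have hind0 : LinearIndependent k fun i => (a0 i, b0 i) := by
    rw [Fintype.linearIndependent_iff]
    intro g hg
    rw [Fintype.sum_sum_type] at hg
    have h1 := congrArg Prod.fst hg
    have h2 := congrArg Prod.snd hg
    simp only [Prod.fst_add, Prod.fst_sum, Prod.snd_add, Prod.snd_sum, Prod.smul_fst,
      Prod.smul_snd, a0, b0, Sum.elim_inl, Sum.elim_inr, smul_zero, Finset.sum_const_zero,
      zero_add, add_zero, Prod.fst_zero, Prod.snd_zero] at h1 h2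
    intro i
    rcases i with p | p
    · have h3 := congrFun (congrFun h2 p.1) p.2
      rw [Matrix.sum_apply, Finset.sum_eq_single p] at h3
      · simpa using h3
      · intro p' _ hp'
        rw [Matrix.smul_apply, Matrix.single_apply, if_neg, smul_zero]
        rintro ⟨h4, h5⟩
        exact hp' (Prod.ext h4 h5)
      · intro h; exact absurd (Finset.mem_univ _) h
    · have h3 := congrFun (congrFun h1 (Fin.castLE hb p.1)) p.2
      rw [Matrix.sum_apply, Finset.sum_eq_single p] at h3
      · simpa using h3
      · intro p' _ hp'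
        rw [Matrix.smul_apply, Matrix.single_apply, if_neg, smul_zero]
        rintro ⟨h4, h5⟩
        exact hp' (Prod.ext (Fin.castLE_injective hb h4) h5)
      · intro h; exact absurd (Finset.mem_univ _) h
  let pos0 : Fin (b * n) → Fin n × Fin n := fun s =>
    (Fin.castLE hb (finProdFinEquiv.symm s).1, (finProdFinEquiv.symm s).2)
  have hpos0 : Function.Injective pos0 := by
    intro s s' h
    have h1 := Fin.castLE_injective hb (congrArg Prod.fst h)
    have h2 := congrArg Prod.snd h
    exact finProdFinEquiv.symm.injective (Prod.ext h1 h2)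
  let pos : Fin Q → Fin n × Fin n := fun s => pos0 (Fin.castLE hQ s)
  have hpos : Function.Injective pos := hpos0.comp (Fin.castLE_injective hQ)
  refine ⟨fun i => a0 (e i), fun i => b0 (e i), askT pos, hind0.comp e e.injective, fun x => ?_⟩
  set D : Matrix (Fin n) (Fin n) k := fam 0 (fun i => a0 (e i)) x * fam 0 (fun i => b0 (e i)) x
    with hD
  -- the rows with number at least `b` of the product are zero
  have hzero : ∀ i j, (∀ s, pos0 s ≠ (i, j)) → D i j = 0 := by
    intro i j hij
    rw [hD, Matrix.mul_apply]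
    refine Finset.sum_eq_zero fun r _ => ?_
    have h0 : fam 0 (fun i => a0 (e i)) x i r = 0 := by
      rw [fam, zero_add, Matrix.sum_apply]
      refine Finset.sum_eq_zero fun t _ => ?_
      rw [Matrix.smul_apply]
      rcases h : e t with p | p
      · simp [a0]
      · have h1 : a0 (Sum.inr p) i r = 0 := by
          simp only [a0, Sum.elim_inr, Matrix.single_apply]
          refine if_neg ?_
          rintro ⟨h2, -⟩
          refine hij (finProdFinEquiv (p.1, j)) ?_
          simp only [pos0, Equiv.symm_apply_apply, h2]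
        rw [h1, smul_zero]
    rw [h0, zero_mul]
  set C0 : Matrix (Fin n) (Fin n) k := Matrix.of fun i j => if ∃ s, pos s = (i, j) then D i j else 0
    with hC0
  refine QTree.CanOutput.mono (E := fun C => C = C0) (fun C hC => ?_) _ 0 0 0 _
    (askT_can hpos _ _ _ fun i j hij => ?_)
  · subst hC
    unfold AgreeIn
    set T0 : Finset (Fin n × Fin n) := (Finset.univ.image pos0)ᶜ with hT0
    set T1 : Finset (Fin n × Fin n) := Finset.univ.image pos with hT1
    have hT0c : T0.card = n ^ 2 - b * n := by
      rw [hT0, Finset.card_compl, Finset.card_image_of_injective _ hpos0, Finset.card_univ,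
        Fintype.card_fin, Fintype.card_prod, Fintype.card_fin, pow_two]
    have hT1c : T1.card = Q := by
      rw [hT1, Finset.card_image_of_injective _ hpos, Finset.card_univ, Fintype.card_fin]
    have hdisj : Disjoint T0 T1 := by
      rw [Finset.disjoint_left]
      intro p hp0 hp1
      obtain ⟨s, -, hs⟩ := Finset.mem_image.mp hp1
      rw [hT0, Finset.mem_compl] at hp0
      exact hp0 (Finset.mem_image.mpr ⟨Fin.castLE hQ s, Finset.mem_univ _, hs⟩)
    rw [← hT0c, ← hT1c, ← Finset.card_union_of_disjoint hdisj]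
    refine Finset.card_le_card fun p hp => ?_
    rw [Finset.mem_filter]
    refine ⟨Finset.mem_univ _, ?_⟩
    rw [hC0, Matrix.of_apply]
    rcases Finset.mem_union.mp hp with h | h
    · have h1 : ∀ s, pos0 s ≠ (p.1, p.2) := fun s hs =>
        (Finset.mem_compl.mp h) (Finset.mem_image.mpr ⟨s, Finset.mem_univ _, hs⟩)
      rw [hzero _ _ h1]
      split_ifs <;> rfl
    · obtain ⟨s, -, hs⟩ := Finset.mem_image.mp h
      rw [if_pos ⟨s, hs⟩]
  · rw [hC0, Matrix.of_apply, if_neg]
    rintro ⟨s, hs⟩
    exact hij s hs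

/-- **Errors of rank `s` with `(n - s) ^ 2` queries.** -/
theorem rank_sharp (k : Type) [Field k] (n s : ℕ) (hs : s ≤ n) :
    ∃ t : QTree k n, UpToRank t s 0 ((n - s) ^ 2) := by
  classical
  let sh : Fin (n - s) → Fin n := fun i => ⟨s + i, by omega⟩
  have hsh : Function.Injective sh := fun i j h => by
    have := congrArg Fin.val h
    simp only [sh] at this
    exact Fin.ext (by omega)
  let pos : Fin ((n - s) * (n - s)) → Fin n × Fin n := fun r =>
    (sh (finProdFinEquiv.symm r).1, sh (finProdFinEquiv.symm r).2)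
  have hpos : Function.Injective pos := by
    intro r r' h
    have h1 := hsh (congrArg Prod.fst h)
    have h2 := hsh (congrArg Prod.snd h)
    exact finProdFinEquiv.symm.injective (Prod.ext h1 h2)
  let PM : Matrix (Fin s) (Fin s) (MvPolynomial (Ent n) k) := Matrix.of fun i j =>
    ∑ r : Fin n, X (Sum.inl (Fin.castLE hs i, r)) * X (Sum.inr (r, Fin.castLE hs j))
  have hPM : ∀ A B : Matrix (Fin n) (Fin n) k, eval (entries A B) PM.det =
      ((A * B).submatrix (Fin.castLE hs) (Fin.castLE hs)).det := by
    intro A B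
    rw [RingHom.map_det]
    congr 1
    refine Matrix.ext fun i j => ?_
    simp [PM, entries, Matrix.mul_apply]
  rw [pow_two]
  refine ⟨askT pos, PM.det, fun h => ?_, fun A B hAB => ?_⟩
  · have h1 := hPM 1 1
    rw [h, map_zero, Matrix.one_mul] at h1
    have h2 : (1 : Matrix (Fin n) (Fin n) k).submatrix (Fin.castLE hs) (Fin.castLE hs) = 1 :=
      Matrix.submatrix_one _ (Fin.castLE_injective hs)
    rw [h2, Matrix.det_one] at h1
    exact zero_ne_one h1
  · rw [hPM] at hAB
    set M := A * B with hM
    set M1 : Matrix (Fin s) (Fin s) k := M.submatrix (Fin.castLE hs) (Fin.castLE hs) with hM1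
    set Xl : Matrix (Fin n) (Fin s) k := M.submatrix id (Fin.castLE hs) * M1⁻¹ with hXl
    set Yr : Matrix (Fin s) (Fin n) k := M.submatrix (Fin.castLE hs) id with hYr
    have hunit : IsUnit M1.det := isUnit_iff_ne_zero.mpr hAB
    refine QTree.CanOutput.mono (E := fun C => C = M - Xl * Yr) (fun C hC => ?_) _ 0 0 0 _ ?_
    · rw [hC, sub_sub_cancel]
      exact (Matrix.rank_mul_le_left _ _).trans (Matrix.rank_le_width _)
    · refine askT_can hpos _ _ _ fun i j hij => ?_
      rw [Matrix.sub_apply, sub_eq_zero]
      by_cases hi : (i : ℕ) < s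
      · have h1 : (M1 * M1⁻¹ * Yr) ⟨i, hi⟩ j = M i j := by
          rw [Matrix.mul_nonsing_inv _ hunit, Matrix.one_mul]
          rfl
        rw [← h1, hXl, Matrix.mul_assoc, Matrix.mul_assoc, Matrix.mul_apply, Matrix.mul_apply]
        rfl
      · by_cases hj : (j : ℕ) < s
        · have h1 : (M.submatrix id (Fin.castLE hs) * M1⁻¹ * M1) i ⟨j, hj⟩ = M i j := by
            rw [Matrix.mul_assoc, Matrix.nonsing_inv_mul _ hunit, Matrix.mul_one]
            rfl
          rw [← h1, Matrix.mul_apply, Matrix.mul_apply]
          rfl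
        · exfalso
          refine hij (finProdFinEquiv (⟨i - s, by omega⟩, ⟨j - s, by omega⟩)) ?_
          simp only [pos, Equiv.symm_apply_apply, sh]
          refine Prod.ext (Fin.ext ?_) (Fin.ext ?_)
          · simp only; omega
          · simp only; omega

end Pool.Agent.W966.Mm
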