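import Pool.Agent.W966.Mm.Bil

/-!
# Products up to errors of small rank, with queries
-/

set_option linter.unusedSectionVars false

namespace Pool.Agent.W966.Mm

open Module Pool.Agent.H515R2.MMR MvPolynomial

/-- The index set of the entries of a pair of matrices. -/
abbrev Ent (n : ℕ) : Type := (Fin n × Fin n) ⊕ (Fin n × Fin n)

/-- The values of the entries of the pair `A, B`. -/
def entries {k : Type} {n : ℕ} (A B : Matrix (Fin n) (Fin n) k) : Ent n → k :=
  Sum.elim (fun p => A p.1 p.2) (fun p => B p.1 p.2)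

/-- The family of all first matrices. -/
def unA (k : Type) [Field k] (n : ℕ) : Ent n → Matrix (Fin n) (Fin n) k :=
  Sum.elim (fun p => Matrix.single p.1 p.2 1) (fun _ => 0)

/-- The family of all second matrices. -/
def unB (k : Type) [Field k] (n : ℕ) : Ent n → Matrix (Fin n) (Fin n) k :=
  Sum.elim (fun _ => 0) (fun p => Matrix.single p.1 p.2 1)

section

variable {n : ℕ}

lemma sum_single {k : Type} [Field k] (A : Matrix (Fin n) (Fin n) k) :
    ∑ p : Fin n × Fin n, A p.1 p.2 • Matrix.single p.1 p.2 (1 : k) = A := by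
  rw [Fintype.sum_prod_type]
  conv_rhs => rw [Matrix.matrix_eq_sum_single A]
  refine Finset.sum_congr rfl fun i _ => Finset.sum_congr rfl fun j _ => ?_
  rw [Matrix.smul_single, smul_eq_mul, mul_one]

lemma fam_unA {k : Type} [Field k] (A B : Matrix (Fin n) (Fin n) k) :
    fam 0 (unA k n) (entries A B) = A := by
  rw [fam, zero_add, Fintype.sum_sum_type]
  simp only [entries, unA, Sum.elim_inl, Sum.elim_inr, smul_zero, Finset.sum_const_zero, add_zero]
  exact sum_single A

lemma fam_unB {k : Type} [Field k] (A B : Matrix (Fin n) (Fin n) k) :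
    fam 0 (unB k n) (entries A B) = B := by
  rw [fam, zero_add, Fintype.sum_sum_type]
  simp only [entries, unB, Sum.elim_inl, Sum.elim_inr, smul_zero, Finset.sum_const_zero, zero_add]
  exact sum_single B

lemma map_unA {k : Type} [Field k] (σ : k →+* ℂ) :
    (fun i => (unA k n i).map σ) = unA ℂ n := by
  funext i
  refine Matrix.ext fun x y => ?_
  rcases i with p | p
  · simp only [unA, Sum.elim_inl, Matrix.map_apply, Matrix.single_apply]
    split_ifs <;> simp
  · simp [unA]

lemma map_unB {k : Type} [Field k] (σ : k →+* ℂ) :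
    (fun i => (unB k n i).map σ) = unB ℂ n := by
  funext i
  refine Matrix.ext fun x y => ?_
  rcases i with p | p
  · simp [unB]
  · simp only [unB, Sum.elim_inr, Matrix.map_apply, Matrix.single_apply]
    split_ifs <;> simp

/-- The entries, as a linear map. -/
def entL (n : ℕ) : (Matrix (Fin n) (Fin n) ℂ × Matrix (Fin n) (Fin n) ℂ) →ₗ[ℂ] (Ent n → ℂ) where
  toFun x := entries x.1 x.2
  map_add' x y := by
    funext p
    rcases p with p | p <;> simp [entries]
  map_smul' c x := by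
    funext p
    rcases p with p | p <;> simp [entries]

lemma lx_unA (x : Matrix (Fin n) (Fin n) ℂ × Matrix (Fin n) (Fin n) ℂ) :
    lx (unA ℂ n) (entL n x) = x.1 := by
  have := fam_unA x.1 x.2
  rw [fam, zero_add] at this
  rw [lx_apply]
  exact this

lemma lx_unB (x : Matrix (Fin n) (Fin n) ℂ × Matrix (Fin n) (Fin n) ℂ) :
    lx (unB ℂ n) (entL n x) = x.2 := by
  have := fam_unB x.1 x.2
  rw [fam, zero_add] at this
  rw [lx_apply]
  exact this

/-- **The linear algebra bound.** -/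
theorem sys_bound {m s l L Q q : ℕ} {K : Finset ℕ} (hms : m + s = n)
    (hK : K ⊆ Finset.range l) (hKQ : K.card ≤ Q) (hl : l ≤ L + K.card)
    (h : Sys ℂ m s l K (unA ℂ n) (unB ℂ n)) (hdim : n * (Q + 3 * q * m) < m ^ 3) :
    ((q : ℝ) + 1) ^ omega ≤ 2 * L := by
  classical
  obtain ⟨U, U', V, V', f, g, p, q', e, c, hU, hV, hid⟩ := sys_bilin hK h
  -- the reduced space of pairs
  let M : Type := Matrix (Fin m) (Fin n) ℂ × Matrix (Fin n) (Fin m) ℂ
  let L0 : (Matrix (Fin m) (Fin n) ℂ × Matrix (Fin n) (Fin m) ℂ) →ₗ[ℂ] (Ent n → ℂ) :=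
    entL n ∘ₗ LinearMap.prodMap (mulLeftLinearMap (Fin n) ℂ U') (mulRightLinearMap (Fin n) ℂ V')
  have hL0 : ∀ X Y, L0 (X, Y) = entL n (U' * X, Y * V') := fun _ _ => rfl
  have hid' : ∀ X Y X' Y', X * Y' + X' * Y =
      ∑ t ∈ Finset.range l \ K, (p t (L0 (X, Y)) * q' t (L0 (X', Y')) +
        p t (L0 (X', Y')) * q' t (L0 (X, Y))) • c t +
      ∑ t ∈ K, e t (L0 (X, Y)) (L0 (X', Y')) • c t +
      (f (L0 (X, Y)) * g (L0 (X', Y')) + f (L0 (X', Y')) * g (L0 (X, Y))) := by
    intro X Y X' Y'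
    rw [← hid]
    simp only [hL0, lx_unA, lx_unB]
    have e1 : ∀ (X : Matrix (Fin m) (Fin n) ℂ) (Y : Matrix (Fin n) (Fin m) ℂ),
        U * (U' * X * (Y * V')) * V = X * Y := by
      intro X Y
      calc U * (U' * X * (Y * V')) * V = (U * U') * X * Y * (V' * V) := by
            simp only [Matrix.mul_assoc]
        _ = X * Y := by rw [hU, hV, Matrix.one_mul, Matrix.mul_one]
    rw [Matrix.mul_add, Matrix.add_mul, e1, e1]
  -- the subspace on which `f` and `g` vanish
  let Φ := (LinearMap.prod f g) ∘ₗ L0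
  set T := LinearMap.ker Φ with hT
  have hTf : ∀ x : T, f (L0 x) = 0 := fun x => congrArg Prod.fst (show Φ x = 0 from x.2)
  have hTg : ∀ x : T, g (L0 x) = 0 := fun x => congrArg Prod.snd (show Φ x = 0 from x.2)
  have hTd : 2 * m ^ 2 ≤ finrank ℂ T := by
    have h1 := LinearMap.finrank_range_add_finrank_ker Φ
    have h2 : finrank ℂ (LinearMap.range Φ) ≤ m * s + s * m := by
      have := Submodule.finrank_le (LinearMap.range Φ)
      rwa [Module.finrank_prod, Module.finrank_matrix, Module.finrank_matrix, Module.finrank_self,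
        Fintype.card_fin, Fintype.card_fin, mul_one, mul_one] at this
    rw [Module.finrank_prod, Module.finrank_matrix, Module.finrank_matrix, Module.finrank_self,
      Fintype.card_fin, Fintype.card_fin, mul_one, mul_one] at h1
    subst hms
    nlinarith
  let P1 : T →ₗ[ℂ] Matrix (Fin m) (Fin n) ℂ := LinearMap.fst ℂ _ _ ∘ₗ T.subtype
  let P2 : T →ₗ[ℂ] Matrix (Fin n) (Fin m) ℂ := LinearMap.snd ℂ _ _ ∘ₗ T.subtype
  have hsum : finrank ℂ T ≤ finrank ℂ (LinearMap.range P1) + finrank ℂ (LinearMap.range P2) := by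
    let J : T →ₗ[ℂ] (LinearMap.range P1 × LinearMap.range P2) :=
      LinearMap.prod P1.rangeRestrict P2.rangeRestrict
    have hJ : Function.Injective J := by
      intro x y hxy
      have h1 := congrArg (fun z => ((z.1 : Matrix (Fin m) (Fin n) ℂ))) hxy
      have h2 := congrArg (fun z => ((z.2 : Matrix (Fin n) (Fin m) ℂ))) hxy
      exact Subtype.ext (Prod.ext h1 h2)
    have := LinearMap.finrank_le_finrank_of_injective hJ
    rwa [Module.finrank_prod] at this
  have hmn : m ≤ n := by omega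
  have hcard : Fintype.card ({t // t ∈ Finset.range l \ K} × Fin 2) ≤ 2 * L := by
    rw [Fintype.card_prod, Fintype.card_coe, Fintype.card_fin, Finset.card_sdiff_of_subset hK,
      Finset.card_range]
    omega
  have hfin : ((q : ℝ) + 1) ^ omega ≤
      (Fintype.card ({t // t ∈ Finset.range l \ K} × Fin 2) : ℝ) →
      ((q : ℝ) + 1) ^ omega ≤ 2 * L := fun h => h.trans (by exact_mod_cast hcard)
  have hcase : m ^ 2 ≤ finrank ℂ (LinearMap.range P1) ∨
      m ^ 2 ≤ finrank ℂ (LinearMap.range P2) := by omega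
  apply hfin
  rcases hcase with hc | hc
  · refine la_bound hmn P1
      (fun t => if t.2 = 0 then (p t.1 ∘ₗ L0 ∘ₗ T.subtype) else (q' t.1 ∘ₗ L0 ∘ₗ T.subtype))
      (fun t => if t.2 = 0 then (q' t.1 ∘ₗ L0 ∘ₗ LinearMap.inr ℂ _ _) else
        (p t.1 ∘ₗ L0 ∘ₗ LinearMap.inr ℂ _ _)) (fun t => c t.1) K hKQ
      (fun t x Y => e t (L0 x) (L0 (0, Y))) c ?_ ?_ (q := q)
    · intro x Y
      have h1 := hid' (x : Matrix (Fin m) (Fin n) ℂ × Matrix (Fin n) (Fin m) ℂ).1
        (x : Matrix (Fin m) (Fin n) ℂ × Matrix (Fin n) (Fin m) ℂ).2 0 Y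
      rw [Matrix.zero_mul, add_zero, Prod.mk.eta, hTf, hTg, Matrix.zero_mul, Matrix.mul_zero,
        add_zero, add_zero] at h1
      have h2 : P1 x = (x : Matrix (Fin m) (Fin n) ℂ × Matrix (Fin n) (Fin m) ℂ).1 := rfl
      rw [h2, h1]
      congr 1
      rw [Fintype.sum_prod_type, ← Finset.sum_coe_sort]
      refine Finset.sum_congr rfl fun t _ => ?_
      rw [Fin.sum_univ_two, ← add_smul]
      congr 1
      simp only [if_true, Fin.reduceEq, if_false, LinearMap.comp_apply, one_ne_zero]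
      have h3 : (LinearMap.inr ℂ (Matrix (Fin m) (Fin n) ℂ) (Matrix (Fin n) (Fin m) ℂ)) Y =
        (0, Y) := rfl
      rw [h3]
      have h4 : T.subtype x = (x : Matrix (Fin m) (Fin n) ℂ × Matrix (Fin n) (Fin m) ℂ) := rfl
      rw [h4]
      ring
    · calc n * (Q + 3 * q * m) < m ^ 3 := hdim
        _ = m * m ^ 2 := by ring
        _ ≤ m * finrank ℂ (LinearMap.range P1) := Nat.mul_le_mul_left _ hc
  · let τ : T →ₗ[ℂ] Matrix (Fin m) (Fin n) ℂ :=
      (Matrix.transposeLinearEquiv (Fin n) (Fin m) ℂ ℂ).toLinearMap ∘ₗ P2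
    have hτ : ∀ x, τ x = (P2 x).transpose := fun _ => rfl
    have hτd : finrank ℂ (LinearMap.range τ) = finrank ℂ (LinearMap.range P2) := by
      have h1 : LinearMap.range τ =
          (LinearMap.range P2).map
            (Matrix.transposeLinearEquiv (Fin n) (Fin m) ℂ ℂ).toLinearMap :=
        LinearMap.range_comp _ _
      rw [h1]
      exact LinearEquiv.finrank_map_eq _ _
    let tr : Matrix (Fin n) (Fin m) ℂ →ₗ[ℂ] Matrix (Fin m) (Fin n) ℂ :=
      (Matrix.transposeLinearEquiv (Fin n) (Fin m) ℂ ℂ).toLinearMap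
    have htr : ∀ Y, tr Y = Y.transpose := fun _ => rfl
    refine la_bound hmn τ
      (fun t => if t.2 = 0 then (p t.1 ∘ₗ L0 ∘ₗ T.subtype) else (q' t.1 ∘ₗ L0 ∘ₗ T.subtype))
      (fun t => if t.2 = 0 then (q' t.1 ∘ₗ L0 ∘ₗ LinearMap.inl ℂ _ _ ∘ₗ tr) else
        (p t.1 ∘ₗ L0 ∘ₗ LinearMap.inl ℂ _ _ ∘ₗ tr)) (fun t => (c t.1).transpose) K hKQ
      (fun t x Y => e t (L0 x) (L0 (Y.transpose, 0))) (fun t => (c t).transpose) ?_ ?_ (q := q)
    · intro x Y
      have h1 := hid' (x : Matrix (Fin m) (Fin n) ℂ × Matrix (Fin n) (Fin m) ℂ).1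
        (x : Matrix (Fin m) (Fin n) ℂ × Matrix (Fin n) (Fin m) ℂ).2 Y.transpose 0
      rw [Matrix.mul_zero, zero_add, Prod.mk.eta, hTf, hTg, Matrix.zero_mul, Matrix.mul_zero,
        add_zero, add_zero] at h1
      have h2 : P2 x = (x : Matrix (Fin m) (Fin n) ℂ × Matrix (Fin n) (Fin m) ℂ).2 := rfl
      have h5 : τ x * Y = (Y.transpose *
          (x : Matrix (Fin m) (Fin n) ℂ × Matrix (Fin n) (Fin m) ℂ).2).transpose := by
        rw [hτ, h2, Matrix.transpose_mul, Matrix.transpose_transpose]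
      rw [h5, h1, Matrix.transpose_add, Matrix.transpose_sum, Matrix.transpose_sum]
      congr 1
      rw [Fintype.sum_prod_type, ← Finset.sum_coe_sort]
      refine Finset.sum_congr rfl fun t _ => ?_
      rw [Fin.sum_univ_two, ← add_smul, Matrix.transpose_smul]
      congr 1
      simp only [if_true, Fin.reduceEq, if_false, LinearMap.comp_apply, one_ne_zero]
      have h3 : (LinearMap.inl ℂ (Matrix (Fin m) (Fin n) ℂ) (Matrix (Fin n) (Fin m) ℂ)) (tr Y) =
        (Y.transpose, 0) := rfl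
      rw [h3]
      have h4 : T.subtype x = (x : Matrix (Fin m) (Fin n) ℂ × Matrix (Fin n) (Fin m) ℂ) := rfl
      rw [h4]
      ring
    · rw [hτd]
      calc n * (Q + 3 * q * m) < m ^ 3 := hdim
        _ = m * m ^ 2 := by ring
        _ ≤ m * finrank ℂ (LinearMap.range P2) := Nat.mul_le_mul_left _ hc

/-- **Products up to errors of rank `s`, with `Q` queries.** -/
theorem rank_error_bound {k : Type} [Field k] (σ : k →+* ℂ) {s L Q q : ℕ} (hs : s ≤ n)
    (t : QTree k n) (P : MvPolynomial (Ent n) k) (hP : P ≠ 0)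
    (H : ∀ A B : Matrix (Fin n) (Fin n) k, eval (entries A B) P ≠ 0 →
      t.CanOutput A B (fun C => (A * B - C).rank ≤ s) 0 0 L Q)
    (hdim : n * (Q + 3 * q * (n - s)) < (n - s) ^ 3) :
    ((q : ℝ) + 1) ^ omega ≤ 2 * L := by
  obtain ⟨l, K, hK, hKQ, hl, hsys⟩ := core σ (m := n - s) (s := s) (by omega) 0 0 (unA k n)
    (unB k n) t L Q P hP (by
      intro x hx
      have hx' : x = entries (Matrix.of fun i j => x (Sum.inl (i, j)))
          (Matrix.of fun i j => x (Sum.inr (i, j))) := by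
        funext p
        rcases p with p | p <;> rfl
      rw [hx'] at hx ⊢
      rw [fam_unA, fam_unB]
      exact H _ _ hx)
  rw [map_unA, map_unB] at hsys
  exact sys_bound (by omega) hK hKQ hl hsys hdim

end

end Pool.Agent.W966.Mm
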