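import Pool.Agent.W966.Mm.Fam

/-!
# Outputs which are correct in some of their entries
-/

set_option linter.unusedSectionVars false

namespace Pool.Agent.W966.Mm

open Module MvPolynomial Pool.Agent.H515R2.MMR

open Classical in
/-- The matrices agree in at least `K` of their entries. -/
def AgreeIn {k : Type} {n : ℕ} (K : ℕ) (C D : Matrix (Fin n) (Fin n) k) : Prop :=
  K ≤ (Finset.univ.filter fun p : Fin n × Fin n => C p.1 p.2 = D p.1 p.2).card

/-- Make `N` queries. -/
def askN {k : Type} {n : ℕ} : ℕ → QTree k n → QTree k n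
  | 0, t => t
  | N + 1, t => .query (askN N t)

lemma askN_can {k : Type} [Field k] {n : ℕ} {A B : Matrix (Fin n) (Fin n) k}
    {E : Matrix (Fin n) (Fin n) k → Prop} {t : QTree k n} {L Q : ℕ} (g' : ℕ → k) (N : ℕ) :
    ∀ (l : ℕ) (g : ℕ → k), (∀ s, s < l ∨ l + N ≤ s → g' s = g s) →
      t.CanOutput A B E (l + N) g' L Q → (askN N t).CanOutput A B E l g L (Q + N) := by
  induction N with
  | zero =>
    intro l g h1 h2
    have : g' = g := funext fun s => h1 s (by omega)
    rw [← this]
    exact h2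
  | succ N ih =>
    intro l g h1 h2
    refine ⟨by omega, g' l, ?_⟩
    have e1 : Q + (N + 1) - 1 = Q + N := by omega
    rw [e1]
    refine ih (l + 1) _ (fun s hs => ?_) ?_
    · by_cases hsl : s = l
      · subst hsl
        rw [Function.update_self]
      · rw [Function.update_of_ne hsl]
        exact h1 s (by omega)
    · rw [show l + 1 + N = l + (N + 1) by omega]
      exact h2

lemma QTree.CanOutput.mono_Q {k : Type} [Field k] {n : ℕ} {A B : Matrix (Fin n) (Fin n) k}
    {E : Matrix (Fin n) (Fin n) k → Prop} (t : QTree k n) :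
    ∀ (l : ℕ) (g : ℕ → k) (L Q Q' : ℕ), Q ≤ Q' → t.CanOutput A B E l g L Q →
      t.CanOutput A B E l g L Q' := by
  induction t with
  | output M => intro l g L Q Q' _ h; exact h
  | mul f h next ih => intro l g L Q Q' hQ hh; exact ⟨hh.1, ih _ _ _ _ _ hQ hh.2⟩
  | div f h next ih => intro l g L Q Q' hQ hh; exact ⟨hh.1, hh.2.1, ih _ _ _ _ _ hQ hh.2.2⟩
  | query next ih =>
    intro l g L Q Q' hQ hh
    obtain ⟨h1, v, h2⟩ := hh
    exact ⟨by omega, v, ih _ _ _ _ _ (by omega) h2⟩
  | test f yes no ihy ihn =>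
    intro l g L Q Q' hQ hh
    rcases hh with ⟨h1, h2⟩ | ⟨h1, h2⟩
    · exact Or.inl ⟨h1, ihy _ _ _ _ _ hQ h2⟩
    · exact Or.inr ⟨h1, ihn _ _ _ _ _ hQ h2⟩
  | choose r next ih =>
    intro l g L Q Q' hQ hh
    obtain ⟨i, hi⟩ := hh
    exact ⟨i, ih i _ _ _ _ _ hQ hi⟩

section

variable {k : Type} [Field k] {n : ℕ}

/-- Forget the coefficients of the later results. -/
def Lin.trunc (l : ℕ) (f : Lin k n) : Lin k n :=
  { f with r := fun s => if s < l then f.r s else 0 }

lemma Lin.trunc_val (f : Lin k n) (A B : Matrix (Fin n) (Fin n) k) {l l' : ℕ} (h : l ≤ l')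
    {g g' : ℕ → k} (hg : ∀ s < l, g' s = g s) : (f.trunc l).val A B l' g' = f.val A B l g := by
  unfold Lin.trunc Lin.val
  congr 1
  rw [← Finset.sum_subset (Finset.range_subset_range.mpr h)]
  · refine Finset.sum_congr rfl fun s hs => ?_
    show (if s < l then f.r s else 0) * g' s = f.r s * g s
    rw [if_pos (Finset.mem_range.mp hs), hg s (Finset.mem_range.mp hs)]
  · intro s _ hs
    show (if s < l then f.r s else 0) * g' s = 0
    rw [if_neg (fun h => hs (Finset.mem_range.mpr h)), zero_mul]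

/-- The result number `s`. -/
def Lin.proj (s : ℕ) : Lin k n := ⟨0, fun _ _ => 0, fun _ _ => 0, fun s' => if s' = s then 1 else 0⟩

lemma Lin.proj_val (A B : Matrix (Fin n) (Fin n) k) {s l : ℕ} (h : s < l) (g : ℕ → k) :
    (Lin.proj s : Lin k n).val A B l g = g s := by
  unfold Lin.proj Lin.val
  simp [Finset.mem_range.mpr h]

open Classical in
/-- The number of a position outside of `S`. -/
noncomputable def numb (S : Finset (Fin n × Fin n)) (p : Fin n × Fin n) : ℕ :=
  if h : p ∈ Sᶜ then ((Sᶜ).equivFin ⟨p, h⟩ : ℕ) else 0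

lemma numb_lt {S : Finset (Fin n × Fin n)} {p : Fin n × Fin n} (h : p ∉ S) :
    numb S p < (Sᶜ).card := by
  classical
  have h' : p ∈ Sᶜ := Finset.mem_compl.mpr h
  unfold numb
  convert ((Sᶜ).equivFin ⟨p, h'⟩).2 using 1
  simp only [h', dif_pos]

lemma numb_surj (S : Finset (Fin n × Fin n)) (D : Fin n × Fin n → k) :
    ∃ v : ℕ → k, ∀ p ∉ S, v (numb S p) = D p := by
  classical
  refine ⟨fun s => if h : s < (Sᶜ).card then D ((Sᶜ).equivFin.symm ⟨s, h⟩ : Fin n × Fin n) else 0,
    fun p hp => ?_⟩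
  have h' : p ∈ Sᶜ := Finset.mem_compl.mpr hp
  have h1 := numb_lt hp
  have h2 : (⟨numb S p, h1⟩ : Fin (Sᶜ).card) = (Sᶜ).equivFin ⟨p, h'⟩ := by
    apply Fin.ext
    show numb S p = _
    unfold numb
    simp only [h', dif_pos]
  simp only [h1, dif_pos, h2, Equiv.symm_apply_apply]

open Classical in
/-- Guess the positions of the correct entries and ask for the other ones. -/
noncomputable def fixT : ℕ → QTree k n → QTree k n
  | l, .output M => .choose (Fintype.card (Finset (Fin n × Fin n))) fun i =>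
      let S : Finset (Fin n × Fin n) :=
        if h : (i : ℕ) < Fintype.card (Finset (Fin n × Fin n)) then
          (Fintype.equivFin (Finset (Fin n × Fin n))).symm ⟨i, h⟩ else ∅
      askN (Sᶜ).card (.output fun i j =>
        if (i, j) ∈ S then (M i j).trunc l else Lin.proj (l + numb S (i, j)))
  | l, .mul f h next => .mul f h (fixT (l + 1) next)
  | l, .div f h next => .div f h (fixT (l + 1) next)
  | l, .query next => .query (fixT (l + 1) next)
  | l, .test f yes no => .test f (fixT l yes) (fixT l no)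
  | l, .choose r next => .choose r fun i => fixT l (next i)

lemma fixT_can {A B D : Matrix (Fin n) (Fin n) k} {K : ℕ} (t : QTree k n) :
    ∀ (l : ℕ) (g : ℕ → k) (L Q : ℕ), t.CanOutput A B (fun C => AgreeIn K C D) l g L Q →
      (fixT l t).CanOutput A B (fun C => C = D) l g L (Q + (n ^ 2 - K)) := by
  classical
  induction t with
  | output M =>
    intro l g L Q h
    set C : Matrix (Fin n) (Fin n) k := Matrix.of fun i j => (M i j).val A B l g with hC
    set S : Finset (Fin n × Fin n) := Finset.univ.filter fun p => C p.1 p.2 = D p.1 p.2 with hS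
    have hSK : K ≤ S.card := by
      have : AgreeIn K C D := h
      unfold AgreeIn at this
      convert this
    let i : Fin (Fintype.card (Finset (Fin n × Fin n)) + 1) :=
      (Fintype.equivFin (Finset (Fin n × Fin n)) S).castSucc
    have hi : (if h : (i : ℕ) < Fintype.card (Finset (Fin n × Fin n)) then
          (Fintype.equivFin (Finset (Fin n × Fin n))).symm ⟨i, h⟩ else ∅) = S := by
      have hlt : (i : ℕ) < Fintype.card (Finset (Fin n × Fin n)) :=
        (Fintype.equivFin (Finset (Fin n × Fin n)) S).2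
      rw [dif_pos hlt]
      have : (⟨(i : ℕ), hlt⟩ : Fin (Fintype.card (Finset (Fin n × Fin n)))) =
          Fintype.equivFin (Finset (Fin n × Fin n)) S := Fin.ext rfl
      rw [this, Equiv.symm_apply_apply]
    refine ⟨i, ?_⟩
    simp only [hi]
    obtain ⟨v, hv⟩ := numb_surj S fun p => D p.1 p.2
    have hcard : (Sᶜ).card ≤ n ^ 2 - K := by
      rw [Finset.card_compl, Fintype.card_prod, Fintype.card_fin, ← pow_two]
      omega
    refine QTree.CanOutput.mono_Q _ l g L (Q + (Sᶜ).card) _ (by omega) ?_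
    refine askN_can (fun s => if s < l ∨ l + (Sᶜ).card ≤ s then g s else v (s - l)) _ l g
      (fun s hs => if_pos hs) ?_
    show Matrix.of _ = D
    refine Matrix.ext fun i j => ?_
    rw [Matrix.of_apply]
    by_cases hij : (i, j) ∈ S
    · simp only [if_pos hij]
      rw [Lin.trunc_val (g := g) _ _ _ (by omega) (fun s hs => if_pos (Or.inl hs))]
      exact (Finset.mem_filter.mp hij).2
    · simp only [if_neg hij]
      have h1 := numb_lt hij
      rw [Lin.proj_val _ _ (by omega), if_neg (by omega), Nat.add_sub_cancel_left]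
      exact hv (i, j) hij
  | mul f h next ih => intro l g L Q hh; exact ⟨hh.1, ih _ _ _ _ hh.2⟩
  | div f h next ih => intro l g L Q hh; exact ⟨hh.1, hh.2.1, ih _ _ _ _ hh.2.2⟩
  | query next ih =>
    intro l g L Q hh
    obtain ⟨h1, v, h2⟩ := hh
    refine ⟨by omega, v, ?_⟩
    have := ih _ _ _ _ h2
    rwa [show Q - 1 + (n ^ 2 - K) = Q + (n ^ 2 - K) - 1 by omega] at this
  | test f yes no ihy ihn =>
    intro l g L Q hh
    rcases hh with ⟨h1, h2⟩ | ⟨h1, h2⟩
    · exact Or.inl ⟨h1, ihy _ _ _ _ h2⟩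
    · exact Or.inr ⟨h1, ihn _ _ _ _ h2⟩
  | choose r next ih =>
    intro l g L Q hh
    obtain ⟨i, hi⟩ := hh
    exact ⟨i, ih i _ _ _ _ hi⟩

lemma AgreeIn.le {K : ℕ} {C D : Matrix (Fin n) (Fin n) k} (h : AgreeIn K C D) : K ≤ n ^ 2 := by
  classical
  unfold AgreeIn at h
  refine h.trans ((Finset.card_filter_le _ _).trans ?_)
  rw [Finset.card_univ, Fintype.card_prod, Fintype.card_fin, pow_two]

/-- **Pairs from an affine family, `Q` queries, `K` correct entries.** -/
theorem agree_bound {κ : Type} [Fintype κ] (σ : k →+* ℂ) {L Q q K : ℕ} (hK : K ≤ n ^ 2)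
    (A₀ B₀ : Matrix (Fin n) (Fin n) k) (a b : κ → Matrix (Fin n) (Fin n) k)
    (hind : LinearIndependent k fun i => (a i, b i))
    (t : QTree k n) (P : MvPolynomial κ k) (hP : P ≠ 0)
    (H : ∀ x : κ → k, eval x P ≠ 0 → t.CanOutput (fam A₀ a x) (fam B₀ b x)
      (fun C => AgreeIn K C (fam A₀ a x * fam B₀ b x)) 0 0 L Q)
    (hdim : 2 * n ^ 2 + Q + 3 * q * n < Fintype.card κ + K) :
    ((q : ℝ) + 1) ^ omega ≤ 2 * L :=
  fam_bound σ A₀ B₀ a b hind (fixT 0 t) P hP (fun x hx => fixT_can t 0 0 L Q (H x hx)) (by omega)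

end

end Pool.Agent.W966.Mm
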