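import Pool.Agent.W966.Mm.Agree

/-!
# Asymptotic forms
-/

set_option linter.unusedSectionVars false

namespace Pool.Agent.W966.Mm

open Module Pool.Agent.H515R2.MMR MvPolynomial Filter

/-- From infinitely many lower bounds to the exponent. -/
lemma omega_le_of_inf {c τ D : ℝ} (hc : 0 < c)
    (H : ∀ N : ℕ, ∃ n : ℕ, N ≤ n ∧ ∃ L : ℝ, (c * (n : ℝ)) ^ omega ≤ 2 * L ∧
      L ≤ D * (n : ℝ) ^ τ) : omega ≤ τ := by
  have hc' : 0 < c ^ omega / 2 := by
    have := Real.rpow_pos_of_pos hc omega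
    positivity
  set d : ℝ := c ^ omega / 2 with hd
  by_contra hcon
  push Not at hcon
  have t' := (tendsto_rpow_atTop (y := omega - τ) (by linarith)).comp
    (tendsto_natCast_atTop_atTop (R := ℝ))
  obtain ⟨N, hN⟩ := eventually_atTop.mp (t'.eventually (eventually_gt_atTop (D / d)))
  obtain ⟨n, hn, L, h1, h2⟩ := H (max N 1)
  have hn0 : (0 : ℝ) < n := by exact_mod_cast (le_max_right _ _).trans hn
  have h3 := hN n ((le_max_left _ _).trans hn)
  simp only [Function.comp] at h3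
  rw [Real.mul_rpow hc.le hn0.le] at h1
  have h4 : d * (n : ℝ) ^ omega ≤ D * (n : ℝ) ^ τ := by
    rw [hd]
    linarith
  have h5 : (n : ℝ) ^ omega = (n : ℝ) ^ (omega - τ) * (n : ℝ) ^ τ := by
    rw [← Real.rpow_add hn0]; congr 1; ring
  have h6 : 0 < (n : ℝ) ^ τ := Real.rpow_pos_of_pos hn0 _
  rw [h5, ← mul_assoc] at h4
  have h7 : d * (n : ℝ) ^ (omega - τ) ≤ D := le_of_mul_le_mul_right h4 h6
  rw [div_lt_iff₀ hc'] at h3
  linarith

/-- The algorithm `t` computes `K` entries of the products of the pairs in general position in the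
affine family `(A₀ + ∑ x i • a i, B₀ + ∑ x i • b i)`: for all parameters `x` outside the zero set
of a nonzero polynomial it can output a matrix which agrees with the product in at least `K`
entries, with at most `L` multiplications and divisions and at most `Q` queries. -/
def OnFamily {k : Type} [Field k] {n : ℕ} {κ : Type} [Fintype κ] (t : QTree k n)
    (A₀ B₀ : Matrix (Fin n) (Fin n) k) (a b : κ → Matrix (Fin n) (Fin n) k) (L Q K : ℕ) : Prop :=
  ∃ P : MvPolynomial κ k, P ≠ 0 ∧ ∀ x : κ → k, eval x P ≠ 0 →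
    t.CanOutput (fam A₀ a x) (fam B₀ b x) (fun C => AgreeIn K C (fam A₀ a x * fam B₀ b x)) 0 0 L Q

/-- The algorithm `t` computes products up to errors of rank `s`: for all pairs `A, B` outside the
zero set of a nonzero polynomial in their entries it can output a matrix `C` such that `A B - C`
has rank at most `s`, with at most `L` multiplications and divisions and at most `Q` queries. -/
def UpToRank {k : Type} [Field k] {n : ℕ} (t : QTree k n) (s L Q : ℕ) : Prop :=
  ∃ P : MvPolynomial (Ent n) k, P ≠ 0 ∧ ∀ A B : Matrix (Fin n) (Fin n) k,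
    eval (entries A B) P ≠ 0 → t.CanOutput A B (fun C => (A * B - C).rank ≤ s) 0 0 L Q

/-- The choice of `q`. -/
lemma exists_q {η : ℝ} (hη : 0 < η) (n : ℕ) (hn : 0 < n) :
    ∃ q : ℕ, (q : ℝ) ≤ η * n ∧ η * n ≤ (q : ℝ) + 1 :=
  ⟨⌊η * n⌋₊, Nat.floor_le (by positivity), (Nat.lt_floor_add_one _).le⟩

theorem fam_asym {k : Type} [Field k] (σ : k →+* ℂ) {ε τ D : ℝ} (hε : 0 < ε)
    (H : ∀ N : ℕ, ∃ n : ℕ, N ≤ n ∧ ∃ (d Q K L : ℕ) (A₀ B₀ : Matrix (Fin n) (Fin n) k)
      (a b : Fin d → Matrix (Fin n) (Fin n) k) (t : QTree k n),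
      K ≤ n ^ 2 ∧ (LinearIndependent k fun i => (a i, b i)) ∧
      (2 + ε) * (n : ℝ) ^ 2 + Q ≤ d + K ∧ OnFamily t A₀ B₀ a b L Q K ∧
      (L : ℝ) ≤ D * (n : ℝ) ^ τ) : omega ≤ τ := by
  refine omega_le_of_inf (c := ε / 4) (D := D) (by positivity) fun N => ?_
  obtain ⟨n, hn, d, Q, K, L, A₀, B₀, a, b, t, hK, hind, hd, ⟨P, hP, hgood⟩, hL⟩ := H (max N 1)
  have hn1 : 1 ≤ n := (le_max_right _ _).trans hn
  have hn0 : (0 : ℝ) < n := by exact_mod_cast hn1
  refine ⟨n, (le_max_left _ _).trans hn, L, ?_, hL⟩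
  obtain ⟨q, hq1, hq2⟩ := exists_q (η := ε / 4) (by positivity) n hn1
  have hb := agree_bound σ (q := q) hK A₀ B₀ a b hind t P hP hgood (by
    rw [Fintype.card_fin]
    have : ((2 * n ^ 2 + Q + 3 * q * n : ℕ) : ℝ) < ((d + K : ℕ) : ℝ) := by
      push_cast
      have h1 : 3 * (q : ℝ) * n ≤ 3 * (ε / 4 * n) * n := by
        apply mul_le_mul_of_nonneg_right _ hn0.le
        linarith
      have h2 : 0 < ε * (n : ℝ) ^ 2 := by positivity
      nlinarith
    exact_mod_cast this)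
  exact (Real.rpow_le_rpow (by positivity) hq2 omega_nonneg).trans hb

theorem rank_asym {k : Type} [Field k] (σ : k →+* ℂ) {ρ μ τ D : ℝ} (hρ1 : ρ < 1)
    (hμ : μ < (1 - ρ) ^ 3)
    (H : ∀ N : ℕ, ∃ n : ℕ, N ≤ n ∧ ∃ (s Q L : ℕ) (t : QTree k n),
      (s : ℝ) ≤ ρ * n ∧ (Q : ℝ) ≤ μ * (n : ℝ) ^ 2 ∧ UpToRank t s L Q ∧
      (L : ℝ) ≤ D * (n : ℝ) ^ τ) : omega ≤ τ := by
  set η : ℝ := ((1 - ρ) ^ 3 - μ) / 4 with hη
  have hη0 : 0 < η := by rw [hη]; linarith
  refine omega_le_of_inf (c := η) (D := D) hη0 fun N => ?_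
  obtain ⟨n, hn, s, Q, L, t, hs, hQ, ⟨P, hP, hgood⟩, hL⟩ := H (max N 1)
  have hn1 : 1 ≤ n := (le_max_right _ _).trans hn
  have hn0 : (0 : ℝ) < n := by exact_mod_cast hn1
  refine ⟨n, (le_max_left _ _).trans hn, L, ?_, hL⟩
  obtain ⟨q, hq1, hq2⟩ := exists_q (η := η) hη0 n hn1
  have hsn : s ≤ n := by
    have h1 : (s : ℝ) ≤ n := hs.trans (by nlinarith)
    exact_mod_cast h1
  have hb := rank_error_bound σ (q := q) hsn t P hP hgood (by
    have hm : ((n - s : ℕ) : ℝ) = (n : ℝ) - s := Nat.cast_sub hsn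
    have hm1 : (1 - ρ) * n ≤ ((n - s : ℕ) : ℝ) := by rw [hm]; linarith
    have hm2 : ((n - s : ℕ) : ℝ) ≤ n := by
      rw [hm]
      have : (0 : ℝ) ≤ s := Nat.cast_nonneg s
      linarith
    have hm0 : (0 : ℝ) ≤ ((n - s : ℕ) : ℝ) := Nat.cast_nonneg _
    have h2 : ((1 - ρ) * n) ^ 3 ≤ ((n - s : ℕ) : ℝ) ^ 3 := by
      have h0 : 0 ≤ (1 - ρ) * (n : ℝ) := mul_nonneg (by linarith) hn0.le
      exact pow_le_pow_left₀ h0 hm1 3
    have h3 : 3 * (q : ℝ) * ((n - s : ℕ) : ℝ) ≤ 3 * (η * n) * n := by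
      have e1 : 3 * (q : ℝ) * ((n - s : ℕ) : ℝ) ≤ 3 * (q : ℝ) * n :=
        mul_le_mul_of_nonneg_left hm2 (by positivity)
      have e2 : 3 * (q : ℝ) * n ≤ 3 * (η * n) * n :=
        mul_le_mul_of_nonneg_right (by linarith) hn0.le
      linarith
    have : ((n * (Q + 3 * q * (n - s)) : ℕ) : ℝ) < (((n - s) ^ 3 : ℕ) : ℝ) := by
      push_cast
      have h4 : (n : ℝ) * ((Q : ℝ) + 3 * q * ((n - s : ℕ) : ℝ)) ≤
          n * (μ * (n : ℝ) ^ 2 + 3 * (η * n) * n) :=
        mul_le_mul_of_nonneg_left (by linarith) hn0.le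
      have h5 : (n : ℝ) * (μ * (n : ℝ) ^ 2 + 3 * (η * n) * n) = (μ + 3 * η) * (n : ℝ) ^ 3 := by
        ring
      have h6 : (μ + 3 * η) * (n : ℝ) ^ 3 < ((1 - ρ) * n) ^ 3 := by
        rw [mul_pow]
        apply mul_lt_mul_of_pos_right _ (by positivity)
        rw [hη]
        linarith
      linarith
    exact_mod_cast this)
  exact (Real.rpow_le_rpow (by positivity) hq2 omega_nonneg).trans hb

/-! ### Sharpness -/

open Classical in
/-- Ask for the entries of a matrix at the positions `pos s`, output this matrix. -/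
noncomputable def askT {k : Type} [Field k] {n N : ℕ} (pos : Fin N → Fin n × Fin n) : QTree k n :=
  askN N (.output fun i j => ⟨0, fun _ _ => 0, fun _ _ => 0,
    fun s => if h : s < N then (if pos ⟨s, h⟩ = (i, j) then 1 else 0) else 0⟩)

lemma askT_can {k : Type} [Field k] {n N : ℕ} {pos : Fin N → Fin n × Fin n}
    (hpos : Function.Injective pos) (A B C : Matrix (Fin n) (Fin n) k)
    (hC : ∀ i j, (∀ s, pos s ≠ (i, j)) → C i j = 0) :
    (askT (k := k) pos).CanOutput A B (fun C' => C' = C) 0 0 0 N := by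
  classical
  have h := askN_can (A := A) (B := B) (E := fun C' => C' = C) (t := .output fun i j =>
    (⟨0, fun _ _ => 0, fun _ _ => 0,
    fun s => if h : s < N then (if pos ⟨s, h⟩ = (i, j) then 1 else 0) else 0⟩ : Lin k n))
    (L := 0) (Q := 0) (fun s => if h : s < N then C (pos ⟨s, h⟩).1 (pos ⟨s, h⟩).2 else 0) N 0 0
    (fun s hs => by
      rcases hs with hs | hs
      · omega
      · rw [zero_add] at hs
        simp only [not_lt.mpr hs, dif_neg, not_false_eq_true]
        rfl) (by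
      show Matrix.of _ = C
      refine Matrix.ext fun i j => ?_
      rw [Matrix.of_apply, Lin.val]
      simp only [zero_mul, add_zero, Finset.sum_const_zero, zero_add]
      rw [Finset.sum_range]
      simp only [Fin.is_lt, dif_pos, Fin.eta, ite_mul, one_mul, zero_mul]
      by_cases hij : ∃ s, pos s = (i, j)
      · obtain ⟨s, hs⟩ := hij
        rw [Finset.sum_eq_single s]
        · rw [if_pos hs, hs]
        · intro s' _ hne
          exact if_neg fun h' => hne (hpos (h'.trans hs.symm))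
        · intro h'; exact absurd (Finset.mem_univ _) h'
      · push Not at hij
        rw [hC i j hij]
        exact Finset.sum_eq_zero fun s _ => if_neg (hij s))
  rw [zero_add] at h
  exact h

end Pool.Agent.W966.Mm
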