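import Mathlib

/-!
# Projections of spaces of matrices to few columns
-/

namespace Pool.Agent.W966.Mm

open Module

section

variable {m n : ℕ}

/-- Keep the columns in `w`. -/
def res (w : Finset (Fin n)) : Matrix (Fin m) (Fin n) ℂ →ₗ[ℂ] Matrix (Fin m) (Fin n) ℂ where
  toFun X := Matrix.of fun i j => if j ∈ w then X i j else 0
  map_add' X Y := by
    refine Matrix.ext fun i j => ?_
    simp only [Matrix.of_apply, Matrix.add_apply]
    split_ifs <;> simp
  map_smul' c X := by
    refine Matrix.ext fun i j => ?_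
    simp only [Matrix.of_apply, Matrix.smul_apply, RingHom.id_apply]
    split_ifs <;> simp

lemma res_apply (w : Finset (Fin n)) (X : Matrix (Fin m) (Fin n) ℂ) (i : Fin m) (j : Fin n) :
    res w X i j = if j ∈ w then X i j else 0 := rfl

lemma res_res {w w' : Finset (Fin n)} (h : w' ⊆ w) (X : Matrix (Fin m) (Fin n) ℂ) :
    res w' (res w X) = res w' X := by
  refine Matrix.ext fun i j => ?_
  simp only [res_apply]
  split_ifs with h1 h2
  · rfl
  · exact absurd (h h1) h2
  · rfl

lemma step (V : Submodule ℂ (Matrix (Fin m) (Fin n) ℂ)) (w : Finset (Fin n)) (hw : w.Nonempty) :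
    ∃ j ∈ w, (w.card - 1) * finrank ℂ (V.map (res w)) ≤
      w.card * finrank ℂ (V.map (res (w.erase j))) := by
  classical
  set X : Submodule ℂ (Matrix (Fin m) (Fin n) ℂ) := V.map (res w) with hX
  let ρ : Fin n → (X →ₗ[ℂ] Matrix (Fin m) (Fin n) ℂ) := fun j => (res (w.erase j)).domRestrict X
  have hrange : ∀ j, LinearMap.range (ρ j) = V.map (res (w.erase j)) := by
    intro j
    refine le_antisymm ?_ ?_
    · rintro _ ⟨⟨x, hx⟩, rfl⟩
      obtain ⟨v, hv, rfl⟩ := hx
      exact ⟨v, hv, (res_res (Finset.erase_subset _ _) v).symm⟩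
    · rintro _ ⟨v, hv, rfl⟩
      exact ⟨⟨res w v, v, hv, rfl⟩, res_res (Finset.erase_subset _ _) v⟩
  have hrn : ∀ j, finrank ℂ (V.map (res (w.erase j))) + finrank ℂ (LinearMap.ker (ρ j)) =
      finrank ℂ X := by
    intro j
    rw [← hrange]
    exact LinearMap.finrank_range_add_finrank_ker (ρ j)
  -- the kernels are independent
  have hsupp : ∀ x ∈ X, ∀ i, ∀ j ∉ w, x i j = 0 := by
    rintro _ ⟨v, hv, rfl⟩ i j hj
    rw [res_apply, if_neg hj]
  have hker : ∀ j (x : X), x ∈ LinearMap.ker (ρ j) → ∀ i j', j' ≠ j →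
      (x : Matrix (Fin m) (Fin n) ℂ) i j' = 0 := by
    intro j x hx i j' hj'
    by_cases hw' : j' ∈ w
    · have h1 : res (w.erase j) (x : Matrix (Fin m) (Fin n) ℂ) = 0 := hx
      have h2 := congrFun (congrFun h1 i) j'
      rw [res_apply, if_pos (Finset.mem_erase.mpr ⟨hj', hw'⟩)] at h2
      exact h2
    · exact hsupp x x.2 i j' hw'
  let sm : (∀ j : w, LinearMap.ker (ρ j)) →ₗ[ℂ] X :=
    ∑ j : w, (LinearMap.ker (ρ j)).subtype ∘ₗ LinearMap.proj j
  have hsm : ∀ v i (j0 : w), ((sm v : X) : Matrix (Fin m) (Fin n) ℂ) i j0 =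
      ((v j0 : X) : Matrix (Fin m) (Fin n) ℂ) i j0 := by
    intro v i j0
    have h1 : ((sm v : X) : Matrix (Fin m) (Fin n) ℂ) =
        ∑ j : w, ((v j : X) : Matrix (Fin m) (Fin n) ℂ) := by
      simp only [sm, LinearMap.sum_apply, Submodule.coe_sum]
      rfl
    rw [h1, Matrix.sum_apply, Finset.sum_eq_single j0]
    · intro j _ hj
      exact hker j (v j) (v j).2 i j0 fun h => hj (Subtype.ext h.symm)
    · intro h; exact absurd (Finset.mem_univ _) h
  have hinj : Function.Injective sm := by
    rw [injective_iff_map_eq_zero]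
    intro v hv
    funext j0
    apply Subtype.ext
    apply Subtype.ext
    refine Matrix.ext fun i j => ?_
    by_cases hj : j = j0
    · subst hj
      have h1 := hsm v i j0
      rw [hv] at h1
      exact h1.symm
    · exact hker j0 (v j0) (v j0).2 i j hj
  have hsum : ∑ j ∈ w, finrank ℂ (LinearMap.ker (ρ j)) ≤ finrank ℂ X := by
    have h1 := LinearMap.finrank_le_finrank_of_injective hinj
    have hfree : ∀ i : w, Module.Free ℂ (LinearMap.ker (ρ i)) := fun i =>
      Module.Free.of_basis (Module.Basis.ofVectorSpace ℂ (LinearMap.ker (ρ i)))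
    have hfin : ∀ i : w, Module.Finite ℂ (LinearMap.ker (ρ i)) := fun i => inferInstance
    rw [Module.finrank_pi_fintype] at h1
    rw [← Finset.sum_coe_sort]
    exact h1
  -- averaging
  by_contra hcon
  push Not at hcon
  have h1 : ∑ j ∈ w, w.card * finrank ℂ (V.map (res (w.erase j))) <
      ∑ _j ∈ w, (w.card - 1) * finrank ℂ X := Finset.sum_lt_sum_of_nonempty hw hcon
  rw [Finset.sum_const, smul_eq_mul, ← Finset.mul_sum] at h1
  have hc : 0 < w.card := Finset.card_pos.mpr hw
  have h2 := Nat.lt_of_mul_lt_mul_left h1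
  have h3 : ∑ j ∈ w, finrank ℂ (V.map (res (w.erase j))) +
      ∑ j ∈ w, finrank ℂ (LinearMap.ker (ρ j)) = w.card * finrank ℂ X := by
    rw [← Finset.sum_add_distrib, Finset.sum_congr rfl fun j _ => hrn j, Finset.sum_const,
      smul_eq_mul]
  have h4 : w.card * finrank ℂ X = (w.card - 1) * finrank ℂ X + finrank ℂ X := by
    obtain ⟨c, hc'⟩ : ∃ c, w.card = c + 1 := ⟨w.card - 1, by omega⟩
    rw [hc', Nat.add_sub_cancel]
    ring
  omega

/-- **Projection to few columns.** -/
theorem exists_cols (V : Submodule ℂ (Matrix (Fin m) (Fin n) ℂ)) (t : ℕ) :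
    ∀ c : ℕ, c + t = n → ∃ w : Finset (Fin n), w.card = c ∧
      c * finrank ℂ V ≤ n * finrank ℂ (V.map (res w)) := by
  induction t with
  | zero =>
    intro c hc
    refine ⟨Finset.univ, by rw [Finset.card_univ, Fintype.card_fin]; omega, ?_⟩
    have h1 : V.map (res Finset.univ) = V := by
      have : (res (Finset.univ : Finset (Fin n)) :
          Matrix (Fin m) (Fin n) ℂ →ₗ[ℂ] _) = LinearMap.id := by
        refine LinearMap.ext fun X => Matrix.ext fun i j => ?_
        simp [res_apply]
      rw [this, Submodule.map_id]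
    rw [h1]
    exact Nat.mul_le_mul_right _ (by omega)
  | succ t ih =>
    intro c hc
    obtain ⟨w, hw1, hw2⟩ := ih (c + 1) (by omega)
    obtain ⟨j, hj, h⟩ := step V w (Finset.card_pos.mp (by omega))
    refine ⟨w.erase j, by rw [Finset.card_erase_of_mem hj]; omega, ?_⟩
    rw [hw1, Nat.add_sub_cancel] at h
    have h1 : (c + 1) * (c * finrank ℂ V) ≤ (c + 1) * (n * finrank ℂ (V.map (res (w.erase j)))) := by
      calc (c + 1) * (c * finrank ℂ V) = c * ((c + 1) * finrank ℂ V) := by ring
        _ ≤ c * (n * finrank ℂ (V.map (res w))) := Nat.mul_le_mul_left _ hw2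
        _ = n * (c * finrank ℂ (V.map (res w))) := by ring
        _ ≤ n * ((c + 1) * finrank ℂ (V.map (res (w.erase j)))) := Nat.mul_le_mul_left _ h
        _ = (c + 1) * (n * finrank ℂ (V.map (res (w.erase j)))) := by ring
    exact Nat.le_of_mul_le_mul_left h1 (by omega)

/-- The same with a matrix. -/
theorem exists_cols_mul (V : Submodule ℂ (Matrix (Fin m) (Fin n) ℂ)) {c : ℕ} (hc : c ≤ n) :
    ∃ E : Matrix (Fin n) (Fin c) ℂ, c * finrank ℂ V ≤
      n * finrank ℂ (V.map (mulRightLinearMap (Fin m) ℂ E)) := by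
  classical
  obtain ⟨w, hw1, hw2⟩ := exists_cols V (n - c) c (by omega)
  let ε := w.orderEmbOfFin hw1
  have hε : ∀ j, ε j ∈ w := fun j => Finset.orderEmbOfFin_mem w hw1 j
  have hrange : ∀ j ∈ w, ∃ i, ε i = j := by
    intro j hj
    have := Finset.range_orderEmbOfFin w hw1
    have h : j ∈ Set.range (w.orderEmbOfFin hw1) := by rw [this]; exact hj
    exact h
  refine ⟨Matrix.of fun a j => if ε j = a then 1 else 0, hw2.trans (Nat.mul_le_mul_left _ ?_)⟩
  set E : Matrix (Fin n) (Fin c) ℂ := Matrix.of fun a j => if ε j = a then 1 else 0 with hE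
  have h1 : ∀ X : Matrix (Fin m) (Fin n) ℂ, X * E * E.transpose = res w X := by
    intro X
    refine Matrix.ext fun i j => ?_
    have h2 : ∀ a, (X * E) i a = X i (ε a) := by
      intro a
      simp [Matrix.mul_apply, hE]
    have h3 : ∀ b, E.transpose b j = if ε b = j then 1 else 0 := fun _ => rfl
    rw [Matrix.mul_apply, res_apply]
    simp only [h2, h3, mul_ite, mul_one, mul_zero]
    split_ifs with hj
    · obtain ⟨i', hi'⟩ := hrange j hj
      rw [Finset.sum_eq_single i']
      · rw [if_pos hi', hi']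
      · intro b _ hb
        exact if_neg fun h => hb (ε.injective (h.trans hi'.symm))
      · intro h; exact absurd (Finset.mem_univ _) h
    · refine Finset.sum_eq_zero fun b _ => if_neg fun h => hj ?_
      rw [← h]
      exact hε b
  have h2 : V.map (res w) =
      (V.map (mulRightLinearMap (Fin m) ℂ E)).map (mulRightLinearMap (Fin m) ℂ E.transpose) := by
    rw [← Submodule.map_comp]
    congr 1
    refine LinearMap.ext fun X => ?_
    exact (h1 X).symm
  rw [h2]
  exact Submodule.finrank_map_le _ _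

end

end Pool.Agent.W966.Mm
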