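import Pool.Agent.H515R2.MMR.Main
import Pool.Agent.W966.Mm.Proj

/-!
# Bilinear identities modulo a small space and the exponent
-/

set_option linter.unusedSectionVars false

namespace Pool.Agent.W966.Mm

open Module Pool.Agent.H515R2.MMR

/-- The annihilator, for the trace form, of few matrices is large. -/
lemma finrank_ann {m : ℕ} (K : Finset ℕ) (d : ℕ → Matrix (Fin m) (Fin m) ℂ) :
    ∃ W : Submodule ℂ (Matrix (Fin m) (Fin m) ℂ), m ^ 2 ≤ finrank ℂ W + K.card ∧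
      ∀ C ∈ W, ∀ t ∈ K, (d t * C).trace = 0 := by
  let Φ : Matrix (Fin m) (Fin m) ℂ →ₗ[ℂ] (K → ℂ) :=
    LinearMap.pi fun t : K => (Matrix.traceLinearMap (Fin m) ℂ ℂ) ∘ₗ
      (mulLeftLinearMap (Fin m) ℂ (d t))
  refine ⟨LinearMap.ker Φ, ?_, fun C hC t ht => ?_⟩
  · have h1 := LinearMap.finrank_range_add_finrank_ker Φ
    have h2 : finrank ℂ (LinearMap.range Φ) ≤ K.card := by
      have := Submodule.finrank_le (LinearMap.range Φ)
      rwa [Module.finrank_fintype_fun_eq_card, Fintype.card_coe] at this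
    have h3 : finrank ℂ (Matrix (Fin m) (Fin m) ℂ) = m ^ 2 := by
      rw [Module.finrank_matrix, Module.finrank_self, Fintype.card_fin, mul_one, pow_two]
    omega
  · exact congrFun (show Φ C = 0 from hC) ⟨t, ht⟩

/-- **Bilinear algorithms modulo a small space.** -/
theorem la_bound {m n : ℕ} (hmn : m ≤ n) {T : Type} [AddCommGroup T] [Module ℂ T]
    (τ : T →ₗ[ℂ] Matrix (Fin m) (Fin n) ℂ) {ι : Type} [Fintype ι]
    (φ : ι → (T →ₗ[ℂ] ℂ)) (ψ : ι → (Matrix (Fin n) (Fin m) ℂ →ₗ[ℂ] ℂ))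
    (c : ι → Matrix (Fin m) (Fin m) ℂ) {Q q : ℕ} (K : Finset ℕ) (hK : K.card ≤ Q)
    (e : ℕ → T → Matrix (Fin n) (Fin m) ℂ → ℂ) (d : ℕ → Matrix (Fin m) (Fin m) ℂ)
    (H : ∀ x Y, τ x * Y = ∑ i, (φ i x * ψ i Y) • c i + ∑ t ∈ K, e t x Y • d t)
    (hdim : n * (Q + 3 * q * m) < m * finrank ℂ (LinearMap.range τ)) :
    ((q : ℝ) + 1) ^ omega ≤ Fintype.card ι := by
  classical
  obtain ⟨E, hE⟩ := exists_cols_mul (LinearMap.range τ) hmn
  let τ' : T →ₗ[ℂ] Matrix (Fin m) (Fin m) ℂ := (mulRightLinearMap (Fin m) ℂ E) ∘ₗ τ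
  have hτ' : ∀ x, τ' x = τ x * E := fun _ => rfl
  set U : Submodule ℂ (Matrix (Fin m) (Fin m) ℂ) := LinearMap.range τ' with hU
  have hUd : Q + 3 * q * m < finrank ℂ U := by
    have e1 : U = (LinearMap.range τ).map (mulRightLinearMap (Fin m) ℂ E) :=
      LinearMap.range_comp _ _
    rw [← e1] at hE
    exact Nat.lt_of_mul_lt_mul_left (hdim.trans_le hE)
  obtain ⟨sec, hsec⟩ := LinearMap.exists_rightInverse_of_surjective τ'.rangeRestrict
    τ'.range_rangeRestrict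
  have hsec' : ∀ u : U, τ (sec u) * E = (u : Matrix (Fin m) (Fin m) ℂ) := by
    intro u
    rw [← hτ']
    have := LinearMap.congr_fun hsec u
    simp only [LinearMap.comp_apply, LinearMap.id_apply] at this
    exact congrArg Subtype.val this
  obtain ⟨W, hW1, hW2⟩ := finrank_ann K d
  have hext := fun i => LinearMap.exists_extend (φ i ∘ₗ sec)
  choose f hf using hext
  have key : HasRestrRank U ⊤ W (Fintype.card ι) := by
    let eq := (Fintype.equivFin ι).symm
    refine ⟨fun t => f (eq t), fun t => ψ (eq t) ∘ₗ mulLeftLinearMap (Fin m) ℂ E,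
      fun t => (Matrix.traceLinearMap (Fin m) ℂ ℂ) ∘ₗ mulLeftLinearMap (Fin m) ℂ (c (eq t)), ?_⟩
    intro A hA B _ C hC
    have h1 := H (sec ⟨A, hA⟩) (E * B)
    rw [← Matrix.mul_assoc, hsec' ⟨A, hA⟩] at h1
    have h2 : ∀ i, f i A = φ i (sec ⟨A, hA⟩) := fun i => by
      have := LinearMap.congr_fun (hf i) ⟨A, hA⟩
      simpa using this
    have h3 : (A * B * C).trace = ∑ i, φ i (sec ⟨A, hA⟩) * ψ i (E * B) * (c i * C).trace := by
      have h1' : A * B = ∑ i, (φ i (sec ⟨A, hA⟩) * ψ i (E * B)) • c i +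
          ∑ t ∈ K, e t (sec ⟨A, hA⟩) (E * B) • d t := h1
      rw [h1', Matrix.add_mul, Matrix.trace_add, Finset.sum_mul, Finset.sum_mul,
        Matrix.trace_sum, Matrix.trace_sum]
      have h4 : ∑ t ∈ K, ((e t (sec ⟨A, hA⟩) (E * B) • d t) * C).trace = 0 := by
        refine Finset.sum_eq_zero fun t ht => ?_
        rw [Matrix.smul_mul, Matrix.trace_smul, hW2 C hC t ht, smul_zero]
      rw [h4, add_zero]
      refine Finset.sum_congr rfl fun i _ => ?_
      rw [Matrix.smul_mul, Matrix.trace_smul, smul_eq_mul]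
    rw [h3, ← Equiv.sum_comp eq]
    refine Finset.sum_congr rfl fun t _ => ?_
    rw [← h2]
    rfl
  refine rank_bound U ⊤ W key ?_
  have h5 : finrank ℂ (⊤ : Submodule ℂ (Mat m)) = m ^ 2 := by
    rw [finrank_top]
    show finrank ℂ (Matrix (Fin m) (Fin m) ℂ) = m ^ 2
    rw [Module.finrank_matrix, Module.finrank_self, Fintype.card_fin, mul_one, pow_two]
  rw [h5]
  nlinarith

end Pool.Agent.W966.Mm
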