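import Pool.Agent.W966.Mm.Core
import Pool.Agent.W966.Mm.LA

/-!
# Bilinear form of the identity
-/

set_option linter.unusedSectionVars false

namespace Pool.Agent.W966.Mm

open Module Pool.Agent.H515R2.MMR

section

variable {κ : Type} [Fintype κ] {m n s l : ℕ} {K : Finset ℕ}

/-- The linear extension of a family. -/
noncomputable def lx {M : Type} [AddCommGroup M] [Module ℂ M] (a : κ → M) : (κ → ℂ) →ₗ[ℂ] M :=
  Fintype.linearCombination ℂ a

lemma lx_apply {M : Type} [AddCommGroup M] [Module ℂ M] (a : κ → M) (x : κ → ℂ) :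
    lx a x = ∑ i, x i • a i := rfl

lemma mul_lx {x y z : ℕ} (a : κ → Matrix (Fin x) (Fin y) ℂ) (b : κ → Matrix (Fin y) (Fin z) ℂ)
    (ξ ξ' : κ → ℂ) : lx a ξ * lx b ξ' = ∑ i, ∑ j, (ξ i * ξ' j) • (a i * b j) := by
  rw [lx_apply, lx_apply, Matrix.sum_mul]
  refine Finset.sum_congr rfl fun i _ => ?_
  rw [Matrix.mul_sum]
  refine Finset.sum_congr rfl fun j _ => ?_
  rw [Matrix.smul_mul, Matrix.mul_smul, smul_smul]

lemma mul_lx' {x y z : ℕ} (a : κ → Matrix (Fin x) (Fin y) ℂ) (b : κ → Matrix (Fin y) (Fin z) ℂ)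
    (ξ ξ' : κ → ℂ) : lx a ξ' * lx b ξ = ∑ i, ∑ j, (ξ i * ξ' j) • (a j * b i) := by
  rw [mul_lx, Finset.sum_comm]
  refine Finset.sum_congr rfl fun i _ => Finset.sum_congr rfl fun j _ => ?_
  rw [mul_comm]

lemma sum3 {M : Type} [AddCommMonoid M] (s : Finset ℕ) (F : κ → κ → ℕ → M) :
    ∑ i, ∑ j, ∑ t ∈ s, F i j t = ∑ t ∈ s, ∑ i, ∑ j, F i j t := by
  have h1 : ∀ i, ∑ j, ∑ t ∈ s, F i j t = ∑ t ∈ s, ∑ j, F i j t := fun i => Finset.sum_comm
  simp only [h1]
  exact Finset.sum_comm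

/-- **Bilinear form of the identity.** -/
theorem sys_bilin (hK : K ⊆ Finset.range l) {a b : κ → Matrix (Fin n) (Fin n) ℂ}
    (h : Sys ℂ m s l K a b) :
    ∃ (U : Matrix (Fin m) (Fin n) ℂ) (U' : Matrix (Fin n) (Fin m) ℂ)
      (V : Matrix (Fin n) (Fin m) ℂ) (V' : Matrix (Fin m) (Fin n) ℂ)
      (f : (κ → ℂ) →ₗ[ℂ] Matrix (Fin m) (Fin s) ℂ) (g : (κ → ℂ) →ₗ[ℂ] Matrix (Fin s) (Fin m) ℂ)
      (p q : ℕ → ((κ → ℂ) →ₗ[ℂ] ℂ)) (e : ℕ → (κ → ℂ) → (κ → ℂ) → ℂ)
      (c : ℕ → Matrix (Fin m) (Fin m) ℂ), U * U' = 1 ∧ V' * V = 1 ∧ ∀ ξ ξ',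
      U * (lx a ξ * lx b ξ' + lx a ξ' * lx b ξ) * V =
        ∑ t ∈ Finset.range l \ K, (p t ξ * q t ξ' + p t ξ' * q t ξ) • c t +
        ∑ t ∈ K, e t ξ ξ' • c t + (f ξ * g ξ' + f ξ' * g ξ) := by
  classical
  obtain ⟨U, U', V, V', f, g, p, q, e, c, h1, h2, h3⟩ := h
  refine ⟨U, U', V, V', lx f, lx g, fun t => lx (p t), fun t => lx (q t),
    fun t ξ ξ' => ∑ i, ∑ j, (ξ i * ξ' j) * e t i j, c, h1, h2, fun ξ ξ' => ?_⟩
  have hl : U * (lx a ξ * lx b ξ' + lx a ξ' * lx b ξ) * V =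
      ∑ i, ∑ j, (ξ i * ξ' j) • lhs a b U V i j := by
    rw [mul_lx, mul_lx', ← Finset.sum_add_distrib, Matrix.mul_sum, Matrix.sum_mul]
    refine Finset.sum_congr rfl fun i _ => ?_
    rw [← Finset.sum_add_distrib, Matrix.mul_sum, Matrix.sum_mul]
    refine Finset.sum_congr rfl fun j _ => ?_
    rw [← smul_add, Matrix.mul_smul, Matrix.smul_mul]
    rfl
  rw [hl]
  simp only [h3, rhs, smul_add, Finset.sum_add_distrib]
  have hfg : ∑ i, ∑ j, (ξ i * ξ' j) • (f i * g j) + ∑ i, ∑ j, (ξ i * ξ' j) • (f j * g i) =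
      lx f ξ * lx g ξ' + lx f ξ' * lx g ξ := by
    rw [mul_lx, mul_lx']
  rw [← hfg]
  congr 1
  have hsplit : ∀ i j, ∑ t ∈ Finset.range l,
      (if t ∈ K then e t i j else p t i * q t j + p t j * q t i) • c t =
      ∑ t ∈ Finset.range l \ K,
        (if t ∈ K then e t i j else p t i * q t j + p t j * q t i) • c t +
      ∑ t ∈ K, (if t ∈ K then e t i j else p t i * q t j + p t j * q t i) • c t := fun i j =>
    (Finset.sum_sdiff hK).symm
  simp only [hsplit, Finset.sum_add_distrib, smul_add]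
  congr 1
  · calc ∑ i, ∑ j, (ξ i * ξ' j) • ∑ t ∈ Finset.range l \ K,
          (if t ∈ K then e t i j else p t i * q t j + p t j * q t i) • c t
        = ∑ i, ∑ j, ∑ t ∈ Finset.range l \ K,
          ((ξ i * ξ' j) * (p t i * q t j + p t j * q t i)) • c t := by
          refine Finset.sum_congr rfl fun i _ => Finset.sum_congr rfl fun j _ => ?_
          rw [Finset.smul_sum]
          refine Finset.sum_congr rfl fun t ht => ?_
          rw [if_neg (Finset.mem_sdiff.mp ht).2, smul_smul]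
      _ = ∑ t ∈ Finset.range l \ K, ∑ i, ∑ j,
          ((ξ i * ξ' j) * (p t i * q t j + p t j * q t i)) • c t := by
          exact sum3 _ _
      _ = _ := by
          refine Finset.sum_congr rfl fun t _ => ?_
          simp only [← Finset.sum_smul]
          congr 1
          rw [lx_apply, lx_apply, lx_apply, lx_apply]
          simp only [smul_eq_mul, Finset.sum_mul_sum]
          rw [Finset.sum_comm (f := fun i j => ξ' i * p t i * (ξ j * q t j)),
            ← Finset.sum_add_distrib]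
          refine Finset.sum_congr rfl fun i _ => ?_
          rw [← Finset.sum_add_distrib]
          refine Finset.sum_congr rfl fun j _ => ?_
          ring
  · calc ∑ i, ∑ j, (ξ i * ξ' j) • ∑ t ∈ K,
          (if t ∈ K then e t i j else p t i * q t j + p t j * q t i) • c t
        = ∑ i, ∑ j, ∑ t ∈ K, ((ξ i * ξ' j) * e t i j) • c t := by
          refine Finset.sum_congr rfl fun i _ => Finset.sum_congr rfl fun j _ => ?_
          rw [Finset.smul_sum]
          refine Finset.sum_congr rfl fun t ht => ?_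
          rw [if_pos ht, smul_smul]
      _ = ∑ t ∈ K, ∑ i, ∑ j, ((ξ i * ξ' j) * e t i j) • c t := by
          exact sum3 _ _
      _ = _ := by
          refine Finset.sum_congr rfl fun t _ => ?_
          simp only [← Finset.sum_smul]

end

end Pool.Agent.W966.Mm
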