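import Pool.Agent.W966.Mm.Asym
import Pool.Agent.W966.Mm.Block

/-!
# Bounds with constant factors
-/

set_option linter.unusedSectionVars false

namespace Pool.Agent.W966.Mm

open Module Pool.Agent.H515R2.MMR MvPolynomial

/-- A bilinear algorithm gives a decomposition of the matrix multiplication tensor. -/
lemma hasRank_of_bilin {ι : Type} [Fintype ι] {m r : ℕ}
    (φ ψ : ι → (Matrix (Fin m) (Fin m) ℂ →ₗ[ℂ] ℂ)) (c : ι → Matrix (Fin m) (Fin m) ℂ)
    (h : ∀ x y, x * y = ∑ t, (φ t x * ψ t y) • c t) (hr : Fintype.card ι ≤ r) :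
    HasRank m r := by
  classical
  refine hasRank_of_hasRankT (I := Fin m) (T := ι ⊕ Fin (r - Fintype.card ι)) (by simp)
    (by rw [Fintype.card_sum, Fintype.card_fin]; omega) ?_
  refine ⟨Sum.elim (fun t i j => φ t (Matrix.single i j 1)) (fun _ _ _ => 0),
    Sum.elim (fun t i j => ψ t (Matrix.single i j 1)) (fun _ _ _ => 0),
    Sum.elim (fun t k l => c t l k) (fun _ _ _ => 0), ?_⟩
  intro i j j' k k' l
  rw [Fintype.sum_sum_type]
  simp only [Sum.elim_inl, Sum.elim_inr, zero_mul, Finset.sum_const_zero, add_zero]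
  have h1 := congrFun (congrFun (h (Matrix.single i j 1) (Matrix.single j' k 1)) l) k'
  rw [Matrix.sum_apply] at h1
  simp only [Matrix.smul_apply, smul_eq_mul] at h1
  rw [← h1]
  by_cases hj : j = j'
  · subst hj
    rw [Matrix.single_mul_single_same, mul_one, Matrix.single_apply]
    by_cases h2 : k = k' <;> by_cases h3 : l = i
    · subst h2; subst h3; simp
    · rw [if_neg (fun h => h3 h.2.2), if_neg (fun h => h3 h.1.symm)]
    · rw [if_neg (fun h => h2 h.2.1), if_neg (fun h => h2 h.2)]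
    · rw [if_neg (fun h => h2 h.2.1), if_neg (fun h => h2 h.2)]
  · rw [if_neg (fun h => hj h.1), Matrix.single_mul_single_of_ne _ _ _ _ hj]
    rfl

/-- The projection onto a block which avoids a space of matrices. -/
lemma block_proj {a b m : ℕ} (T : Submodule ℂ (Matrix (Fin a) (Fin b) ℂ)) (ha : m ≤ a)
    (hb : m ≤ b) (hdim : finrank ℂ T < (a - m + 1) * (b - m + 1)) :
    ∃ (P : Matrix (Fin a) (Fin m) ℂ) (R : Matrix (Fin m) (Fin b) ℂ)
      (Λ : Matrix (Fin a) (Fin b) ℂ →ₗ[ℂ] Matrix (Fin m) (Fin m) ℂ),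
      (∀ y, Λ (P * y * R) = y) ∧ ∀ x ∈ T, Λ x = 0 := by
  obtain ⟨P, R, h⟩ := block T ha hb hdim
  let J : Matrix (Fin m) (Fin m) ℂ →ₗ[ℂ] (Matrix (Fin a) (Fin b) ℂ ⧸ T) :=
    T.mkQ ∘ₗ mulRightLinearMap (Fin a) ℂ R ∘ₗ mulLeftLinearMap (Fin m) ℂ P
  have hJ : ∀ y, J y = T.mkQ (P * y * R) := fun _ => rfl
  have hker : LinearMap.ker J = ⊥ := by
    rw [LinearMap.ker_eq_bot']
    intro y hy
    refine h y ?_
    rw [hJ, Submodule.mkQ_apply, Submodule.Quotient.mk_eq_zero] at hy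
    exact hy
  obtain ⟨G, hG⟩ := LinearMap.exists_leftInverse_of_injective J hker
  refine ⟨P, R, G ∘ₗ T.mkQ, fun y => ?_, fun x hx => ?_⟩
  · exact LinearMap.congr_fun hG y
  · rw [LinearMap.comp_apply, Submodule.mkQ_apply, (Submodule.Quotient.mk_eq_zero T).mpr hx,
      map_zero]

section

variable {n : ℕ}

/-- **The bound for queries, with a constant factor.** -/
theorem sys_const {m l L Q : ℕ} {K : Finset ℕ} (hm : m ≤ n)
    (hK : K ⊆ Finset.range l) (hKQ : K.card ≤ Q) (hl : l ≤ L + K.card)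
    (h : Sys ℂ n 0 l K (unA ℂ n) (unB ℂ n)) (hdim : Q < (n - m + 1) ^ 2) :
    HasRank m (2 * L) := by
  classical
  obtain ⟨U, U', V, V', f, g, p, q', e, c, hU, hV, hid⟩ := sys_bilin hK h
  let T : Submodule ℂ (Matrix (Fin n) (Fin n) ℂ) :=
    Submodule.span ℂ ((K.image c : Finset _) : Set (Matrix (Fin n) (Fin n) ℂ))
  have hT : finrank ℂ T ≤ Q :=
    (finrank_span_finset_le_card (K.image c)).trans (Finset.card_image_le.trans hKQ)
  obtain ⟨P, R, Λ, hΛ, hΛT⟩ := block_proj T hm hm (by rw [← pow_two]; omega)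
  obtain ⟨S2, S1, -, hS⟩ := ker_fact (K := ℂ) (m := m) (s := 0) (n := n) (by omega) 0
  have hcard : Fintype.card ({t // t ∈ Finset.range l \ K} × Fin 2) ≤ 2 * L := by
    rw [Fintype.card_prod, Fintype.card_coe, Fintype.card_fin, Finset.card_sdiff_of_subset hK,
      Finset.card_range]
    omega
  let α : Matrix (Fin m) (Fin m) ℂ →ₗ[ℂ] (Ent n → ℂ) :=
    entL n ∘ₗ LinearMap.inl ℂ _ _ ∘ₗ mulLeftLinearMap (Fin n) ℂ (U' * P) ∘ₗ
      mulRightLinearMap (Fin m) ℂ S1
  let β : Matrix (Fin m) (Fin m) ℂ →ₗ[ℂ] (Ent n → ℂ) :=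
    entL n ∘ₗ LinearMap.inr ℂ _ _ ∘ₗ mulLeftLinearMap (Fin n) ℂ S2 ∘ₗ
      mulRightLinearMap (Fin m) ℂ (R * V')
  have hα : ∀ x, α x = entL n (U' * P * (x * S1), 0) := fun _ => rfl
  have hβ : ∀ y, β y = entL n (0, S2 * (y * (R * V'))) := fun _ => rfl
  refine hasRank_of_bilin
    (fun t : {t // t ∈ Finset.range l \ K} × Fin 2 =>
      if t.2 = 0 then (p t.1 ∘ₗ α) else (q' t.1 ∘ₗ α))
    (fun t => if t.2 = 0 then (q' t.1 ∘ₗ β) else (p t.1 ∘ₗ β)) (fun t => Λ (c t.1)) ?_ hcard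
  intro x y
  have h1 := hid (α x) (β y)
  have h0 : f (α x) * g (β y) + f (β y) * g (α x) = 0 := by
    refine Matrix.ext fun i j => ?_
    simp
  rw [h0, add_zero, hα, hβ, lx_unA, lx_unA, lx_unB, lx_unB] at h1
  simp only [Matrix.zero_mul, add_zero] at h1
  have h2 : U * (U' * P * (x * S1) * (S2 * (y * (R * V')))) * V = P * (x * y) * R := by
    calc U * (U' * P * (x * S1) * (S2 * (y * (R * V')))) * V
        = (U * U') * P * x * (S1 * S2) * y * R * (V' * V) := by simp only [Matrix.mul_assoc]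
      _ = P * (x * y) * R := by
        rw [hU, hV, hS]
        simp only [Matrix.mul_assoc, Matrix.one_mul, Matrix.mul_one]
  rw [h2] at h1
  have h3 := congrArg Λ h1
  rw [hΛ, map_add, map_sum, map_sum] at h3
  have h4 : ∑ t ∈ K, Λ (e t (entL n (U' * P * (x * S1), 0))
      (entL n (0, S2 * (y * (R * V')))) • c t) = 0 := by
    refine Finset.sum_eq_zero fun t ht => ?_
    refine hΛT _ (Submodule.smul_mem _ _ (Submodule.subset_span ?_))
    exact Finset.mem_coe.mpr (Finset.mem_image_of_mem c ht)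
  rw [h4, add_zero] at h3
  rw [h3, Fintype.sum_prod_type, ← Finset.sum_coe_sort]
  refine Finset.sum_congr rfl fun t _ => ?_
  rw [Fin.sum_univ_two, ← add_smul, map_smul]
  congr 1
  simp only [if_true, if_false, LinearMap.comp_apply, one_ne_zero, hα, hβ]
  ring

/-- Decompositions for multiples. -/
lemma rk_mul_le (a m : ℕ) : rk (a * m) ≤ a ^ 3 * rk m := by
  classical
  obtain ⟨a1, b1, c1, h1⟩ := hasRank_cube a
  obtain ⟨a2, b2, c2, h2⟩ := hasRank_rk m
  refine rk_le (hasRank_of_hasRankT (I := Fin a × Fin m) (T := Fin (a ^ 3) × Fin (rk m)) (by simp)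
    (by simp) ?_)
  refine ⟨fun t i j => a1 t.1 i.1 j.1 * a2 t.2 i.2 j.2, fun t i j => b1 t.1 i.1 j.1 * b2 t.2 i.2 j.2,
    fun t i j => c1 t.1 i.1 j.1 * c2 t.2 i.2 j.2, ?_⟩
  intro i j j' k k' l
  have e1 := h1 i.1 j.1 j'.1 k.1 k'.1 l.1
  have e2 := h2 i.2 j.2 j'.2 k.2 k'.2 l.2
  have e3 : (if j = j' ∧ k = k' ∧ l = i then (1 : ℂ) else 0) =
      (if j.1 = j'.1 ∧ k.1 = k'.1 ∧ l.1 = i.1 then (1 : ℂ) else 0) *
        (if j.2 = j'.2 ∧ k.2 = k'.2 ∧ l.2 = i.2 then (1 : ℂ) else 0) := by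
    have hiff : (j = j' ∧ k = k' ∧ l = i) ↔ ((j.1 = j'.1 ∧ k.1 = k'.1 ∧ l.1 = i.1) ∧
        (j.2 = j'.2 ∧ k.2 = k'.2 ∧ l.2 = i.2)) := by
      simp only [Prod.ext_iff]; tauto
    by_cases hA : j.1 = j'.1 ∧ k.1 = k'.1 ∧ l.1 = i.1
    · by_cases hB : j.2 = j'.2 ∧ k.2 = k'.2 ∧ l.2 = i.2
      · rw [if_pos (hiff.mpr ⟨hA, hB⟩), if_pos hA, if_pos hB, mul_one]
      · rw [if_neg (fun h => hB (hiff.mp h).2), if_neg hB, mul_zero]
    · rw [if_neg (fun h => hA (hiff.mp h).1), if_neg hA, zero_mul]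
  rw [e3, e1, e2, Finset.sum_mul_sum, Fintype.sum_prod_type]
  refine Finset.sum_congr rfl fun s _ => Finset.sum_congr rfl fun t _ => ?_
  ring

lemma HasRank.rk_le_of_mul {n m r a : ℕ} (h : HasRank m r) (hn : n ≤ a * m) :
    rk n ≤ a ^ 3 * r :=
  (rk_mono hn).trans ((rk_mul_le a m).trans (Nat.mul_le_mul_left _ (rk_le h)))

/-- **`Q` queries, `K` correct entries, a constant factor.** -/
theorem query_const {k : Type} [Field k] (σ : k →+* ℂ) {m L Q K : ℕ} (hm : m ≤ n)
    (hK : K ≤ n ^ 2) (t : QTree k n) (P : MvPolynomial (Ent n) k) (hP : P ≠ 0)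
    (H : ∀ A B : Matrix (Fin n) (Fin n) k, eval (entries A B) P ≠ 0 →
      t.CanOutput A B (fun C => AgreeIn K C (A * B)) 0 0 L Q)
    (hdim : Q + n ^ 2 < (n - m + 1) ^ 2 + K) : HasRank m (2 * L) := by
  obtain ⟨l, K', hK', hKQ, hl, hsys⟩ := core σ (m := n) (s := 0) (by omega) 0 0 (unA k n)
    (unB k n) (fixT 0 t) L (Q + (n ^ 2 - K)) P hP (by
      intro x hx
      have hx' : x = entries (Matrix.of fun i j => x (Sum.inl (i, j)))
          (Matrix.of fun i j => x (Sum.inr (i, j))) := by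
        funext p
        rcases p with p | p <;> rfl
      rw [hx'] at hx ⊢
      rw [fam_unA, fam_unB]
      refine QTree.CanOutput.mono (fun C hC => ?_) _ 0 0 _ _ (fixT_can t 0 0 L Q (H _ _ hx))
      rw [hC, sub_self, Matrix.rank_zero])
  rw [map_unA, map_unB] at hsys
  exact sys_const hm hK' hKQ hl hsys (by omega)

/-- The annihilator of a space of matrices for the trace form. -/
def annT {a b : ℕ} (V : Submodule ℂ (Matrix (Fin a) (Fin b) ℂ)) :
    Submodule ℂ (Matrix (Fin b) (Fin a) ℂ) where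
  carrier := {z | ∀ x ∈ V, (x * z).trace = 0}
  add_mem' := fun {z w} hz hw x hx => by
    rw [Matrix.mul_add, Matrix.trace_add, hz x hx, hw x hx, add_zero]
  zero_mem' := fun x _ => by rw [Matrix.mul_zero, Matrix.trace_zero]
  smul_mem' := fun c z hz x hx => by
    rw [Matrix.mul_smul, Matrix.trace_smul, hz x hx, smul_zero]

/-- The trace form, as a linear map to the dual space. -/
noncomputable def trD (a b : ℕ) :
    Matrix (Fin b) (Fin a) ℂ →ₗ[ℂ] Module.Dual ℂ (Matrix (Fin a) (Fin b) ℂ) where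
  toFun z := (Matrix.traceLinearMap (Fin a) ℂ ℂ) ∘ₗ mulRightLinearMap (Fin a) ℂ z
  map_add' z w := by
    refine LinearMap.ext fun x => ?_
    simp only [LinearMap.comp_apply, LinearMap.add_apply, mulRightLinearMap_apply,
      Matrix.mul_add, map_add]
  map_smul' c z := by
    refine LinearMap.ext fun x => ?_
    simp only [LinearMap.comp_apply, LinearMap.smul_apply, mulRightLinearMap_apply,
      Matrix.mul_smul, map_smul, RingHom.id_apply]

lemma trD_apply {a b : ℕ} (z : Matrix (Fin b) (Fin a) ℂ) (x : Matrix (Fin a) (Fin b) ℂ) :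
    trD a b z x = (x * z).trace := rfl

lemma trD_injective (a b : ℕ) : Function.Injective (trD a b) := by
  rw [← LinearMap.ker_eq_bot, LinearMap.ker_eq_bot']
  intro z hz
  refine Matrix.ext fun i j => ?_
  have h1 := LinearMap.congr_fun hz (Matrix.single j i 1)
  rw [trD_apply, LinearMap.zero_apply, Matrix.trace_single_mul, one_smul] at h1
  exact h1

lemma finrank_annT {a b : ℕ} (V : Submodule ℂ (Matrix (Fin a) (Fin b) ℂ)) :
    finrank ℂ (annT V) + finrank ℂ V = a * b := by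
  have hD : finrank ℂ (Matrix (Fin a) (Fin b) ℂ) = a * b := by
    rw [Module.finrank_matrix, Module.finrank_self, Fintype.card_fin, Fintype.card_fin, mul_one]
  have hbij : Function.Bijective (trD a b) := by
    refine ⟨trD_injective a b, ?_⟩
    rw [← LinearMap.injective_iff_surjective_of_finrank_eq_finrank]
    · exact trD_injective a b
    · rw [Subspace.dual_finrank_eq, hD, Module.finrank_matrix, Module.finrank_self,
        Fintype.card_fin, Fintype.card_fin, mul_one, mul_comm]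
  let e := LinearEquiv.ofBijective (trD a b) hbij
  have h1 : (annT V).map e.toLinearMap = V.dualAnnihilator := by
    refine Submodule.ext fun φ => ⟨?_, fun hφ => ?_⟩
    · rintro ⟨z, hz, rfl⟩
      rw [Submodule.mem_dualAnnihilator]
      exact fun x hx => hz x hx
    · refine ⟨e.symm φ, fun x hx => ?_, e.apply_symm_apply φ⟩
      rw [← trD_apply]
      have : trD a b (e.symm φ) = φ := e.apply_symm_apply φ
      rw [this]
      exact (Submodule.mem_dualAnnihilator φ).mp hφ x hx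
  have h2 : finrank ℂ (annT V) = finrank ℂ V.dualAnnihilator := by
    rw [← h1]
    exact (LinearEquiv.finrank_map_eq e (annT V)).symm
  have h3 := Subspace.finrank_add_finrank_dualAnnihilator_eq V
  rw [h2, ← hD]
  omega

/-- Compressions onto all matrices of a smaller size. -/
lemma exists_compress {a b m d : ℕ} (ha : m ≤ a) (hb : m ≤ b) {X : Type} [AddCommGroup X]
    [Module ℂ X] (τ : X →ₗ[ℂ] Matrix (Fin a) (Fin b) ℂ)
    (hd : d ≤ finrank ℂ (LinearMap.range τ)) (hdim : a * b < d + (b - m + 1) * (a - m + 1)) :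
    ∃ (R : Matrix (Fin m) (Fin a) ℂ) (P : Matrix (Fin b) (Fin m) ℂ)
      (sec : Matrix (Fin m) (Fin m) ℂ →ₗ[ℂ] X), ∀ x, R * τ (sec x) * P = x := by
  have h1 := finrank_annT (LinearMap.range τ)
  obtain ⟨P, R, hPR⟩ := block (annT (LinearMap.range τ)) hb ha (by omega)
  let Ψ : X →ₗ[ℂ] Matrix (Fin m) (Fin m) ℂ :=
    mulRightLinearMap (Fin m) ℂ P ∘ₗ mulLeftLinearMap (Fin b) ℂ R ∘ₗ τ
  have hΨ : ∀ x, Ψ x = R * τ x * P := fun _ => rfl
  have hsurj : LinearMap.range Ψ = ⊤ := by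
    have h2 := finrank_annT (LinearMap.range Ψ)
    have h3 : annT (LinearMap.range Ψ) = ⊥ := by
      rw [Submodule.eq_bot_iff]
      intro y hy
      refine hPR y ?_
      rintro _ ⟨x, rfl⟩
      have := hy (Ψ x) ⟨x, rfl⟩
      rw [hΨ, Matrix.mul_assoc, Matrix.mul_assoc, Matrix.trace_mul_comm] at this
      simpa only [Matrix.mul_assoc] using this
    rw [h3, finrank_bot, zero_add] at h2
    apply Submodule.eq_top_of_finrank_eq
    rw [h2, Module.finrank_matrix, Module.finrank_self, Fintype.card_fin, mul_one]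
  obtain ⟨sec, hsec⟩ := LinearMap.exists_rightInverse_of_surjective Ψ hsurj
  exact ⟨R, P, sec, fun x => LinearMap.congr_fun hsec x⟩

/-- **Bilinear algorithms for a large space of matrices.** -/
theorem la_const {M m L : ℕ} (hm : m ≤ M) (hMn : M ≤ n) {X : Type} [AddCommGroup X] [Module ℂ X]
    (τ : X →ₗ[ℂ] Matrix (Fin M) (Fin n) ℂ) {ι : Type} [Fintype ι]
    (φ : ι → (X →ₗ[ℂ] ℂ)) (ψ : ι → (Matrix (Fin n) (Fin M) ℂ →ₗ[ℂ] ℂ))
    (c : ι → Matrix (Fin M) (Fin M) ℂ)
    (H : ∀ x Y, τ x * Y = ∑ i, (φ i x * ψ i Y) • c i) (hι : Fintype.card ι ≤ L)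
    (hd : M ^ 2 ≤ finrank ℂ (LinearMap.range τ))
    (hdim : M * n < M ^ 2 + (n - m + 1) * (M - m + 1)) : HasRank m L := by
  obtain ⟨R, P, sec, hsec⟩ := exists_compress hm (hm.trans hMn) τ hd hdim
  obtain ⟨S2, S1, -, hS⟩ := ker_fact (K := ℂ) (m := m) (s := 0) (n := M) (by omega) 0
  refine hasRank_of_bilin (fun t => φ t ∘ₗ sec)
    (fun t => ψ t ∘ₗ mulRightLinearMap (Fin n) ℂ S1 ∘ₗ mulLeftLinearMap (Fin m) ℂ P)
    (fun t => R * c t * S2) (fun x y => ?_) hι
  have h1 := H (sec x) (P * y * S1)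
  have h2 : R * (τ (sec x) * (P * y * S1)) * S2 = x * y := by
    calc R * (τ (sec x) * (P * y * S1)) * S2
        = (R * τ (sec x) * P) * y * (S1 * S2) := by simp only [Matrix.mul_assoc]
      _ = x * y := by rw [hsec, hS, Matrix.mul_one]
  rw [h1, Matrix.mul_sum, Matrix.sum_mul] at h2
  rw [← h2]
  refine Finset.sum_congr rfl fun t _ => ?_
  rw [Matrix.mul_smul, Matrix.smul_mul]
  rfl

/-- **Errors of rank `s`, a constant factor.** -/
theorem sys_rank_const {M m s l L : ℕ} {K : Finset ℕ} (hms : M + s = n) (hmM : m ≤ M)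
    (hK : K ⊆ Finset.range l) (hK0 : K.card = 0) (hl : l ≤ L + K.card)
    (h : Sys ℂ M s l K (unA ℂ n) (unB ℂ n))
    (hdim : M * n < M ^ 2 + (n - m + 1) * (M - m + 1)) : HasRank m (2 * L) := by
  classical
  obtain ⟨U, U', V, V', f, g, p, q', e, c, hU, hV, hid⟩ := sys_bilin hK h
  -- the reduced space of pairs
  let L0 : (Matrix (Fin M) (Fin n) ℂ × Matrix (Fin n) (Fin M) ℂ) →ₗ[ℂ] (Ent n → ℂ) :=
    entL n ∘ₗ LinearMap.prodMap (mulLeftLinearMap (Fin n) ℂ U') (mulRightLinearMap (Fin n) ℂ V')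
  have hL0 : ∀ X Y, L0 (X, Y) = entL n (U' * X, Y * V') := fun _ _ => rfl
  have hid' : ∀ X Y X' Y', X * Y' + X' * Y =
      ∑ t ∈ Finset.range l \ K, (p t (L0 (X, Y)) * q' t (L0 (X', Y')) +
        p t (L0 (X', Y')) * q' t (L0 (X, Y))) • c t +
      (f (L0 (X, Y)) * g (L0 (X', Y')) + f (L0 (X', Y')) * g (L0 (X, Y))) := by
    intro X Y X' Y'
    have hh := hid (L0 (X, Y)) (L0 (X', Y'))
    have hKe : K = ∅ := Finset.card_eq_zero.mp hK0
    have hz : ∑ t ∈ K, e t (L0 (X, Y)) (L0 (X', Y')) • c t = 0 := by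
      rw [hKe, Finset.sum_empty]
    rw [hz, add_zero] at hh
    rw [← hh]
    simp only [hL0, lx_unA, lx_unB]
    have e1 : ∀ (X : Matrix (Fin M) (Fin n) ℂ) (Y : Matrix (Fin n) (Fin M) ℂ),
        U * (U' * X * (Y * V')) * V = X * Y := by
      intro X Y
      calc U * (U' * X * (Y * V')) * V = (U * U') * X * Y * (V' * V) := by
            simp only [Matrix.mul_assoc]
        _ = X * Y := by rw [hU, hV, Matrix.one_mul, Matrix.mul_one]
    rw [Matrix.mul_add, Matrix.add_mul, e1, e1]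
  -- the subspace on which `f` and `g` vanish
  let Φ := (LinearMap.prod f g) ∘ₗ L0
  set T := LinearMap.ker Φ with hT
  have hTf : ∀ x : T, f (L0 x) = 0 := fun x => congrArg Prod.fst (show Φ x = 0 from x.2)
  have hTg : ∀ x : T, g (L0 x) = 0 := fun x => congrArg Prod.snd (show Φ x = 0 from x.2)
  have hTd : 2 * M ^ 2 ≤ finrank ℂ T := by
    have h1 := LinearMap.finrank_range_add_finrank_ker Φ
    have h2 : finrank ℂ (LinearMap.range Φ) ≤ M * s + s * M := by
      have := Submodule.finrank_le (LinearMap.range Φ)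
      rwa [Module.finrank_prod, Module.finrank_matrix, Module.finrank_matrix, Module.finrank_self,
        Fintype.card_fin, Fintype.card_fin, mul_one, mul_one] at this
    rw [Module.finrank_prod, Module.finrank_matrix, Module.finrank_matrix, Module.finrank_self,
      Fintype.card_fin, Fintype.card_fin, mul_one, mul_one] at h1
    subst hms
    nlinarith
  let P1 : T →ₗ[ℂ] Matrix (Fin M) (Fin n) ℂ := LinearMap.fst ℂ _ _ ∘ₗ T.subtype
  let P2 : T →ₗ[ℂ] Matrix (Fin n) (Fin M) ℂ := LinearMap.snd ℂ _ _ ∘ₗ T.subtype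
  have hsum : finrank ℂ T ≤ finrank ℂ (LinearMap.range P1) + finrank ℂ (LinearMap.range P2) := by
    let J : T →ₗ[ℂ] (LinearMap.range P1 × LinearMap.range P2) :=
      LinearMap.prod P1.rangeRestrict P2.rangeRestrict
    have hJ : Function.Injective J := by
      intro x y hxy
      have h1 := congrArg (fun z => ((z.1 : Matrix (Fin M) (Fin n) ℂ))) hxy
      have h2 := congrArg (fun z => ((z.2 : Matrix (Fin n) (Fin M) ℂ))) hxy
      exact Subtype.ext (Prod.ext h1 h2)
    have := LinearMap.finrank_le_finrank_of_injective hJ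
    rwa [Module.finrank_prod] at this
  have hMn : M ≤ n := by omega
  have hcard : Fintype.card ({t // t ∈ Finset.range l \ K} × Fin 2) ≤ 2 * L := by
    rw [Fintype.card_prod, Fintype.card_coe, Fintype.card_fin, Finset.card_sdiff_of_subset hK,
      Finset.card_range]
    omega
  have hcase : M ^ 2 ≤ finrank ℂ (LinearMap.range P1) ∨
      M ^ 2 ≤ finrank ℂ (LinearMap.range P2) := by omega
  rcases hcase with hc | hc
  · refine la_const hmM hMn P1
      (fun t => if t.2 = 0 then (p t.1 ∘ₗ L0 ∘ₗ T.subtype) else (q' t.1 ∘ₗ L0 ∘ₗ T.subtype))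
      (fun t => if t.2 = 0 then (q' t.1 ∘ₗ L0 ∘ₗ LinearMap.inr ℂ _ _) else
        (p t.1 ∘ₗ L0 ∘ₗ LinearMap.inr ℂ _ _)) (fun t => c t.1) ?_ hcard hc hdim
    intro x Y
    have h1 := hid' (x : Matrix (Fin M) (Fin n) ℂ × Matrix (Fin n) (Fin M) ℂ).1
      (x : Matrix (Fin M) (Fin n) ℂ × Matrix (Fin n) (Fin M) ℂ).2 0 Y
    rw [Matrix.zero_mul, add_zero, Prod.mk.eta, hTf, hTg, Matrix.zero_mul, Matrix.mul_zero,
      add_zero, add_zero] at h1
    have h2 : P1 x = (x : Matrix (Fin M) (Fin n) ℂ × Matrix (Fin n) (Fin M) ℂ).1 := rfl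
    rw [h2, h1]
    rw [Fintype.sum_prod_type, ← Finset.sum_coe_sort]
    refine Finset.sum_congr rfl fun t _ => ?_
    rw [Fin.sum_univ_two, ← add_smul]
    congr 1
    simp only [if_true, if_false, LinearMap.comp_apply, one_ne_zero]
    have h3 : (LinearMap.inr ℂ (Matrix (Fin M) (Fin n) ℂ) (Matrix (Fin n) (Fin M) ℂ)) Y =
      (0, Y) := rfl
    rw [h3]
    have h4 : T.subtype x = (x : Matrix (Fin M) (Fin n) ℂ × Matrix (Fin n) (Fin M) ℂ) := rfl
    rw [h4]
    ring
  · let τ : T →ₗ[ℂ] Matrix (Fin M) (Fin n) ℂ :=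
      (Matrix.transposeLinearEquiv (Fin n) (Fin M) ℂ ℂ).toLinearMap ∘ₗ P2
    have hτ : ∀ x, τ x = (P2 x).transpose := fun _ => rfl
    have hτd : finrank ℂ (LinearMap.range τ) = finrank ℂ (LinearMap.range P2) := by
      have h1 : LinearMap.range τ =
          (LinearMap.range P2).map
            (Matrix.transposeLinearEquiv (Fin n) (Fin M) ℂ ℂ).toLinearMap :=
        LinearMap.range_comp _ _
      rw [h1]
      exact LinearEquiv.finrank_map_eq _ _
    let tr : Matrix (Fin n) (Fin M) ℂ →ₗ[ℂ] Matrix (Fin M) (Fin n) ℂ :=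
      (Matrix.transposeLinearEquiv (Fin n) (Fin M) ℂ ℂ).toLinearMap
    have htr : ∀ Y, tr Y = Y.transpose := fun _ => rfl
    refine la_const hmM hMn τ
      (fun t => if t.2 = 0 then (p t.1 ∘ₗ L0 ∘ₗ T.subtype) else (q' t.1 ∘ₗ L0 ∘ₗ T.subtype))
      (fun t => if t.2 = 0 then (q' t.1 ∘ₗ L0 ∘ₗ LinearMap.inl ℂ _ _ ∘ₗ tr) else
        (p t.1 ∘ₗ L0 ∘ₗ LinearMap.inl ℂ _ _ ∘ₗ tr)) (fun t => (c t.1).transpose) ?_ hcard
      (by rw [hτd]; exact hc) hdim
    intro x Y
    have h1 := hid' (x : Matrix (Fin M) (Fin n) ℂ × Matrix (Fin n) (Fin M) ℂ).1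
      (x : Matrix (Fin M) (Fin n) ℂ × Matrix (Fin n) (Fin M) ℂ).2 Y.transpose 0
    rw [Matrix.mul_zero, zero_add, Prod.mk.eta, hTf, hTg, Matrix.zero_mul, Matrix.mul_zero,
      add_zero, add_zero] at h1
    have h2 : P2 x = (x : Matrix (Fin M) (Fin n) ℂ × Matrix (Fin n) (Fin M) ℂ).2 := rfl
    have h5 : τ x * Y = (Y.transpose *
        (x : Matrix (Fin M) (Fin n) ℂ × Matrix (Fin n) (Fin M) ℂ).2).transpose := by
      rw [hτ, h2, Matrix.transpose_mul, Matrix.transpose_transpose]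
    rw [h5, h1, Matrix.transpose_sum]
    rw [Fintype.sum_prod_type, ← Finset.sum_coe_sort]
    refine Finset.sum_congr rfl fun t _ => ?_
    rw [Fin.sum_univ_two, ← add_smul, Matrix.transpose_smul]
    congr 1
    simp only [if_true, if_false, LinearMap.comp_apply, one_ne_zero]
    have h3 : (LinearMap.inl ℂ (Matrix (Fin M) (Fin n) ℂ) (Matrix (Fin n) (Fin M) ℂ)) (tr Y) =
      (Y.transpose, 0) := rfl
    rw [h3]
    have h4 : T.subtype x = (x : Matrix (Fin M) (Fin n) ℂ × Matrix (Fin n) (Fin M) ℂ) := rfl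
    rw [h4]
    ring

/-- **Products up to errors of rank `s`, with a constant factor.** -/
theorem rank_const {k : Type} [Field k] (σ : k →+* ℂ) {s m L : ℕ} (hs : s ≤ n) (hm : m ≤ n - s)
    (t : QTree k n) (P : MvPolynomial (Ent n) k) (hP : P ≠ 0)
    (H : ∀ A B : Matrix (Fin n) (Fin n) k, eval (entries A B) P ≠ 0 →
      t.CanOutput A B (fun C => (A * B - C).rank ≤ s) 0 0 L 0)
    (hdim : (n - s) * s < (n - m + 1) * (n - s - m + 1)) : HasRank m (2 * L) := by
  obtain ⟨l, K, hK, hKQ, hl, hsys⟩ := core σ (m := n - s) (s := s) (by omega) 0 0 (unA k n)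
    (unB k n) t L 0 P hP (by
      intro x hx
      have hx' : x = entries (Matrix.of fun i j => x (Sum.inl (i, j)))
          (Matrix.of fun i j => x (Sum.inr (i, j))) := by
        funext p
        rcases p with p | p <;> rfl
      rw [hx'] at hx ⊢
      rw [fam_unA, fam_unB]
      exact H _ _ hx)
  rw [map_unA, map_unB] at hsys
  refine sys_rank_const (by omega) hm hK (by omega) hl hsys ?_
  obtain ⟨r, rfl⟩ : ∃ r, n = r + s := ⟨n - s, by omega⟩
  rw [Nat.add_sub_cancel] at hdim ⊢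
  nlinarith

end

end Pool.Agent.W966.Mm
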