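import Mathlib

/-!
# Some linear algebra: rank factorisations and kernels
-/

namespace Pool.Agent.W966.Mm

open Module

section

variable {K : Type*} [Field K]

lemma exists_retract {A B : Type*} [AddCommGroup A] [Module K A] [AddCommGroup B] [Module K B]
    [FiniteDimensional K A] [FiniteDimensional K B] (h : finrank K A ≤ finrank K B) :
    ∃ (ι : A →ₗ[K] B) (π : B →ₗ[K] A), π ∘ₗ ι = LinearMap.id := by
  have hs : Function.Surjective (LinearMap.funLeft K K (Fin.castLE h)) :=
    LinearMap.funLeft_surjective_of_injective K K _ (Fin.castLE_injective h)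
  obtain ⟨ι₀, hι⟩ := LinearMap.exists_rightInverse_of_surjective _
    (LinearMap.range_eq_top.mpr hs)
  let eA := (finBasis K A).equivFun
  let eB := (finBasis K B).equivFun
  refine ⟨eB.symm.toLinearMap ∘ₗ ι₀ ∘ₗ eA.toLinearMap,
    eA.symm.toLinearMap ∘ₗ LinearMap.funLeft K K (Fin.castLE h) ∘ₗ eB.toLinearMap, ?_⟩
  refine LinearMap.ext fun x => ?_
  have h1 := LinearMap.congr_fun hι (eA x)
  simp only [LinearMap.comp_apply, LinearMap.id_apply] at h1
  simp only [LinearMap.comp_apply, LinearEquiv.coe_coe, LinearEquiv.apply_symm_apply, h1,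
    LinearEquiv.symm_apply_apply, LinearMap.id_apply]

/-- Rank factorisation. -/
lemma rank_fact {n s : ℕ} (M : Matrix (Fin n) (Fin n) K) (h : M.rank ≤ s) :
    ∃ (P : Matrix (Fin n) (Fin s) K) (R : Matrix (Fin s) (Fin n) K), M = P * R := by
  obtain ⟨ι, π, h1⟩ := exists_retract (K := K) (A := LinearMap.range M.mulVecLin)
    (B := Fin s → K) (by rw [finrank_fin_fun]; exact h)
  refine ⟨LinearMap.toMatrix' ((LinearMap.range M.mulVecLin).subtype ∘ₗ π),
    LinearMap.toMatrix' (ι ∘ₗ M.mulVecLin.rangeRestrict), ?_⟩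
  rw [← LinearMap.toMatrix'_comp]
  have h2 : ((LinearMap.range M.mulVecLin).subtype ∘ₗ π) ∘ₗ ι ∘ₗ M.mulVecLin.rangeRestrict =
      M.mulVecLin := by
    refine LinearMap.ext fun x => ?_
    have h3 := LinearMap.congr_fun h1 (M.mulVecLin.rangeRestrict x)
    simp only [LinearMap.comp_apply, LinearMap.id_apply] at h3
    simp only [LinearMap.comp_apply, h3]
    rfl
  rw [h2]
  exact (LinearMap.toMatrix'_toLin' M).symm

/-- Full rank matrices in the kernel. -/
lemma ker_fact {n s m : ℕ} (hm : m + s ≤ n) (P : Matrix (Fin s) (Fin n) K) :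
    ∃ (N : Matrix (Fin n) (Fin m) K) (N' : Matrix (Fin m) (Fin n) K),
      P * N = 0 ∧ N' * N = 1 := by
  have hk : m ≤ finrank K (LinearMap.ker P.mulVecLin) := by
    have h1 := LinearMap.finrank_range_add_finrank_ker P.mulVecLin
    have h2 : finrank K (LinearMap.range P.mulVecLin) ≤ s := by
      have := Submodule.finrank_le (LinearMap.range P.mulVecLin)
      rwa [finrank_fin_fun] at this
    rw [finrank_fin_fun] at h1
    omega
  obtain ⟨ι, π, h1⟩ := exists_retract (K := K) (A := Fin m → K)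
    (B := LinearMap.ker P.mulVecLin) (by rw [finrank_fin_fun]; exact hk)
  obtain ⟨π', hπ'⟩ := LinearMap.exists_leftInverse_of_injective
    (LinearMap.ker P.mulVecLin).subtype (Submodule.ker_subtype _)
  refine ⟨LinearMap.toMatrix' ((LinearMap.ker P.mulVecLin).subtype ∘ₗ ι),
    LinearMap.toMatrix' (π ∘ₗ π'), ?_, ?_⟩
  · have e : P = LinearMap.toMatrix' P.mulVecLin := (LinearMap.toMatrix'_toLin' P).symm
    have h3 : P.mulVecLin ∘ₗ (LinearMap.ker P.mulVecLin).subtype ∘ₗ ι = 0 := by
      refine LinearMap.ext fun x => ?_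
      exact (ι x).2
    calc P * LinearMap.toMatrix' ((LinearMap.ker P.mulVecLin).subtype ∘ₗ ι)
        = LinearMap.toMatrix' P.mulVecLin *
          LinearMap.toMatrix' ((LinearMap.ker P.mulVecLin).subtype ∘ₗ ι) := by rw [← e]
      _ = 0 := by rw [← LinearMap.toMatrix'_comp, h3, map_zero]
  · rw [← LinearMap.toMatrix'_comp]
    have h2 : (π ∘ₗ π') ∘ₗ (LinearMap.ker P.mulVecLin).subtype ∘ₗ ι = LinearMap.id := by
      refine LinearMap.ext fun x => ?_
      have h3 := LinearMap.congr_fun hπ' (ι x)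
      have h4 := LinearMap.congr_fun h1 x
      simp only [LinearMap.comp_apply, LinearMap.id_apply] at h3 h4
      simp only [LinearMap.comp_apply, h3, h4, LinearMap.id_apply]
    rw [h2, LinearMap.toMatrix'_id]

end

end Pool.Agent.W966.Mm
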