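import Pool.Agent.W966.Mm.Hess
import Pool.Agent.W966.Mm.Lin

/-!
# From algorithms to an identity of complex matrices
-/

set_option linter.unusedSectionVars false

namespace Pool.Agent.W966.Mm

open Filter Pool.Agent.H53R3 MvPolynomial

section

variable {R R' : Type} [CommRing R] [CommRing R'] {κ : Type} {m n s : ℕ}

/-- The left side of the identity. -/
def lhs (a b : κ → Matrix (Fin n) (Fin n) R) (U : Matrix (Fin m) (Fin n) R)
    (V : Matrix (Fin n) (Fin m) R) (i j : κ) : Matrix (Fin m) (Fin m) R :=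
  U * (a i * b j + a j * b i) * V

open Classical in
/-- The right side of the identity. -/
noncomputable def rhs (l : ℕ) (K : Finset ℕ) (f : κ → Matrix (Fin m) (Fin s) R)
    (g : κ → Matrix (Fin s) (Fin m) R) (p q : ℕ → κ → R) (e : ℕ → κ → κ → R)
    (c : ℕ → Matrix (Fin m) (Fin m) R) (i j : κ) : Matrix (Fin m) (Fin m) R :=
  ∑ t ∈ Finset.range l, (if t ∈ K then e t i j else p t i * q t j + p t j * q t i) • c t +
    (f i * g j + f j * g i)

/-- The identity. -/
def Sys (R : Type) [CommRing R] (m s l : ℕ) (K : Finset ℕ)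
    (a b : κ → Matrix (Fin n) (Fin n) R) : Prop :=
  ∃ (U : Matrix (Fin m) (Fin n) R) (U' : Matrix (Fin n) (Fin m) R)
    (V : Matrix (Fin n) (Fin m) R) (V' : Matrix (Fin m) (Fin n) R)
    (f : κ → Matrix (Fin m) (Fin s) R) (g : κ → Matrix (Fin s) (Fin m) R)
    (p q : ℕ → κ → R) (e : ℕ → κ → κ → R) (c : ℕ → Matrix (Fin m) (Fin m) R),
    U * U' = 1 ∧ V' * V = 1 ∧ ∀ i j, lhs a b U V i j = rhs l K f g p q e c i j

lemma lhs_map (φ : R →+* R') (a b : κ → Matrix (Fin n) (Fin n) R) (U : Matrix (Fin m) (Fin n) R)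
    (V : Matrix (Fin n) (Fin m) R) (i j : κ) :
    (lhs a b U V i j).map φ =
      lhs (fun i => (a i).map φ) (fun i => (b i).map φ) (U.map φ) (V.map φ) i j := by
  simp only [lhs, Matrix.map_mul, Matrix.map_add _ (map_add φ)]

lemma rhs_map (φ : R →+* R') (l : ℕ) (K : Finset ℕ) (f : κ → Matrix (Fin m) (Fin s) R)
    (g : κ → Matrix (Fin s) (Fin m) R) (p q : ℕ → κ → R) (e : ℕ → κ → κ → R)
    (c : ℕ → Matrix (Fin m) (Fin m) R) (i j : κ) :
    (rhs l K f g p q e c i j).map φ =
      rhs l K (fun i => (f i).map φ) (fun i => (g i).map φ) (fun t i => φ (p t i))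
        (fun t i => φ (q t i)) (fun t i j => φ (e t i j)) (fun t => (c t).map φ) i j := by
  classical
  refine Matrix.ext fun x y => ?_
  simp only [rhs, Matrix.map_apply, Matrix.add_apply, Matrix.sum_apply, Matrix.smul_apply,
    smul_eq_mul, Matrix.mul_apply, map_add, map_sum, map_mul]
  congr 1
  refine Finset.sum_congr rfl fun t _ => ?_
  by_cases ht : t ∈ K <;> simp [ht]

end

section

variable {κ : Type} [Fintype κ] {m n s l : ℕ} {K : Finset ℕ} {I : Type} {𝒰 : Ultrafilter I}

/-- **Transfer from the ultrapower.** -/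
theorem sys_transfer {a b : κ → Matrix (Fin n) (Fin n) ℂ}
    (h : Sys (Fu 𝒰) m s l K (fun i => (a i).map (algebraMap ℂ (Fu 𝒰)))
      (fun i => (b i).map (algebraMap ℂ (Fu 𝒰)))) : Sys ℂ m s l K a b := by
  classical
  obtain ⟨U, U', V, V', f, g, p, q, e, c, h1, h2, h3⟩ := h
  let r : Fu 𝒰 → I → ℂ := Function.surjInv co_surj
  have hr : ∀ x, co 𝒰 (r x) = x := Function.surjInv_eq co_surj
  have hm : ∀ {x y : ℕ} (M : Matrix (Fin x) (Fin y) (Fu 𝒰)), (M.map r).map (co 𝒰) = M :=
    fun M => Matrix.ext fun i j => hr _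
  let cst : ℂ →+* (I → ℂ) := Pi.constRingHom I ℂ
  have hcst : ∀ (M : Matrix (Fin n) (Fin n) ℂ),
      (M.map cst).map (co 𝒰) = M.map (algebraMap ℂ (Fu 𝒰)) := fun M => rfl
  have e1 : ∀ᶠ S in (𝒰 : Filter I), (U.map r * U'.map r).map (Pi.evalRingHom (fun _ => ℂ) S) =
      (1 : Matrix (Fin m) (Fin m) (I → ℂ)).map (Pi.evalRingHom (fun _ => ℂ) S) := by
    rw [← map_co_eq, Matrix.map_mul, hm, hm, h1, Matrix.map_one _ (map_zero _) (map_one _)]
  have e2 : ∀ᶠ S in (𝒰 : Filter I), (V'.map r * V.map r).map (Pi.evalRingHom (fun _ => ℂ) S) =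
      (1 : Matrix (Fin m) (Fin m) (I → ℂ)).map (Pi.evalRingHom (fun _ => ℂ) S) := by
    rw [← map_co_eq, Matrix.map_mul, hm, hm, h2, Matrix.map_one _ (map_zero _) (map_one _)]
  have e3 : ∀ᶠ S in (𝒰 : Filter I), ∀ i j,
      (lhs (fun i => (a i).map cst) (fun i => (b i).map cst) (U.map r) (V.map r) i j).map
        (Pi.evalRingHom (fun _ => ℂ) S) =
      (rhs l K (fun i => (f i).map r) (fun i => (g i).map r) (fun t i => r (p t i))
        (fun t i => r (q t i)) (fun t i j => r (e t i j)) (fun t => (c t).map r) i j).map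
        (Pi.evalRingHom (fun _ => ℂ) S) := by
    rw [Filter.eventually_all]
    intro i
    rw [Filter.eventually_all]
    intro j
    rw [← map_co_eq, lhs_map, rhs_map]
    simp only [hm, hcst, hr]
    exact h3 i j
  obtain ⟨S, ⟨hS1, hS2⟩, hS3⟩ := ((e1.and e2).and e3).exists
  set ev := Pi.evalRingHom (fun _ : I => ℂ) S with hev
  have hca : ∀ (M : Matrix (Fin n) (Fin n) ℂ), (M.map cst).map ev = M := fun M => rfl
  refine ⟨(U.map r).map ev, (U'.map r).map ev, (V.map r).map ev, (V'.map r).map ev,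
    fun i => ((f i).map r).map ev, fun i => ((g i).map r).map ev, fun t i => ev (r (p t i)),
    fun t i => ev (r (q t i)), fun t i j => ev (r (e t i j)), fun t => ((c t).map r).map ev,
    ?_, ?_, ?_⟩
  · rw [← Matrix.map_mul, hS1, Matrix.map_one _ (map_zero _) (map_one _)]
  · rw [← Matrix.map_mul, hS2, Matrix.map_one _ (map_zero _) (map_one _)]
  · intro i j
    have := hS3 i j
    rw [lhs_map, rhs_map] at this
    exact this

end

section

variable {F : Type} [Field F]

lemma map_der_mul {D : F → F} (hD : IsDer D) {x y z : ℕ} (M : Matrix (Fin x) (Fin y) F)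
    (N : Matrix (Fin y) (Fin z) F) : (M * N).map D = M.map D * N + M * N.map D := by
  refine Matrix.ext fun i j => ?_
  simp only [Matrix.map_apply, Matrix.mul_apply, Matrix.add_apply, hD.sum, hD.mul,
    Finset.sum_add_distrib]

lemma map_der_add {D : F → F} (hD : IsDer D) {x y : ℕ} (M N : Matrix (Fin x) (Fin y) F) :
    (M + N).map D = M.map D + N.map D := by
  refine Matrix.ext fun i j => ?_
  simp only [Matrix.map_apply, Matrix.add_apply, hD.add]

end

/-- The members of an affine family of matrices. -/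
def fam {k : Type} [Field k] {κ : Type} [Fintype κ] {n : ℕ} (A₀ : Matrix (Fin n) (Fin n) k)
    (a : κ → Matrix (Fin n) (Fin n) k) (x : κ → k) : Matrix (Fin n) (Fin n) k :=
  A₀ + ∑ i, x i • a i

section

variable {κ : Type} [Fintype κ] {m n s : ℕ} {k : Type} [Field k] (σ : k →+* ℂ)

/-- **From algorithms to an identity.** -/
theorem core (hm : m + s ≤ n) (A₀ B₀ : Matrix (Fin n) (Fin n) k)
    (a b : κ → Matrix (Fin n) (Fin n) k) (t : QTree k n) (L Q : ℕ) (P : MvPolynomial κ k)
    (hP : P ≠ 0) (H : ∀ x : κ → k, eval x P ≠ 0 → t.CanOutput (fam A₀ a x) (fam B₀ b x)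
      (fun C => (fam A₀ a x * fam B₀ b x - C).rank ≤ s) 0 0 L Q) :
    ∃ (l : ℕ) (K : Finset ℕ), K ⊆ Finset.range l ∧ K.card ≤ Q ∧ l ≤ L + K.card ∧
      Sys ℂ m s l K (fun i => (a i).map σ) (fun i => (b i).map σ) := by
  classical
  obtain ⟨I, 𝒰, x, hx1, hx2⟩ := exists_generic σ P hP
  obtain ⟨l, g, K, M, -, -, hK, hKc, hl, hstep, hout⟩ := path 𝒰 (fun S => fam A₀ a (x S))
    (fun S => fam B₀ b (x S)) (fun S C => (fam A₀ a (x S) * fam B₀ b (x S) - C).rank ≤ s) t 0
    (fun _ => 0) L Q (Eventually.of_forall fun S => H (x S) (hx1 S))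
  refine ⟨l, K, ?_, hKc, by omega, sys_transfer (𝒰 := 𝒰) ?_⟩
  · rw [Finset.range_eq_Ico]; exact hK
  -- the generic objects
  set z : κ → Fu 𝒰 := fun i => co 𝒰 (fun S => σ (x S i)) with hz
  have hDex := exists_der hx2
  choose D hD hDc hDz using hDex
  set X : Matrix (Fin n) (Fin n) (Fu 𝒰) := Matrix.of fun i j => co 𝒰 fun S => σ (fam A₀ a (x S) i j)
    with hX
  set Y : Matrix (Fin n) (Fin n) (Fu 𝒰) := Matrix.of fun i j => co 𝒰 fun S => σ (fam B₀ b (x S) i j)
    with hY
  set G : ℕ → Fu 𝒰 := fun s => co 𝒰 fun S => σ (g S s) with hG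
  -- entries of the generic matrices
  have hent : ∀ (A₀ : Matrix (Fin n) (Fin n) k) (a : κ → Matrix (Fin n) (Fin n) k) i j,
      co 𝒰 (fun S => σ (fam A₀ a (x S) i j)) = algebraMap ℂ (Fu 𝒰) (σ (A₀ i j)) +
        ∑ r, algebraMap ℂ (Fu 𝒰) (σ (a r i j)) * z r := by
    intro A₀ a i j
    have h1 : (fun S => σ (fam A₀ a (x S) i j)) = (fun _ => σ (A₀ i j)) +
        ∑ r, (fun _ => σ (a r i j)) * (fun S => σ (x S r)) := by
      funext S
      simp only [fam, Matrix.add_apply, Matrix.sum_apply, Matrix.smul_apply, smul_eq_mul, map_add,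
        map_sum, map_mul, Pi.add_apply, Finset.sum_apply, Pi.mul_apply]
      congr 1
      exact Finset.sum_congr rfl fun r _ => mul_comm _ _
    rw [h1, map_add, map_sum]
    simp only [map_mul, algebraMap_Fu, hz]
  have hder : ∀ (A₀ : Matrix (Fin n) (Fin n) k) (a : κ → Matrix (Fin n) (Fin n) k) i j r,
      D r (co 𝒰 (fun S => σ (fam A₀ a (x S) i j))) = algebraMap ℂ (Fu 𝒰) (σ (a r i j)) := by
    intro A₀ a i j r
    rw [hent, (hD r).add, hDc, zero_add, (hD r).sum]
    simp only [(hD r).mul, hDc, zero_mul, zero_add, hDz]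
    rw [Finset.sum_eq_single r]
    · simp
    · intro r' _ hr'; simp [hr']
    · intro h; exact absurd (Finset.mem_univ r) h
  have hXD : ∀ r, X.map (D r) = ((a r).map σ).map (algebraMap ℂ (Fu 𝒰)) := fun r =>
    Matrix.ext fun i j => hder A₀ a i j r
  have hYD : ∀ r, Y.map (D r) = ((b r).map σ).map (algebraMap ℂ (Fu 𝒰)) := fun r =>
    Matrix.ext fun i j => hder B₀ b i j r
  have hcD : ∀ r (N : Matrix (Fin n) (Fin n) ℂ), (N.map (algebraMap ℂ (Fu 𝒰))).map (D r) = 0 :=
    fun r N => Matrix.ext fun i j => hDc r _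
  have hX2 : ∀ i j, Hs' D (X i j) = 0 := by
    intro i j
    funext r r'
    have : D r' (X i j) = algebraMap ℂ (Fu 𝒰) (σ (a r' i j)) := hder A₀ a i j r'
    simp only [Hs', this, hDc, Pi.zero_apply]
  have hY2 : ∀ i j, Hs' D (Y i j) = 0 := by
    intro i j
    funext r r'
    have : D r' (Y i j) = algebraMap ℂ (Fu 𝒰) (σ (b r' i j)) := hder B₀ b i j r'
    simp only [Hs', this, hDc, Pi.zero_apply]
  have hval : ∀ (f : Lin k n) (l : ℕ), f.valF σ X Y l G =
      co 𝒰 fun S => σ (f.val (fam A₀ a (x S)) (fam B₀ b (x S)) l (g S)) := fun f l =>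
    valF_co σ 𝒰 f _ _ l g
  -- the steps
  have hGs : ∀ s < l, s ∉ K → ∃ u v : Lin k n, G s = u.valF σ X Y s G * v.valF σ X Y s G ∨
      (v.valF σ X Y s G ≠ 0 ∧ G s = u.valF σ X Y s G / v.valF σ X Y s G) := by
    intro s hs hsK
    obtain ⟨u, v, h | h⟩ := hstep s (Nat.zero_le _) hs hsK
    · refine ⟨u, v, Or.inl ?_⟩
      rw [hval, hval, ← map_mul, hG, co_eq]
      filter_upwards [h] with S hS
      rw [hS, map_mul, Pi.mul_apply]
    · have hv0 : v.valF σ X Y s G ≠ 0 := by
        rw [hval, Ne, co_eq_zero]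
        intro hcon
        obtain ⟨S, hS1, hS2⟩ := (hcon.and h).exists
        exact hS2.1 ((map_eq_zero σ).mp hS1)
      refine ⟨u, v, Or.inr ⟨hv0, ?_⟩⟩
      rw [eq_div_iff hv0, hval, hval, hG, ← map_mul, co_eq]
      filter_upwards [h] with S hS
      rw [Pi.mul_apply, hS.2, map_div₀, div_mul_cancel₀ _ ((map_ne_zero σ).mpr hS.1)]
  obtain ⟨p, q, hpq⟩ := hess_repr σ D hD hDc hX2 hY2 l G K hGs
  have hcex := fun i j => hpq (M i j)
  choose c hc using hcex
  -- the output
  set C : Matrix (Fin n) (Fin n) (Fu 𝒰) := Matrix.of fun i j => (M i j).valF σ X Y l G with hC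
  have hfact : ∀ S, ∃ (P1 : Matrix (Fin n) (Fin s) k) (P2 : Matrix (Fin s) (Fin n) k),
      (fam A₀ a (x S) * fam B₀ b (x S) - (Matrix.of fun i j =>
        (M i j).val (fam A₀ a (x S)) (fam B₀ b (x S)) l (g S))).rank ≤ s →
      fam A₀ a (x S) * fam B₀ b (x S) - (Matrix.of fun i j =>
        (M i j).val (fam A₀ a (x S)) (fam B₀ b (x S)) l (g S)) = P1 * P2 := by
    intro S
    by_cases hS : (fam A₀ a (x S) * fam B₀ b (x S) - (Matrix.of fun i j =>
        (M i j).val (fam A₀ a (x S)) (fam B₀ b (x S)) l (g S))).rank ≤ s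
    · obtain ⟨P1, P2, h⟩ := rank_fact _ hS
      exact ⟨P1, P2, fun _ => h⟩
    · exact ⟨0, 0, fun h => absurd h hS⟩
  choose P1 P2 hP12 using hfact
  set R1 : Matrix (Fin n) (Fin s) (Fu 𝒰) := Matrix.of fun i j => co 𝒰 fun S => σ (P1 S i j) with hR1
  set R2 : Matrix (Fin s) (Fin n) (Fu 𝒰) := Matrix.of fun i j => co 𝒰 fun S => σ (P2 S i j) with hR2
  have hXY : X * Y = C + R1 * R2 := by
    refine Matrix.ext fun i j => ?_
    have h1 : (X * Y) i j = co 𝒰 fun S => σ ((fam A₀ a (x S) * fam B₀ b (x S)) i j) := by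
      have : (fun S => σ ((fam A₀ a (x S) * fam B₀ b (x S)) i j)) = ∑ r,
          (fun S => σ (fam A₀ a (x S) i r)) * (fun S => σ (fam B₀ b (x S) r j)) := by
        funext S
        simp only [Matrix.mul_apply, map_sum, map_mul, Finset.sum_apply, Pi.mul_apply]
      rw [this, map_sum, Matrix.mul_apply]
      simp only [map_mul, hX, hY, Matrix.of_apply]
    have h2 : (R1 * R2) i j = co 𝒰 fun S => σ ((P1 S * P2 S) i j) := by
      have : (fun S => σ ((P1 S * P2 S) i j)) = ∑ r,
          (fun S => σ (P1 S i r)) * (fun S => σ (P2 S r j)) := by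
        funext S
        simp only [Matrix.mul_apply, map_sum, map_mul, Finset.sum_apply, Pi.mul_apply]
      rw [this, map_sum, Matrix.mul_apply]
      simp only [map_mul, hR1, hR2, Matrix.of_apply]
    rw [Matrix.add_apply, h1, h2, hC, Matrix.of_apply, hval, ← map_add, co_eq]
    filter_upwards [hout] with S hS
    have h3 := hP12 S hS
    rw [Pi.add_apply, ← map_add]
    congr 1
    have h4 := congrFun (congrFun h3 i) j
    rw [Matrix.sub_apply, Matrix.of_apply] at h4
    rw [← h4]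
    ring
  -- kernels
  obtain ⟨Ut, Ut', hU1, hU2⟩ := ker_fact (m := m) hm R1.transpose
  obtain ⟨V, V', hV1, hV2⟩ := ker_fact (m := m) hm R2
  set U := Ut.transpose with hUd
  have hU0 : U * R1 = 0 := by
    rw [hUd, ← Matrix.transpose_transpose R1, ← Matrix.transpose_mul, hU1, Matrix.transpose_zero]
  refine ⟨U, Ut'.transpose, V, V', fun i => U * R1.map (D i), fun i => R2.map (D i) * V, p, q,
    fun t i j => Hs' D (G t) i j, fun t => U * (Matrix.of fun x y => c x y t) * V, ?_, hV2, ?_⟩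
  · rw [hUd, ← Matrix.transpose_mul, hU2, Matrix.transpose_one]
  · intro i j
    -- second derivative of the product
    have h1 : ((X * Y).map (D j)).map (D i) =
        ((a i).map σ).map (algebraMap ℂ (Fu 𝒰)) * ((b j).map σ).map (algebraMap ℂ (Fu 𝒰)) +
        ((a j).map σ).map (algebraMap ℂ (Fu 𝒰)) * ((b i).map σ).map (algebraMap ℂ (Fu 𝒰)) := by
      rw [map_der_mul (hD j), hXD, hYD, map_der_add (hD i), map_der_mul (hD i),
        map_der_mul (hD i), hcD, hcD, hXD, hYD, zero_mul, mul_zero, zero_add, add_zero, add_comm]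
    have h2 : ((R1 * R2).map (D j)).map (D i) = (R1.map (D j)).map (D i) * R2 +
        R1.map (D j) * R2.map (D i) + (R1.map (D i) * R2.map (D j) +
        R1 * (R2.map (D j)).map (D i)) := by
      rw [map_der_mul (hD j), map_der_add (hD i), map_der_mul (hD i), map_der_mul (hD i)]
    have h3 : (C.map (D j)).map (D i) = ∑ t ∈ Finset.range l,
        (if t ∈ K then Hs' D (G t) i j else p t i * q t j + p t j * q t i) •
          (Matrix.of fun x y => c x y t) := by
      refine Matrix.ext fun x y => ?_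
      have := congrFun (congrFun (hc x y) i) j
      have e : (C.map (D j)).map (D i) x y = Hs' D ((M x y).valF σ X Y l G) i j := rfl
      rw [e, this, Matrix.sum_apply, Finset.sum_apply, Finset.sum_apply]
      refine Finset.sum_congr rfl fun t _ => ?_
      by_cases ht : t ∈ K
      · simp only [ht, if_true, Pi.smul_apply, smul_eq_mul, Matrix.smul_apply, Matrix.of_apply]
        ring
      · simp only [ht, if_false, Pi.smul_apply, smul_eq_mul, Matrix.smul_apply, Matrix.of_apply,
          Sy]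
        ring
    have h4 := congrArg (fun N : Matrix (Fin n) (Fin n) (Fu 𝒰) => (N.map (D j)).map (D i)) hXY
    rw [h1, map_der_add (hD j), map_der_add (hD i), h3, h2] at h4
    unfold lhs rhs
    rw [h4]
    have h5 : U * ((R1.map (D j)).map (D i) * R2 + R1.map (D j) * R2.map (D i) +
        (R1.map (D i) * R2.map (D j) + R1 * (R2.map (D j)).map (D i))) * V =
        U * R1.map (D i) * (R2.map (D j) * V) + U * R1.map (D j) * (R2.map (D i) * V) := by
      have e1 : U * ((R1.map (D j)).map (D i) * R2) * V = 0 := by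
        rw [Matrix.mul_assoc, Matrix.mul_assoc, hV1, Matrix.mul_zero, Matrix.mul_zero]
      have e2 : U * (R1 * (R2.map (D j)).map (D i)) * V = 0 := by
        rw [← Matrix.mul_assoc, hU0, Matrix.zero_mul, Matrix.zero_mul]
      simp only [Matrix.mul_add, Matrix.add_mul, e1, e2, zero_add, add_zero]
      rw [add_comm]
      simp only [Matrix.mul_assoc]
    rw [Matrix.mul_add, Matrix.add_mul, h5]
    congr 1
    rw [Matrix.mul_sum, Matrix.sum_mul]
    refine Finset.sum_congr rfl fun t _ => ?_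
    rw [Matrix.mul_smul, Matrix.smul_mul]

end

end Pool.Agent.W966.Mm
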