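import Pool.Agent.W966.Mm.RankErr

/-!
# Products of pairs from an affine family, with queries
-/

set_option linter.unusedSectionVars false

namespace Pool.Agent.W966.Mm

open Module Pool.Agent.H515R2.MMR MvPolynomial

lemma QTree.CanOutput.mono {k : Type} [Field k] {n : ℕ} {A B : Matrix (Fin n) (Fin n) k}
    {E E' : Matrix (Fin n) (Fin n) k → Prop} (hE : ∀ C, E C → E' C) (t : QTree k n) :
    ∀ (l : ℕ) (g : ℕ → k) (L Q : ℕ), t.CanOutput A B E l g L Q → t.CanOutput A B E' l g L Q := by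
  induction t with
  | output M => intro l g L Q h; exact hE _ h
  | mul f h next ih => intro l g L Q hh; exact ⟨hh.1, ih _ _ _ _ hh.2⟩
  | div f h next ih => intro l g L Q hh; exact ⟨hh.1, hh.2.1, ih _ _ _ _ hh.2.2⟩
  | query next ih =>
    intro l g L Q hh
    obtain ⟨h1, v, h2⟩ := hh
    exact ⟨h1, v, ih _ _ _ _ h2⟩
  | test f yes no ihy ihn =>
    intro l g L Q hh
    rcases hh with ⟨h1, h2⟩ | ⟨h1, h2⟩
    · exact Or.inl ⟨h1, ihy _ _ _ _ h2⟩
    · exact Or.inr ⟨h1, ihn _ _ _ _ h2⟩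
  | choose r next ih =>
    intro l g L Q hh
    obtain ⟨i, hi⟩ := hh
    exact ⟨i, ih i _ _ _ _ hi⟩

section

variable {κ : Type} [Fintype κ] {n : ℕ}

/-- Linear independence of pairs is preserved by extension of the base field. -/
lemma linearIndependent_pairs {k : Type} [Field k] (σ : k →+* ℂ)
    {a b : κ → Matrix (Fin n) (Fin n) k} (h : LinearIndependent k fun i => (a i, b i)) :
    LinearIndependent ℂ fun i => ((a i).map σ, (b i).map σ) := by
  let _ : Algebra k ℂ := σ.toAlgebra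
  rw [Fintype.linearIndependent_iff]
  intro c hc
  have h1 : ∀ φ : Module.Dual k ℂ, ∀ i, φ (c i) = 0 := by
    intro φ
    refine (Fintype.linearIndependent_iff.mp h) (fun i => φ (c i)) ?_
    have hgen : ∀ (d : κ → Matrix (Fin n) (Fin n) k),
        ∑ i, c i • (d i).map σ = 0 → ∑ i, φ (c i) • d i = 0 := by
      intro d hd
      refine Matrix.ext fun r s => ?_
      have h2 := congrArg φ (congrFun (congrFun hd r) s)
      rw [Matrix.sum_apply, map_sum] at h2
      rw [Matrix.sum_apply]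
      refine Eq.trans (Finset.sum_congr rfl fun i _ => ?_) (h2.trans ?_)
      · rw [Matrix.smul_apply, Matrix.smul_apply, Matrix.map_apply, smul_eq_mul, smul_eq_mul]
        have : c i * σ (d i r s) = (d i r s) • c i := by
          rw [Algebra.smul_def, mul_comm]; rfl
        rw [this, map_smul, smul_eq_mul, mul_comm]
      · simp
    have e1 := congrArg Prod.fst hc
    have e2 := congrArg Prod.snd hc
    rw [Prod.fst_sum] at e1
    rw [Prod.snd_sum] at e2
    refine Prod.ext ?_ ?_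
    · rw [Prod.fst_sum]
      exact hgen a e1
    · rw [Prod.snd_sum]
      exact hgen b e2
  intro i
  exact (Module.forall_dual_apply_eq_zero_iff k (c i)).mp fun φ => h1 φ i

/-- **The linear algebra bound.** -/
theorem fam_sys_bound {l L Q q : ℕ} {K : Finset ℕ} (hK : K ⊆ Finset.range l) (hKQ : K.card ≤ Q)
    (hl : l ≤ L + K.card) {a b : κ → Matrix (Fin n) (Fin n) ℂ}
    (hind : LinearIndependent ℂ fun i => (a i, b i)) (h : Sys ℂ n 0 l K a b)
    (hdim : n ^ 2 + Q + 3 * q * n < Fintype.card κ) : ((q : ℝ) + 1) ^ omega ≤ 2 * L := by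
  classical
  obtain ⟨U, U', V, V', f, g, p, q', e, c, hU, hV, hid⟩ := sys_bilin hK h
  have hU' : U' * U = 1 := mul_eq_one_comm.mp hU
  have hV' : V * V' = 1 := mul_eq_one_comm.mp hV
  let α : (κ → ℂ) →ₗ[ℂ] Matrix (Fin n) (Fin n) ℂ := mulLeftLinearMap (Fin n) ℂ U ∘ₗ lx a
  let β : (κ → ℂ) →ₗ[ℂ] Matrix (Fin n) (Fin n) ℂ := mulRightLinearMap (Fin n) ℂ V ∘ₗ lx b
  have hα : ∀ ξ, α ξ = U * lx a ξ := fun _ => rfl
  have hβ : ∀ ξ, β ξ = lx b ξ * V := fun _ => rfl
  have hid' : ∀ ξ ξ', α ξ * β ξ' + α ξ' * β ξ =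
      ∑ t ∈ Finset.range l \ K, (p t ξ * q' t ξ' + p t ξ' * q' t ξ) • c t +
        ∑ t ∈ K, e t ξ ξ' • c t := by
    intro ξ ξ'
    have h1 := hid ξ ξ'
    have h2 : f ξ * g ξ' + f ξ' * g ξ = 0 := by
      refine Matrix.ext fun i j => ?_
      simp
    rw [h2, add_zero] at h1
    rw [← h1]
    simp only [hα, hβ, Matrix.mul_add, Matrix.add_mul, Matrix.mul_assoc]
  -- injectivity
  have hinj : ∀ ξ, α ξ = 0 → β ξ = 0 → ξ = 0 := by
    intro ξ h1 h2
    have e1 : lx a ξ = 0 := by
      have := congrArg (fun M => U' * M) (hα ξ ▸ h1)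
      simp only [← Matrix.mul_assoc, hU', Matrix.one_mul, Matrix.mul_zero] at this
      exact this
    have e2 : lx b ξ = 0 := by
      have := congrArg (fun M => M * V') (hβ ξ ▸ h2)
      simp only [Matrix.mul_assoc, hV', Matrix.mul_one, Matrix.zero_mul] at this
      exact this
    refine funext fun i => (Fintype.linearIndependent_iff.mp hind) ξ ?_ i
    refine Prod.ext ?_ ?_
    · rw [Prod.fst_sum]; exact e1
    · rw [Prod.snd_sum]; exact e2
  set N := LinearMap.ker β with hN
  let α' : N →ₗ[ℂ] Matrix (Fin n) (Fin n) ℂ := α ∘ₗ N.subtype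
  have hα'inj : Function.Injective α' := by
    rw [injective_iff_map_eq_zero]
    intro x hx
    exact Subtype.ext (hinj x hx x.2)
  set V1 : Submodule ℂ (Mat n) := LinearMap.range α' with hV1
  set V2 : Submodule ℂ (Mat n) := LinearMap.range β with hV2
  have hdims : finrank ℂ V1 + finrank ℂ V2 = Fintype.card κ := by
    have h1 := LinearMap.finrank_range_add_finrank_ker β
    rw [Module.finrank_fintype_fun_eq_card] at h1
    have h2 : finrank ℂ V1 = finrank ℂ N := LinearMap.finrank_range_of_inj hα'inj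
    rw [h2, add_comm]
    exact h1
  obtain ⟨s1, hs1⟩ := LinearMap.exists_leftInverse_of_injective α' (LinearMap.ker_eq_bot.mpr hα'inj)
  obtain ⟨s2, hs2⟩ := LinearMap.exists_rightInverse_of_surjective β.rangeRestrict
    β.range_rangeRestrict
  have hs1' : ∀ A ∈ V1, α (s1 A : κ → ℂ) = A ∧ β (s1 A : κ → ℂ) = 0 := by
    rintro _ ⟨x, rfl⟩
    have h3 := LinearMap.congr_fun hs1 x
    simp only [LinearMap.comp_apply, LinearMap.id_apply] at h3
    rw [h3]
    exact ⟨rfl, x.2⟩
  have hs2' : ∀ B : V2, β (s2 B) = (B : Matrix (Fin n) (Fin n) ℂ) := by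
    intro B
    have := LinearMap.congr_fun hs2 B
    simp only [LinearMap.comp_apply, LinearMap.id_apply] at this
    exact congrArg Subtype.val this
  obtain ⟨W, hW1, hW2⟩ := finrank_ann K c
  have hext1 := fun t => LinearMap.exists_extend (p t ∘ₗ s2)
  have hext2 := fun t => LinearMap.exists_extend (q' t ∘ₗ s2)
  choose P2 hP2 using hext1
  choose Q2 hQ2 using hext2
  have hcard : Fintype.card ({t // t ∈ Finset.range l \ K} × Fin 2) ≤ 2 * L := by
    rw [Fintype.card_prod, Fintype.card_coe, Fintype.card_fin, Finset.card_sdiff_of_subset hK,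
      Finset.card_range]
    omega
  have key : HasRestrRank V1 V2 W (Fintype.card ({t // t ∈ Finset.range l \ K} × Fin 2)) := by
    let eq := (Fintype.equivFin ({t // t ∈ Finset.range l \ K} × Fin 2)).symm
    refine ⟨fun i => if (eq i).2 = 0 then (p (eq i).1 ∘ₗ N.subtype ∘ₗ s1) else
        (q' (eq i).1 ∘ₗ N.subtype ∘ₗ s1),
      fun i => if (eq i).2 = 0 then Q2 (eq i).1 else P2 (eq i).1,
      fun i => (Matrix.traceLinearMap (Fin n) ℂ ℂ) ∘ₗ mulLeftLinearMap (Fin n) ℂ (c (eq i).1), ?_⟩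
    intro A hA B hB C hC
    obtain ⟨e1, e2⟩ := hs1' A hA
    have e3 := hs2' ⟨B, hB⟩
    have h1 := hid' (s1 A) (s2 ⟨B, hB⟩)
    rw [e1, e2, e3, Matrix.mul_zero, add_zero] at h1
    have hp2 : ∀ t, P2 t B = p t (s2 ⟨B, hB⟩) := fun t => by
      have := LinearMap.congr_fun (hP2 t) ⟨B, hB⟩
      simpa using this
    have hq2 : ∀ t, Q2 t B = q' t (s2 ⟨B, hB⟩) := fun t => by
      have := LinearMap.congr_fun (hQ2 t) ⟨B, hB⟩
      simpa using this
    have h1' : A * B = ∑ t ∈ Finset.range l \ K, (p t (s1 A) * q' t (s2 ⟨B, hB⟩) +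
        p t (s2 ⟨B, hB⟩) * q' t (s1 A)) • c t + ∑ t ∈ K, e t (s1 A) (s2 ⟨B, hB⟩) • c t := h1
    have h3 : (A * B * C).trace = ∑ t ∈ Finset.range l \ K, (p t (s1 A) * q' t (s2 ⟨B, hB⟩) +
        p t (s2 ⟨B, hB⟩) * q' t (s1 A)) * (c t * C).trace := by
      rw [h1', Matrix.add_mul, Matrix.trace_add, Finset.sum_mul, Finset.sum_mul,
        Matrix.trace_sum, Matrix.trace_sum]
      have h4 : ∑ t ∈ K, ((e t (s1 A) (s2 ⟨B, hB⟩) • c t) * C).trace = 0 := by
        refine Finset.sum_eq_zero fun t ht => ?_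
        rw [Matrix.smul_mul, Matrix.trace_smul, hW2 C hC t ht, smul_zero]
      rw [h4, add_zero]
      refine Finset.sum_congr rfl fun i _ => ?_
      rw [Matrix.smul_mul, Matrix.trace_smul, smul_eq_mul]
    rw [h3]
    have h5 := Equiv.sum_comp eq (fun i : {t // t ∈ Finset.range l \ K} × Fin 2 =>
      ((if i.2 = 0 then p i.1 (s1 A) else q' i.1 (s1 A)) *
        (if i.2 = 0 then Q2 i.1 B else P2 i.1 B)) * (c i.1 * C).trace)
    refine Eq.trans ?_ (h5.symm.trans (Finset.sum_congr rfl fun i _ => ?_))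
    · rw [Fintype.sum_prod_type, ← Finset.sum_coe_sort]
      refine Finset.sum_congr rfl fun t _ => ?_
      rw [Fin.sum_univ_two]
      simp only [if_true, one_ne_zero, if_false, hp2, hq2]
      ring
    · by_cases hi : (eq i).2 = 0
      · simp only [hi, if_true]
        rfl
      · simp only [hi, if_false]
        rfl
  have := rank_bound V1 V2 W key (q := q) (by
    rw [hdims]
    nlinarith)
  exact this.trans (by exact_mod_cast hcard)

/-- **Products of pairs from an affine family, with `Q` queries.** -/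
theorem fam_bound {k : Type} [Field k] (σ : k →+* ℂ) {L Q q : ℕ}
    (A₀ B₀ : Matrix (Fin n) (Fin n) k) (a b : κ → Matrix (Fin n) (Fin n) k)
    (hind : LinearIndependent k fun i => (a i, b i))
    (t : QTree k n) (P : MvPolynomial κ k) (hP : P ≠ 0)
    (H : ∀ x : κ → k, eval x P ≠ 0 → t.CanOutput (fam A₀ a x) (fam B₀ b x)
      (fun C => C = fam A₀ a x * fam B₀ b x) 0 0 L Q)
    (hdim : n ^ 2 + Q + 3 * q * n < Fintype.card κ) :
    ((q : ℝ) + 1) ^ omega ≤ 2 * L := by
  obtain ⟨l, K, hK, hKQ, hl, hsys⟩ := core σ (m := n) (s := 0) (by omega) A₀ B₀ a b t L Q P hP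
    (fun x hx => (H x hx).mono (fun C hC => by
      rw [hC, sub_self, Matrix.rank_zero]) t 0 0 L Q)
  exact fam_sys_bound hK hKQ hl (linearIndependent_pairs σ hind) hsys hdim

end

end Pool.Agent.W966.Mm
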