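import Mathlib

/-!
# An ultrapower of `ℂ` with a generic point
-/

namespace Pool.Agent.W966.Mm

open MvPolynomial Filter

section

variable {I : Type} (𝒰 : Ultrafilter I)

/-- The ultrapower of `ℂ`. -/
def Fu : Type := (𝒰 : Filter I).Germ ℂ

noncomputable instance : Field (Fu 𝒰) := inferInstanceAs (Field ((𝒰 : Filter I).Germ ℂ))

/-- The class of a family of complex numbers. -/
noncomputable def co : (I → ℂ) →+* Fu 𝒰 := Filter.Germ.coeRingHom (𝒰 : Filter I)

noncomputable instance : Algebra ℂ (Fu 𝒰) := ((co 𝒰).comp (Pi.constRingHom I ℂ)).toAlgebra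

variable {𝒰}

lemma algebraMap_Fu (c : ℂ) : algebraMap ℂ (Fu 𝒰) c = co 𝒰 (fun _ => c) := rfl

lemma co_eq {x y : I → ℂ} : co 𝒰 x = co 𝒰 y ↔ ∀ᶠ S in (𝒰 : Filter I), x S = y S :=
  Filter.Germ.coe_eq

lemma co_eq_zero {x : I → ℂ} : co 𝒰 x = 0 ↔ ∀ᶠ S in (𝒰 : Filter I), x S = 0 := by
  rw [← map_zero (co 𝒰), co_eq]; rfl

lemma co_surj : Function.Surjective (co 𝒰) := fun x => by
  induction x using Quotient.inductionOn' with
  | h f => exact ⟨f, rfl⟩

lemma aeval_co {κ : Type} (a : I → κ → ℂ) (p : MvPolynomial κ ℂ) :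
    aeval (fun l => co 𝒰 (fun S => a S l)) p = co 𝒰 (fun S => eval (a S) p) := by
  induction p using MvPolynomial.induction_on with
  | C c => simp [algebraMap_Fu]
  | add p q hp hq =>
    rw [map_add, hp, hq, ← map_add]
    congr 1
    funext S
    simp
  | mul_X p i hp =>
    rw [map_mul, hp, aeval_X, ← map_mul]
    congr 1
    funext S
    simp

lemma map_co_eq {m n : Type} [Finite m] [Finite n] {M M' : Matrix m n (I → ℂ)} :
    M.map (co 𝒰) = M'.map (co 𝒰) ↔ ∀ᶠ S in (𝒰 : Filter I),
      M.map (Pi.evalRingHom (fun _ => ℂ) S) = M'.map (Pi.evalRingHom (fun _ => ℂ) S) := by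
  constructor
  · intro h
    have h1 : ∀ i j, ∀ᶠ S in (𝒰 : Filter I), M i j S = M' i j S := fun i j =>
      co_eq.mp (congrFun (congrFun h i) j)
    have h2 : ∀ᶠ S in (𝒰 : Filter I), ∀ i j, M i j S = M' i j S := by
      rw [Filter.eventually_all]
      intro i
      rw [Filter.eventually_all]
      exact h1 i
    filter_upwards [h2] with S hS
    exact Matrix.ext fun i j => hS i j
  · intro h
    refine Matrix.ext fun i j => co_eq.mpr ?_
    filter_upwards [h] with S hS
    exact congrFun (congrFun hS i) j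

end

/-- **A generic point.** -/
theorem exists_generic {κ : Type} [Finite κ] {k : Type} [Field k] (σ : k →+* ℂ)
    (P : MvPolynomial κ k) (hP : P ≠ 0) :
    ∃ (I : Type) (𝒰 : Ultrafilter I) (a : I → κ → k), (∀ S, eval (a S) P ≠ 0) ∧
      AlgebraicIndependent ℂ (fun l => co 𝒰 (fun S => σ (a S l))) := by
  classical
  have hσ : Function.Injective σ := σ.injective
  have : CharZero k := by
    refine ⟨fun x y hxy => ?_⟩
    have := congrArg σ hxy
    rw [map_natCast, map_natCast] at this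
    exact_mod_cast this
  have hinf : (Set.range σ).Infinite := Set.infinite_range_of_injective hσ
  have hpt : ∀ S : Finset {p : MvPolynomial κ ℂ // p ≠ 0}, ∃ a : κ → k, eval a P ≠ 0 ∧
      ∀ p ∈ S, eval (fun l => σ (a l)) (p : MvPolynomial κ ℂ) ≠ 0 := by
    intro S
    have hne : (∏ p ∈ S, (p : MvPolynomial κ ℂ)) * (map σ P) ≠ 0 := by
      refine mul_ne_zero (Finset.prod_ne_zero_iff.mpr fun p _ => p.2) ?_
      intro hz
      exact hP (MvPolynomial.map_injective σ hσ (by rw [hz, map_zero]))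
    obtain ⟨a, ha⟩ : ∃ a : κ → k,
        eval (fun i => σ (a i)) ((∏ p ∈ S, (p : MvPolynomial κ ℂ)) * map σ P) ≠ 0 := by
      by_contra hcon
      push Not at hcon
      refine hne (MvPolynomial.funext_set (fun _ => Set.range σ) (fun _ => hinf) ?_)
      intro x hx
      have hx' : ∀ i, ∃ y, σ y = x i := fun i => hx i (Set.mem_univ i)
      choose y hy using hx'
      have := hcon y
      rw [map_zero, show x = fun i => σ (y i) from funext fun i => (hy i).symm]
      exact this
    rw [map_mul, map_prod] at ha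
    refine ⟨a, ?_, ?_⟩
    · intro hz
      apply right_ne_zero_of_mul ha
      rw [eval_map]
      have e := eval₂_comp_left σ (RingHom.id k) a P
      rw [RingHom.comp_id, eval₂_id, hz, map_zero] at e
      exact e.symm
    · exact Finset.prod_ne_zero_iff.mp (left_ne_zero_of_mul ha)
  choose a ha1 ha2 using hpt
  refine ⟨_, Ultrafilter.of (atTop : Filter (Finset {p : MvPolynomial κ ℂ // p ≠ 0})), a, ha1, ?_⟩
  rw [algebraicIndependent_iff]
  intro p hp
  by_contra hp0
  rw [aeval_co (fun S l => σ (a S l)) p, co_eq_zero] at hp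
  have h1 : ∀ᶠ S in ((Ultrafilter.of (atTop : Filter (Finset {p : MvPolynomial κ ℂ // p ≠ 0})) :
      Ultrafilter _) : Filter (Finset {p : MvPolynomial κ ℂ // p ≠ 0})), (⟨p, hp0⟩ : {p : MvPolynomial κ ℂ // p ≠ 0}) ∈ S := by
    have h2 : ∀ᶠ S in (atTop : Filter (Finset {p : MvPolynomial κ ℂ // p ≠ 0})),
        (⟨p, hp0⟩ : {p : MvPolynomial κ ℂ // p ≠ 0}) ∈ S := by
      filter_upwards [eventually_ge_atTop {(⟨p, hp0⟩ : {p : MvPolynomial κ ℂ // p ≠ 0})}] with S hS
      exact hS (Finset.mem_singleton_self _)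
    exact Ultrafilter.of_le _ h2
  obtain ⟨S, hS1, hS2⟩ := (hp.and h1).exists
  exact ha2 S _ hS2 hS1

end Pool.Agent.W966.Mm
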