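import Pool.Agent.W966.Mm.Tree
import Pool.Agent.W966.Mm.Der
import Pool.Agent.W966.Mm.Ultra

/-!
# Second derivatives of the results of a run
-/

set_option linter.unusedSectionVars false

namespace Pool.Agent.W966.Mm

open Filter Pool.Agent.H53R3

section

variable {κ : Type} {F : Type} [Field F] [Algebra ℂ F] {k : Type} [Field k] {n : ℕ}
  (σ : k →+* ℂ)

/-- The value of a linear combination over `F`. -/
noncomputable def Lin.valF (f : Lin k n) (X Y : Matrix (Fin n) (Fin n) F) (l : ℕ) (G : ℕ → F) :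
    F :=
  algebraMap ℂ F (σ f.c) + ∑ i, ∑ j, (algebraMap ℂ F (σ (f.a i j)) * X i j +
    algebraMap ℂ F (σ (f.b i j)) * Y i j) +
    ∑ s ∈ Finset.range l, algebraMap ℂ F (σ (f.r s)) * G s

/-- Second derivatives. -/
def Hs' (D : κ → F → F) (z : F) : κ → κ → F := fun i j => D i (D j z)

/-- Symmetric product of two vectors. -/
def Sy (p q : κ → F) : κ → κ → F := fun i j => p i * q j + p j * q i

variable (D : κ → F → F) (hD : ∀ i, IsDer (D i))

include hD

lemma Hs'_add (a b : F) : Hs' D (a + b) = Hs' D a + Hs' D b := by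
  funext i j; simp only [Hs', Pi.add_apply, (hD _).add]

lemma Hs'_zero : Hs' D (0 : F) = 0 := by
  funext i j; simp only [Hs', (hD j).zero, (hD i).zero, Pi.zero_apply]

lemma Hs'_sum {ι : Type*} (s : Finset ι) (f : ι → F) :
    Hs' D (∑ t ∈ s, f t) = ∑ t ∈ s, Hs' D (f t) := by
  classical
  induction s using Finset.induction_on with
  | empty => simpa using Hs'_zero D hD
  | insert a s ha ih => rw [Finset.sum_insert ha, Hs'_add D hD, ih, Finset.sum_insert ha]

lemma Hs'_mul (a b : F) :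
    Hs' D (a * b) = b • Hs' D a + a • Hs' D b + Sy (fun i => D i a) (fun i => D i b) := by
  funext i j
  simp only [Hs', Sy, Pi.add_apply, Pi.smul_apply, smul_eq_mul, (hD _).mul, (hD _).add]
  ring

variable (hc : ∀ i (c : ℂ), D i (algebraMap ℂ F c) = 0)

include hc

lemma Hs'_const (c : ℂ) : Hs' D (algebraMap ℂ F c) = 0 := by
  funext i j; simp only [Hs', hc, (hD i).zero, Pi.zero_apply]

lemma Hs'_smul (c : ℂ) (z : F) :
    Hs' D (algebraMap ℂ F c * z) = algebraMap ℂ F c • Hs' D z := by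
  funext i j
  simp only [Hs', Pi.smul_apply, smul_eq_mul, (hD _).mul, hc, zero_mul, zero_add]

lemma Hs'_valF (f : Lin k n) {X Y : Matrix (Fin n) (Fin n) F} (hX : ∀ a b, Hs' D (X a b) = 0)
    (hY : ∀ a b, Hs' D (Y a b) = 0) (l : ℕ) (G : ℕ → F) :
    Hs' D (f.valF σ X Y l G) = ∑ s ∈ Finset.range l, algebraMap ℂ F (σ (f.r s)) • Hs' D (G s) := by
  unfold Lin.valF
  rw [Hs'_add D hD, Hs'_add D hD, Hs'_const D hD hc, Hs'_sum D hD, Hs'_sum D hD]
  simp only [Hs'_sum D hD, Hs'_add D hD, Hs'_smul D hD hc, hX, hY, smul_zero, add_zero,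
    Finset.sum_const_zero, zero_add]

open Classical in
/-- **Second derivatives of the results of a run.** -/
theorem hess_repr {X Y : Matrix (Fin n) (Fin n) F} (hX : ∀ a b, Hs' D (X a b) = 0)
    (hY : ∀ a b, Hs' D (Y a b) = 0) (l : ℕ) (G : ℕ → F) (K : Finset ℕ)
    (hG : ∀ s < l, s ∉ K → ∃ u v : Lin k n, G s = u.valF σ X Y s G * v.valF σ X Y s G ∨
      (v.valF σ X Y s G ≠ 0 ∧ G s = u.valF σ X Y s G / v.valF σ X Y s G)) :
    ∃ p q : ℕ → κ → F, ∀ f : Lin k n, ∃ c : ℕ → F, Hs' D (f.valF σ X Y l G) =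
      ∑ s ∈ Finset.range l, c s • (if s ∈ K then Hs' D (G s) else Sy (p s) (q s)) := by
  have hex : ∀ s, ∃ p q : κ → F, s < l → s ∉ K → ∀ Q : Submodule F (κ → κ → F),
      (∀ f : Lin k n, Hs' D (f.valF σ X Y s G) ∈ Q) → Sy p q ∈ Q → Hs' D (G s) ∈ Q := by
    intro s
    by_cases hs : s < l ∧ s ∉ K
    · obtain ⟨u, v, h | ⟨hv0, h⟩⟩ := hG s hs.1 hs.2
      · refine ⟨fun i => D i (u.valF σ X Y s G), fun i => D i (v.valF σ X Y s G),
          fun _ _ Q hQ hS => ?_⟩
        rw [h, Hs'_mul D hD]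
        exact Q.add_mem (Q.add_mem (Q.smul_mem _ (hQ u)) (Q.smul_mem _ (hQ v))) hS
      · refine ⟨fun i => D i (G s), fun i => D i (v.valF σ X Y s G), fun _ _ Q hQ hS => ?_⟩
        have hu' : u.valF σ X Y s G = G s * v.valF σ X Y s G := by
          rw [h, div_mul_cancel₀ _ hv0]
        have h2 := Hs'_mul D hD (G s) (v.valF σ X Y s G)
        rw [← hu'] at h2
        have e2 : Hs' D (G s) = (v.valF σ X Y s G)⁻¹ • (Hs' D (u.valF σ X Y s G) -
            G s • Hs' D (v.valF σ X Y s G) -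
            Sy (fun i => D i (G s)) (fun i => D i (v.valF σ X Y s G))) := by
          rw [h2]
          funext i j
          simp only [Pi.smul_apply, Pi.sub_apply, Pi.add_apply, smul_eq_mul]
          field_simp
          ring
        rw [e2]
        exact Q.smul_mem _ (Q.sub_mem (Q.sub_mem (hQ u) (Q.smul_mem _ (hQ v))) hS)
    · exact ⟨0, 0, fun h1 h2 => absurd ⟨h1, h2⟩ hs⟩
  choose p q hpq using hex
  refine ⟨p, q, ?_⟩
  set gen : ℕ → κ → κ → F := fun s => if s ∈ K then Hs' D (G s) else Sy (p s) (q s) with hgen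
  set Q : Submodule F (κ → κ → F) := Submodule.span F (Set.range fun r : Fin l => gen r) with hQ
  have hmem : ∀ s < l, gen s ∈ Q := fun s hs => Submodule.subset_span ⟨⟨s, hs⟩, rfl⟩
  have hstep : ∀ s < l, Hs' D (G s) ∈ Q := by
    intro s
    induction s using Nat.strong_induction_on with
    | _ s ih =>
      intro hs
      by_cases hK : s ∈ K
      · have := hmem s hs
        simp only [hgen, if_pos hK] at this
        exact this
      · refine hpq s hs hK Q (fun f => ?_) ?_
        · rw [Hs'_valF σ D hD hc f hX hY]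
          exact Q.sum_mem fun r hr => Q.smul_mem _
            (ih r (Finset.mem_range.mp hr) (by have := Finset.mem_range.mp hr; omega))
        · have := hmem s hs
          simp only [hgen, if_neg hK] at this
          exact this
  intro f
  have hf : Hs' D (f.valF σ X Y l G) ∈ Q := by
    rw [Hs'_valF σ D hD hc f hX hY]
    exact Q.sum_mem fun r hr => Q.smul_mem _ (hstep r (Finset.mem_range.mp hr))
  obtain ⟨c, hc'⟩ := (Submodule.mem_span_range_iff_exists_fun F).mp hf
  refine ⟨fun s => if h : s < l then c ⟨s, h⟩ else 0, ?_⟩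
  rw [← hc', Finset.sum_range]
  refine Finset.sum_congr rfl fun s _ => ?_
  simp only [hgen, Fin.is_lt, dif_pos]

end

/-- The value over the ultrapower. -/
lemma valF_co {k : Type} [Field k] {n : ℕ} (σ : k →+* ℂ) {I : Type} (𝒰 : Ultrafilter I)
    (f : Lin k n) (A B : I → Matrix (Fin n) (Fin n) k) (l : ℕ) (g : I → ℕ → k) :
    f.valF σ (Matrix.of fun i j => co 𝒰 fun S => σ (A S i j))
      (Matrix.of fun i j => co 𝒰 fun S => σ (B S i j)) l (fun s => co 𝒰 fun S => σ (g S s)) =
    co 𝒰 fun S => σ (f.val (A S) (B S) l (g S)) := by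
  have h : (fun S => σ (f.val (A S) (B S) l (g S))) = (fun _ => σ f.c) +
      ∑ i, ∑ j, ((fun _ => σ (f.a i j)) * (fun S => σ (A S i j)) +
        (fun _ => σ (f.b i j)) * (fun S => σ (B S i j))) +
      ∑ s ∈ Finset.range l, (fun _ => σ (f.r s)) * (fun S => σ (g S s)) := by
    funext S
    simp only [Lin.val, map_add, map_sum, map_mul, Pi.add_apply, Finset.sum_apply, Pi.mul_apply]
  rw [h]
  simp only [Lin.valF, map_add, map_sum, map_mul, algebraMap_Fu, Matrix.of_apply]

end Pool.Agent.W966.Mm
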