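import Mathlib

/-!
# Probabilistic algorithms with queries for matrix products
-/

namespace Pool.Agent.W966.Mm

open Filter

/-- A linear combination, with coefficients in the field `k`, of `1`, of the entries of the two
input matrices and of the results obtained before. -/
structure Lin (k : Type) (n : ℕ) where
  /-- the constant -/
  c : k
  /-- the coefficients of the entries of the first matrix -/
  a : Fin n → Fin n → k
  /-- the coefficients of the entries of the second matrix -/
  b : Fin n → Fin n → k
  /-- the coefficients of the results -/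
  r : ℕ → k

/-- The value of the linear combination on the input `A, B` when `g 0, …, g (l - 1)` are the
results obtained before. -/
def Lin.val {k : Type} [Field k] {n : ℕ} (f : Lin k n) (A B : Matrix (Fin n) (Fin n) k)
    (l : ℕ) (g : ℕ → k) : k :=
  f.c + ∑ i, ∑ j, (f.a i j * A i j + f.b i j * B i j) + ∑ s ∈ Finset.range l, f.r s * g s

/-- A probabilistic algorithm with queries over `k`, whose input is a pair of `n × n` matrices and
whose output is an `n × n` matrix. It can multiply or divide two available linear combinations, make
a query (it then receives an element of `k`, about which nothing is assumed), test whether a linear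
combination is `0` and branch, choose one of `r + 1` continuations uniformly at random (the
continuations may contain different constants, so this includes the random choice of an element of
a finite subset of `k`), and stop with an output. The results of the multiplications and divisions
and the answers to the queries can be used in all later linear combinations. -/
inductive QTree (k : Type) (n : ℕ) : Type
  | output (M : Fin n → Fin n → Lin k n) : QTree k n
  | mul (f h : Lin k n) (next : QTree k n) : QTree k n
  | div (f h : Lin k n) (next : QTree k n) : QTree k n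
  | query (next : QTree k n) : QTree k n
  | test (f : Lin k n) (yes no : QTree k n) : QTree k n
  | choose (r : ℕ) (next : Fin (r + 1) → QTree k n) : QTree k n

/-- On the input `A, B`, and from the state in which `g 0, …, g (l - 1)` are the results obtained
so far, the algorithm can reach an output `C` with `E C` in the following sense: for some outcomes
of its random choices and some answers to its queries it makes at most `L` multiplications and
divisions, at most `Q` queries and no division by `0`, and stops with an output `C` such that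
`E C` holds. Additions, subtractions, multiplications by constants, tests and random choices are
not counted. -/
def QTree.CanOutput {k : Type} [Field k] {n : ℕ} (A B : Matrix (Fin n) (Fin n) k)
    (E : Matrix (Fin n) (Fin n) k → Prop) : QTree k n → ℕ → (ℕ → k) → ℕ → ℕ → Prop
  | .output M, l, g, _, _ => E (Matrix.of fun i j => (M i j).val A B l g)
  | .mul f h next, l, g, L, Q => 0 < L ∧ next.CanOutput A B E (l + 1)
      (Function.update g l (f.val A B l g * h.val A B l g)) (L - 1) Q
  | .div f h next, l, g, L, Q => 0 < L ∧ h.val A B l g ≠ 0 ∧ next.CanOutput A B E (l + 1)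
      (Function.update g l (f.val A B l g / h.val A B l g)) (L - 1) Q
  | .query next, l, g, L, Q => 0 < Q ∧ ∃ v : k, next.CanOutput A B E (l + 1)
      (Function.update g l v) L (Q - 1)
  | .test f yes no, l, g, L, Q => (f.val A B l g = 0 ∧ yes.CanOutput A B E l g L Q) ∨
      (f.val A B l g ≠ 0 ∧ no.CanOutput A B E l g L Q)
  | .choose _ next, l, g, L, Q => ∃ i, (next i).CanOutput A B E l g L Q

lemma Lin.val_congr {k : Type} [Field k] {n : ℕ} (f : Lin k n) (A B : Matrix (Fin n) (Fin n) k)
    {l : ℕ} {g g' : ℕ → k} (h : ∀ s < l, g s = g' s) : f.val A B l g = f.val A B l g' := by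
  unfold Lin.val
  congr 1
  exact Finset.sum_congr rfl fun s hs => by rw [h s (Finset.mem_range.mp hs)]

section

variable {k : Type} [Field k] {n : ℕ} {I : Type} (𝒰 : Ultrafilter I)
  (A B : I → Matrix (Fin n) (Fin n) k)

/-- The result `s` of `g` is a product or a quotient. -/
def StepOK (g : I → ℕ → k) (s : ℕ) : Prop :=
  ∃ u v : Lin k n,
    (∀ᶠ S in (𝒰 : Filter I), g S s = u.val (A S) (B S) s (g S) * v.val (A S) (B S) s (g S)) ∨
    (∀ᶠ S in (𝒰 : Filter I), v.val (A S) (B S) s (g S) ≠ 0 ∧
      g S s = u.val (A S) (B S) s (g S) / v.val (A S) (B S) s (g S))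

/-- **One run for almost all inputs.** -/
theorem path (E : I → Matrix (Fin n) (Fin n) k → Prop) (t : QTree k n) :
    ∀ (l : ℕ) (g : I → ℕ → k) (L Q : ℕ),
      (∀ᶠ S in (𝒰 : Filter I), t.CanOutput (A S) (B S) (E S) l (g S) L Q) →
      ∃ (l' : ℕ) (g' : I → ℕ → k) (K : Finset ℕ) (M : Fin n → Fin n → Lin k n),
        l ≤ l' ∧ (∀ S, ∀ s < l, g' S s = g S s) ∧ K ⊆ Finset.Ico l l' ∧ K.card ≤ Q ∧
        l' ≤ l + L + K.card ∧ (∀ s, l ≤ s → s < l' → s ∉ K → StepOK 𝒰 A B g' s) ∧
        ∀ᶠ S in (𝒰 : Filter I), E S (Matrix.of fun i j => (M i j).val (A S) (B S) l' (g' S)) := by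
  classical
  induction t with
  | output M =>
    intro l g L Q h
    exact ⟨l, g, ∅, M, le_rfl, fun _ _ _ => rfl, by simp, by simp, by simp,
      fun s h1 h2 => by omega, h⟩
  | mul f h next ih =>
    intro l g L Q hh
    have hL : 0 < L := by
      obtain ⟨S, hS⟩ := hh.exists
      exact hS.1
    obtain ⟨l', g', K, M, h1, h2, h3, h4, h5, h6, h7⟩ := ih (l + 1)
      (fun S => Function.update (g S) l (f.val (A S) (B S) l (g S) * h.val (A S) (B S) l (g S)))
      (L - 1) Q (hh.mono fun S hS => hS.2)
    have h2' : ∀ S, ∀ s < l, g' S s = g S s := fun S s hs => by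
      rw [h2 S s (by omega), Function.update_of_ne (by omega)]
    refine ⟨l', g', K, M, by omega, h2', h3.trans (Finset.Ico_subset_Ico_left (by omega)), h4,
      by omega, fun s hs1 hs2 hs3 => ?_, h7⟩
    rcases Nat.eq_or_lt_of_le hs1 with rfl | hlt
    · refine ⟨f, h, Or.inl (Eventually.of_forall fun S => ?_)⟩
      rw [h2 S l (by omega), Function.update_self, f.val_congr _ _ (h2' S),
        h.val_congr _ _ (h2' S)]
    · exact h6 s (by omega) hs2 hs3
  | div f h next ih =>
    intro l g L Q hh
    have hL : 0 < L := by
      obtain ⟨S, hS⟩ := hh.exists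
      exact hS.1
    obtain ⟨l', g', K, M, h1, h2, h3, h4, h5, h6, h7⟩ := ih (l + 1)
      (fun S => Function.update (g S) l (f.val (A S) (B S) l (g S) / h.val (A S) (B S) l (g S)))
      (L - 1) Q (hh.mono fun S hS => hS.2.2)
    have h2' : ∀ S, ∀ s < l, g' S s = g S s := fun S s hs => by
      rw [h2 S s (by omega), Function.update_of_ne (by omega)]
    refine ⟨l', g', K, M, by omega, h2', h3.trans (Finset.Ico_subset_Ico_left (by omega)), h4,
      by omega, fun s hs1 hs2 hs3 => ?_, h7⟩
    rcases Nat.eq_or_lt_of_le hs1 with rfl | hlt
    · refine ⟨f, h, Or.inr (hh.mono fun S hS => ?_)⟩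
      rw [h2 S l (by omega), Function.update_self, f.val_congr _ _ (h2' S),
        h.val_congr _ _ (h2' S)]
      exact ⟨hS.2.1, rfl⟩
    · exact h6 s (by omega) hs2 hs3
  | query next ih =>
    intro l g L Q hh
    have hQ : 0 < Q := by
      obtain ⟨S, hS⟩ := hh.exists
      exact hS.1
    have hv : ∀ S, ∃ v : k, (0 < Q ∧ ∃ v : k, next.CanOutput (A S) (B S) (E S) (l + 1)
        (Function.update (g S) l v) L (Q - 1)) → next.CanOutput (A S) (B S) (E S) (l + 1)
        (Function.update (g S) l v) L (Q - 1) := by
      intro S
      by_cases h : ∃ v : k, next.CanOutput (A S) (B S) (E S) (l + 1)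
        (Function.update (g S) l v) L (Q - 1)
      · obtain ⟨v, hv⟩ := h
        exact ⟨v, fun _ => hv⟩
      · exact ⟨0, fun h' => absurd h'.2 h⟩
    choose v hv using hv
    obtain ⟨l', g', K, M, h1, h2, h3, h4, h5, h6, h7⟩ := ih (l + 1)
      (fun S => Function.update (g S) l (v S)) L (Q - 1) (hh.mono fun S hS => hv S hS)
    have h2' : ∀ S, ∀ s < l, g' S s = g S s := fun S s hs => by
      rw [h2 S s (by omega), Function.update_of_ne (by omega)]
    have hlK : l ∉ K := fun hl => by
      have := Finset.mem_Ico.mp (h3 hl)
      omega
    refine ⟨l', g', insert l K, M, by omega, h2', ?_, ?_, ?_, fun s hs1 hs2 hs3 => ?_, h7⟩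
    · intro s hs
      rcases Finset.mem_insert.mp hs with rfl | hs
      · exact Finset.mem_Ico.mpr ⟨le_rfl, by omega⟩
      · have := Finset.mem_Ico.mp (h3 hs)
        exact Finset.mem_Ico.mpr ⟨by omega, this.2⟩
    · rw [Finset.card_insert_of_notMem hlK]
      omega
    · rw [Finset.card_insert_of_notMem hlK]
      omega
    · have hsl : s ≠ l := fun h => hs3 (h ▸ Finset.mem_insert_self _ _)
      exact h6 s (by omega) hs2 fun h => hs3 (Finset.mem_insert_of_mem h)
  | test f yes no ihy ihn =>
    intro l g L Q hh
    rcases Ultrafilter.eventually_or.mp hh with h | h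
    · exact ihy l g L Q (h.mono fun S hS => hS.2)
    · exact ihn l g L Q (h.mono fun S hS => hS.2)
  | choose r next ih =>
    intro l g L Q hh
    obtain ⟨i, hi⟩ := Ultrafilter.eventually_exists_iff.mp hh
    exact ih i l g L Q hi

end

end Pool.Agent.W966.Mm
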