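import Pool.Agent.W966.Mm.Const

/-!
# Two subspaces
-/

set_option linter.unusedSectionVars false

namespace Pool.Agent.W966.Mm

open Module Pool.Agent.H515R2.MMR MvPolynomial

/-- **Products of a large space of matrices with all matrices, modulo a small space.** -/
theorem two_block {a b c m a₁ : ℕ} (V : Submodule ℂ (Matrix (Fin a) (Fin b) ℂ))
    (T : Submodule ℂ (Matrix (Fin a) (Fin c) ℂ)) (hmb : m ≤ b) (hmc : m ≤ c) (hma : m ≤ a₁)
    (ha : a₁ ≤ a) (hV : a * b < finrank ℂ V + (b - m + 1) * (a₁ - m + 1))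
    (hT : finrank ℂ T < (a - a₁ + 1) * (c - m + 1)) :
    ∃ (α : Matrix (Fin m) (Fin m) ℂ →ₗ[ℂ] Matrix (Fin a) (Fin b) ℂ)
      (P : Matrix (Fin b) (Fin m) ℂ) (S : Matrix (Fin m) (Fin c) ℂ)
      (Λ : Matrix (Fin a) (Fin c) ℂ →ₗ[ℂ] Matrix (Fin m) (Fin m) ℂ),
      (∀ x, α x ∈ V) ∧ (∀ x y, Λ (α x * (P * y * S)) = x * y) ∧ ∀ τ ∈ T, Λ τ = 0 := by
  classical
  -- the rows
  let tr : Matrix (Fin a) (Fin c) ℂ ≃ₗ[ℂ] Matrix (Fin c) (Fin a) ℂ :=
    Matrix.transposeLinearEquiv (Fin a) (Fin c) ℂ ℂ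
  set Tt : Submodule ℂ (Matrix (Fin c) (Fin a) ℂ) := T.map tr.toLinearMap with hTt
  have hTtf : finrank ℂ Tt = finrank ℂ T := LinearEquiv.finrank_map_eq _ _
  obtain ⟨U, hU, e, he1, ⟨v₀, hv₀⟩, hdim'⟩ := greedy Tt (a - a₁)
  have he : e ≤ c - m := by
    have h1 : e ≤ finrank ℂ (TU Tt U) := by
      rw [← hv₀]
      exact Submodule.finrank_map_le _ _
    have h2 : (a - a₁ + 1) * e < (a - a₁ + 1) * (c - m + 1) := by
      calc (a - a₁ + 1) * e = (a - a₁) * e + e := by ring
        _ ≤ (a - a₁) * e + finrank ℂ (TU Tt U) := Nat.add_le_add_left h1 _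
        _ ≤ finrank ℂ Tt := hdim'
        _ = finrank ℂ T := hTtf
        _ < (a - a₁ + 1) * (c - m + 1) := hT
    have := Nat.lt_of_mul_lt_mul_left h2
    omega
  obtain ⟨ι, π, hπ⟩ := exists_retract (K := ℂ) (A := U) (B := Fin (a - a₁) → ℂ)
    (by rw [finrank_fin_fun]; exact hU)
  let Ub : Matrix (Fin (a - a₁)) (Fin a) ℂ :=
    (LinearMap.toMatrix' (U.subtype ∘ₗ π)).transpose
  obtain ⟨N, N', hN1, hN2⟩ := ker_fact (m := a₁) (by omega : a₁ + (a - a₁) ≤ a) Ub
  have hUN : ∀ u ∈ U, N.transpose.mulVec u = 0 := by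
    intro u hu
    have h1 : u = (LinearMap.toMatrix' (U.subtype ∘ₗ π)).mulVec (ι ⟨u, hu⟩) := by
      rw [LinearMap.toMatrix'_mulVec]
      have := LinearMap.congr_fun hπ ⟨u, hu⟩
      simp only [LinearMap.comp_apply, LinearMap.id_apply] at this
      simp only [LinearMap.comp_apply, this]
      rfl
    have h2 : N.transpose * LinearMap.toMatrix' (U.subtype ∘ₗ π) = 0 := by
      have := congrArg Matrix.transpose hN1
      rwa [Matrix.transpose_mul, Matrix.transpose_transpose, Matrix.transpose_zero] at this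
    rw [h1, Matrix.mulVec_mulVec, h2, Matrix.zero_mulVec]
  -- the block for the annihilator of `V`
  set T1 : Submodule ℂ (Matrix (Fin b) (Fin a₁) ℂ) :=
    (annT V).map (mulRightLinearMap (Fin b) ℂ N) with hT1
  obtain ⟨P, R, R', hR, hPR⟩ := block_full T1 hmb hma (by
    have h1 := finrank_annT V
    have h2 : finrank ℂ T1 ≤ finrank ℂ (annT V) := Submodule.finrank_map_le _ _
    omega)
  set H : Matrix (Fin m) (Fin a) ℂ := R * N' with hH
  have hHN : H * N = R := by rw [hH, Matrix.mul_assoc, hN2, Matrix.mul_one]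
  -- the columns
  obtain ⟨p, hp⟩ := exists_avoid (fun j : Fin m => (TU Tt U).map (evm (H j))) (m := m)
    (fun j => by
      have := he1 (H j)
      omega) m le_rfl
  set S : Matrix (Fin m) (Fin c) ℂ := Matrix.of fun i => p i with hS
  have C3 : ∀ (z : Matrix (Fin m) (Fin m) ℂ) (τ : Matrix (Fin a) (Fin c) ℂ)
      (w : Matrix (Fin a₁) (Fin c) ℂ), τ ∈ T → τ = N * w → H * τ = z * S → z = 0 := by
    intro z τ w hτ hw hz
    have hmem : τ.transpose ∈ TU Tt U := by
      refine ⟨⟨τ, hτ, rfl⟩, fun u hu => ?_⟩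
      rw [hw, Matrix.transpose_mul, ← Matrix.mulVec_mulVec, hUN u hu, Matrix.mulVec_zero]
    refine Matrix.ext fun j i => ?_
    have h1 : z j = 0 := by
      refine hp j _ ?_
      refine ⟨τ.transpose, hmem, ?_⟩
      show τ.transpose.mulVec (H j) = _
      funext k
      have h2 : (H * τ) j k = (z * S) j k := by rw [hz]
      rw [Matrix.mul_apply, Matrix.mul_apply] at h2
      rw [Finset.sum_apply]
      simp only [Matrix.mulVec, dotProduct, Matrix.transpose_apply, Pi.smul_apply, smul_eq_mul]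
      rw [← Finset.sum_congr rfl fun x _ => mul_comm (H j x) (τ x k), h2]
      rfl
    rw [h1]; rfl
  -- sections
  let G : Matrix (Fin a₁) (Fin b) ℂ →ₗ[ℂ] (Matrix (Fin a) (Fin b) ℂ ⧸ V) :=
    V.mkQ ∘ₗ mulLeftLinearMap (Fin b) ℂ N
  have hG : ∀ x, x ∈ LinearMap.ker G ↔ N * x ∈ V := by
    intro x
    rw [LinearMap.mem_ker]
    show V.mkQ (N * x) = 0 ↔ _
    rw [Submodule.mkQ_apply, Submodule.Quotient.mk_eq_zero]
  let Ψ : LinearMap.ker G →ₗ[ℂ] Matrix (Fin m) (Fin m) ℂ :=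
    (mulRightLinearMap (Fin m) ℂ P ∘ₗ mulLeftLinearMap (Fin b) ℂ R) ∘ₗ (LinearMap.ker G).subtype
  have hΨ : ∀ x, Ψ x = R * (x : Matrix (Fin a₁) (Fin b) ℂ) * P := fun _ => rfl
  have hsurj : LinearMap.range Ψ = ⊤ := by
    have h2 := finrank_annT (LinearMap.range Ψ)
    have h3 : annT (LinearMap.range Ψ) = ⊥ := by
      rw [Submodule.eq_bot_iff]
      intro z hz
      refine hPR z ?_
      -- the functional given by `P z R`
      have h4 : trD a₁ b (P * z * R) ∈ (LinearMap.ker G).dualAnnihilator := by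
        rw [Submodule.mem_dualAnnihilator]
        intro x hx
        rw [trD_apply]
        have h5 := hz (Ψ ⟨x, hx⟩) ⟨_, rfl⟩
        rw [hΨ, Matrix.mul_assoc, Matrix.mul_assoc, Matrix.trace_mul_comm] at h5
        simpa only [Matrix.mul_assoc] using h5
      rw [← LinearMap.range_dualMap_eq_dualAnnihilator_ker] at h4
      obtain ⟨ψ, hψ⟩ := h4
      have hbij : Function.Bijective (trD a b) := by
        refine ⟨trD_injective a b, ?_⟩
        rw [← LinearMap.injective_iff_surjective_of_finrank_eq_finrank]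
        · exact trD_injective a b
        · rw [Subspace.dual_finrank_eq, Module.finrank_matrix, Module.finrank_matrix,
            Module.finrank_self, Fintype.card_fin, Fintype.card_fin, mul_one, mul_one, mul_comm]
      obtain ⟨τ, hτ⟩ := hbij.2 (ψ ∘ₗ V.mkQ)
      refine ⟨τ, fun x hx => ?_, ?_⟩
      · rw [← trD_apply, hτ, LinearMap.comp_apply, Submodule.mkQ_apply,
          (Submodule.Quotient.mk_eq_zero V).mpr hx, map_zero]
      · show τ * N = P * z * R
        apply trD_injective a₁ b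
        rw [← hψ]
        refine LinearMap.ext fun x => ?_
        have h6 : ψ (V.mkQ (N * x)) = trD a b τ (N * x) := by rw [hτ]; rfl
        show trD a₁ b (τ * N) x = ψ (V.mkQ (N * x))
        rw [h6, trD_apply, trD_apply, Matrix.mul_assoc, Matrix.trace_mul_comm N,
          Matrix.mul_assoc]
    rw [h3, finrank_bot, zero_add] at h2
    apply Submodule.eq_top_of_finrank_eq
    rw [h2, Module.finrank_matrix, Module.finrank_self, Fintype.card_fin, mul_one]
  obtain ⟨sec, hsec⟩ := LinearMap.exists_rightInverse_of_surjective Ψ hsurj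
  have hsec' : ∀ x, R * (sec x : Matrix (Fin a₁) (Fin b) ℂ) * P = x := fun x =>
    LinearMap.congr_fun hsec x
  -- the projection
  let F : Submodule ℂ (Matrix (Fin a) (Fin c) ℂ) :=
    (LinearMap.ker (mulLeftLinearMap (Fin c) ℂ R)).map (mulLeftLinearMap (Fin c) ℂ N)
  let J : Matrix (Fin m) (Fin m) ℂ →ₗ[ℂ] (Matrix (Fin a) (Fin c) ℂ ⧸ (T ⊔ F)) :=
    (T ⊔ F).mkQ ∘ₗ mulRightLinearMap (Fin a) ℂ S ∘ₗ mulLeftLinearMap (Fin m) ℂ (N * R')
  have hJ : ∀ z, J z = (T ⊔ F).mkQ (N * R' * z * S) := fun _ => rfl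
  have hker : LinearMap.ker J = ⊥ := by
    rw [LinearMap.ker_eq_bot']
    intro z hz
    rw [hJ, Submodule.mkQ_apply, Submodule.Quotient.mk_eq_zero, Submodule.mem_sup] at hz
    obtain ⟨τ, hτ, _, ⟨w, hw, rfl⟩, hsum⟩ := hz
    have hw' : R * w = 0 := hw
    have hsum' : τ + N * w = N * R' * z * S := hsum
    have e1 : τ = N * (R' * z * S - w) := by
      rw [Matrix.mul_sub, ← Matrix.mul_assoc, ← Matrix.mul_assoc, ← hsum', add_sub_cancel_right]
    refine C3 z τ _ hτ e1 ?_
    rw [e1, ← Matrix.mul_assoc, hHN, Matrix.mul_sub, hw', sub_zero, ← Matrix.mul_assoc,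
      ← Matrix.mul_assoc, hR, Matrix.one_mul]
  obtain ⟨Γ, hΓ⟩ := LinearMap.exists_leftInverse_of_injective J hker
  refine ⟨mulLeftLinearMap (Fin b) ℂ N ∘ₗ (LinearMap.ker G).subtype ∘ₗ sec, P, S,
    Γ ∘ₗ (T ⊔ F).mkQ, fun x => (hG _).mp (sec x).2, fun x y => ?_, fun τ hτ => ?_⟩
  · have h1 : N * (sec x : Matrix (Fin a₁) (Fin b) ℂ) * (P * y * S) - N * R' * (x * y) * S ∈
        T ⊔ F := by
      refine Submodule.mem_sup_right ⟨((sec x : Matrix (Fin a₁) (Fin b) ℂ) * P - R' * x) * y * S,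
        ?_, ?_⟩
      · show R * (((sec x : Matrix (Fin a₁) (Fin b) ℂ) * P - R' * x) * y * S) = 0
        rw [← Matrix.mul_assoc, ← Matrix.mul_assoc, Matrix.mul_sub, ← Matrix.mul_assoc,
          ← Matrix.mul_assoc, hsec', hR, Matrix.one_mul, sub_self, Matrix.zero_mul,
          Matrix.zero_mul]
      · show N * (((sec x : Matrix (Fin a₁) (Fin b) ℂ) * P - R' * x) * y * S) = _
        simp only [Matrix.sub_mul, Matrix.mul_sub, Matrix.mul_assoc]
    have h2 : (T ⊔ F).mkQ (N * (sec x : Matrix (Fin a₁) (Fin b) ℂ) * (P * y * S)) =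
        J (x * y) := by
      rw [hJ, ← sub_eq_zero, ← map_sub, Submodule.mkQ_apply, Submodule.Quotient.mk_eq_zero]
      exact h1
    show Γ ((T ⊔ F).mkQ (N * (sec x : Matrix (Fin a₁) (Fin b) ℂ) * (P * y * S))) = x * y
    rw [h2]
    exact LinearMap.congr_fun hΓ (x * y)
  · rw [LinearMap.comp_apply, Submodule.mkQ_apply,
      (Submodule.Quotient.mk_eq_zero _).mpr (Submodule.mem_sup_left hτ), map_zero]

lemma trD_bijective (a b : ℕ) : Function.Bijective (trD a b) := by
  refine ⟨trD_injective a b, ?_⟩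
  rw [← LinearMap.injective_iff_surjective_of_finrank_eq_finrank]
  · exact trD_injective a b
  · rw [Subspace.dual_finrank_eq, Module.finrank_matrix, Module.finrank_matrix,
      Module.finrank_self, Fintype.card_fin, Fintype.card_fin, mul_one, mul_one, mul_comm]

lemma annT_annT {a b : ℕ} (V : Submodule ℂ (Matrix (Fin a) (Fin b) ℂ)) :
    annT (annT V) = V := by
  symm
  apply Submodule.eq_of_le_of_finrank_eq
  · intro x hx z hz
    rw [Matrix.trace_mul_comm]
    exact hz x hx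
  · have h1 := finrank_annT V
    have h2 := finrank_annT (annT V)
    rw [mul_comm b a] at h2
    omega

/-- **Products of the matrices of two large spaces.** -/
theorem two_inputs {a b c m a₁ : ℕ} (V₁ : Submodule ℂ (Matrix (Fin c) (Fin a) ℂ))
    (V₂ : Submodule ℂ (Matrix (Fin a) (Fin b) ℂ)) (hmb : m ≤ b) (hmc : m ≤ c) (hma : m ≤ a₁)
    (ha : a₁ ≤ a) (hV₂ : a * b < finrank ℂ V₂ + (b - m + 1) * (a₁ - m + 1))
    (hV₁ : c * a < finrank ℂ V₁ + (a - a₁ + 1) * (c - m + 1)) :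
    ∃ (A : Matrix (Fin m) (Fin m) ℂ →ₗ[ℂ] Matrix (Fin c) (Fin a) ℂ)
      (B : Matrix (Fin m) (Fin m) ℂ →ₗ[ℂ] Matrix (Fin a) (Fin b) ℂ)
      (S : Matrix (Fin m) (Fin c) ℂ) (P : Matrix (Fin b) (Fin m) ℂ),
      (∀ x, A x ∈ V₁) ∧ (∀ y, B y ∈ V₂) ∧ ∀ x y, S * (A x * B y) * P = x * y := by
  obtain ⟨α, P, S, Λ, h1, h2, h3⟩ := two_block V₂ (annT V₁) hmb hmc hma ha hV₂ (by
    have := finrank_annT V₁
    omega)
  let e := LinearEquiv.ofBijective (trD a c) (trD_bijective a c)
  let A : Matrix (Fin m) (Fin m) ℂ →ₗ[ℂ] Matrix (Fin c) (Fin a) ℂ :=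
    e.symm.toLinearMap ∘ₗ Λ.dualMap ∘ₗ trD m m
  have hA : ∀ x (τ : Matrix (Fin a) (Fin c) ℂ), (τ * A x).trace = (Λ τ * x).trace := by
    intro x τ
    have h4 : trD a c (A x) = Λ.dualMap (trD m m x) := e.apply_symm_apply _
    have h5 := LinearMap.congr_fun h4 τ
    rw [trD_apply] at h5
    rw [h5]
    rfl
  refine ⟨A, α, S, P, fun x => ?_, h1, fun x y => ?_⟩
  · rw [← annT_annT V₁]
    intro τ hτ
    rw [hA, h3 τ hτ, Matrix.zero_mul, Matrix.trace_zero]
  · apply trD_injective m m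
    refine LinearMap.ext fun w => ?_
    rw [trD_apply, trD_apply]
    have h6 := hA x (α y * (P * w * S))
    rw [h2] at h6
    calc (w * (S * (A x * α y) * P)).trace
        = ((α y * (P * w * S)) * A x).trace := by
          rw [← Matrix.mul_assoc w, Matrix.trace_mul_comm]
          rw [show P * (w * (S * (A x * α y))) = (P * w * S * A x) * α y by
            simp only [Matrix.mul_assoc], Matrix.trace_mul_comm]
          simp only [Matrix.mul_assoc]
      _ = (y * w * x).trace := h6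
      _ = (w * (x * y)).trace := by
          rw [Matrix.mul_assoc, Matrix.trace_mul_comm, Matrix.mul_assoc]

section

variable {κ : Type} [Fintype κ] {n : ℕ}

/-- **Families of pairs, exact products, a constant factor.** -/
theorem fam_sys_const {l L m : ℕ} {K : Finset ℕ} (hm : m ≤ n) (hK : K ⊆ Finset.range l)
    (hK0 : K.card = 0) (hl : l ≤ L + K.card) {a b : κ → Matrix (Fin n) (Fin n) ℂ}
    (hind : LinearIndependent ℂ fun i => (a i, b i)) (h : Sys ℂ n 0 l K a b)
    (hdim : 2 * n ^ 2 < Fintype.card κ + (n - m + 1) ^ 2) : HasRank m (2 * L) := by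
  classical
  obtain ⟨U, U', V, V', f, g, p, q', e, c, hU, hV, hid⟩ := sys_bilin hK h
  have hU' : U' * U = 1 := mul_eq_one_comm.mp hU
  have hV' : V * V' = 1 := mul_eq_one_comm.mp hV
  let α : (κ → ℂ) →ₗ[ℂ] Matrix (Fin n) (Fin n) ℂ := mulLeftLinearMap (Fin n) ℂ U ∘ₗ lx a
  let β : (κ → ℂ) →ₗ[ℂ] Matrix (Fin n) (Fin n) ℂ := mulRightLinearMap (Fin n) ℂ V ∘ₗ lx b
  have hα : ∀ ξ, α ξ = U * lx a ξ := fun _ => rfl
  have hβ : ∀ ξ, β ξ = lx b ξ * V := fun _ => rfl
  have hid' : ∀ ξ ξ', α ξ * β ξ' + α ξ' * β ξ =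
      ∑ t ∈ Finset.range l \ K, (p t ξ * q' t ξ' + p t ξ' * q' t ξ) • c t := by
    intro ξ ξ'
    have h1 := hid ξ ξ'
    have h2 : f ξ * g ξ' + f ξ' * g ξ = 0 := by
      refine Matrix.ext fun i j => ?_
      simp
    have hKe : K = ∅ := Finset.card_eq_zero.mp hK0
    have hz : ∑ t ∈ K, e t ξ ξ' • c t = 0 := by
      rw [hKe, Finset.sum_empty]
    rw [h2, add_zero, hz, add_zero] at h1
    rw [← h1]
    simp only [hα, hβ, Matrix.mul_add, Matrix.add_mul, Matrix.mul_assoc]
  -- injectivity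
  have hinj : ∀ ξ, α ξ = 0 → β ξ = 0 → ξ = 0 := by
    intro ξ h1 h2
    have e1 : lx a ξ = 0 := by
      have := congrArg (fun M => U' * M) (hα ξ ▸ h1)
      simp only [← Matrix.mul_assoc, hU', Matrix.one_mul, Matrix.mul_zero] at this
      exact this
    have e2 : lx b ξ = 0 := by
      have := congrArg (fun M => M * V') (hβ ξ ▸ h2)
      simp only [Matrix.mul_assoc, hV', Matrix.mul_one, Matrix.zero_mul] at this
      exact this
    refine funext fun i => (Fintype.linearIndependent_iff.mp hind) ξ ?_ i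
    refine Prod.ext ?_ ?_
    · rw [Prod.fst_sum]; exact e1
    · rw [Prod.snd_sum]; exact e2
  set N := LinearMap.ker β with hN
  let α' : N →ₗ[ℂ] Matrix (Fin n) (Fin n) ℂ := α ∘ₗ N.subtype
  have hα'inj : Function.Injective α' := by
    rw [injective_iff_map_eq_zero]
    intro x hx
    exact Subtype.ext (hinj x hx x.2)
  set V1 : Submodule ℂ (Matrix (Fin n) (Fin n) ℂ) := LinearMap.range α' with hV1
  set V2 : Submodule ℂ (Matrix (Fin n) (Fin n) ℂ) := LinearMap.range β with hV2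
  have hdims : finrank ℂ V1 + finrank ℂ V2 = Fintype.card κ := by
    have h1 := LinearMap.finrank_range_add_finrank_ker β
    rw [Module.finrank_fintype_fun_eq_card] at h1
    have h2 : finrank ℂ V1 = finrank ℂ N := LinearMap.finrank_range_of_inj hα'inj
    rw [h2, add_comm]
    exact h1
  have hnn : finrank ℂ (Matrix (Fin n) (Fin n) ℂ) = n * n := by
    rw [Module.finrank_matrix, Module.finrank_self, Fintype.card_fin, mul_one]
  have hV1le : finrank ℂ V1 ≤ n * n := hnn ▸ Submodule.finrank_le V1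
  have hV2le : finrank ℂ V2 ≤ n * n := hnn ▸ Submodule.finrank_le V2
  -- the choice of the size
  set D : ℕ := n - m + 1 with hD
  set g2 : ℕ := n * n - finrank ℂ V2 with hg2
  have hD0 : 0 < D := by omega
  have hk1 : g2 / D * D ≤ g2 := Nat.div_mul_le_self _ _
  have hk2 : g2 < (g2 / D + 1) * D := by
    have := Nat.lt_mul_div_succ g2 hD0
    rw [mul_comm] at this
    exact this
  have hgg : n * n - finrank ℂ V1 + g2 < D * D := by
    rw [pow_two, pow_two] at hdim
    omega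
  have hkD : g2 / D < D := by
    by_contra hcon
    push Not at hcon
    have := Nat.mul_le_mul_right D hcon
    omega
  generalize g2 / D = k at hk1 hk2 hkD
  obtain ⟨A, B, S, P, hA, hB, hSP⟩ := two_inputs (m := m) (a₁ := m + k) V1 V2 hm hm
    (by omega) (by omega) (by
      have e1 : m + k - m + 1 = k + 1 := by omega
      rw [e1, ← hD, mul_comm D]
      omega) (by
      obtain ⟨r, hr⟩ : ∃ r, D = k + r := ⟨D - k, by omega⟩
      have e1 : n - (m + k) + 1 = r := by omega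
      rw [e1, ← hD]
      have e2 : r * D + k * D = D * D := by
        calc r * D + k * D = (k + r) * D := by ring
          _ = D * D := by rw [← hr]
      omega)
  obtain ⟨s1, hs1⟩ := LinearMap.exists_leftInverse_of_injective α' (LinearMap.ker_eq_bot.mpr hα'inj)
  obtain ⟨s2, hs2⟩ := LinearMap.exists_rightInverse_of_surjective β.rangeRestrict
    β.range_rangeRestrict
  have hs1' : ∀ A ∈ V1, α (s1 A : κ → ℂ) = A ∧ β (s1 A : κ → ℂ) = 0 := by
    rintro _ ⟨x, rfl⟩
    have h3 := LinearMap.congr_fun hs1 x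
    simp only [LinearMap.comp_apply, LinearMap.id_apply] at h3
    rw [h3]
    exact ⟨rfl, x.2⟩
  have hs2' : ∀ B : V2, β (s2 B) = (B : Matrix (Fin n) (Fin n) ℂ) := by
    intro B
    have := LinearMap.congr_fun hs2 B
    simp only [LinearMap.comp_apply, LinearMap.id_apply] at this
    exact congrArg Subtype.val this
  have hcard : Fintype.card ({t // t ∈ Finset.range l \ K} × Fin 2) ≤ 2 * L := by
    rw [Fintype.card_prod, Fintype.card_coe, Fintype.card_fin, Finset.card_sdiff_of_subset hK,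
      Finset.card_range]
    omega
  let X1 : Matrix (Fin m) (Fin m) ℂ →ₗ[ℂ] (κ → ℂ) := N.subtype ∘ₗ s1 ∘ₗ A
  let X2 : Matrix (Fin m) (Fin m) ℂ →ₗ[ℂ] (κ → ℂ) := s2 ∘ₗ LinearMap.codRestrict V2 B hB
  have hX1 : ∀ x, α (X1 x) = A x ∧ β (X1 x) = 0 := fun x => hs1' _ (hA x)
  have hX2 : ∀ y, β (X2 y) = B y := fun y => hs2' ⟨B y, hB y⟩
  refine hasRank_of_bilin
    (fun t : {t // t ∈ Finset.range l \ K} × Fin 2 =>
      if t.2 = 0 then (p t.1 ∘ₗ X1) else (q' t.1 ∘ₗ X1))
    (fun t => if t.2 = 0 then (q' t.1 ∘ₗ X2) else (p t.1 ∘ₗ X2)) (fun t => S * c t.1 * P) ?_ hcard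
  intro x y
  have h1 := hid' (X1 x) (X2 y)
  rw [(hX1 x).1, (hX1 x).2, hX2 y, Matrix.mul_zero, add_zero] at h1
  rw [← hSP x y, h1, Matrix.mul_sum, Matrix.sum_mul, Fintype.sum_prod_type,
    ← Finset.sum_coe_sort]
  refine Finset.sum_congr rfl fun t _ => ?_
  rw [Fin.sum_univ_two, ← add_smul, Matrix.mul_smul, Matrix.smul_mul]
  congr 1
  simp only [if_true, if_false, LinearMap.comp_apply, one_ne_zero]
  ring

/-- **Products of pairs from an affine family, a constant factor.** -/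
theorem fam_const {k : Type} [Field k] (σ : k →+* ℂ) {L m : ℕ} (hm : m ≤ n)
    (A₀ B₀ : Matrix (Fin n) (Fin n) k) (a b : κ → Matrix (Fin n) (Fin n) k)
    (hind : LinearIndependent k fun i => (a i, b i))
    (t : QTree k n) (P : MvPolynomial κ k) (hP : P ≠ 0)
    (H : ∀ x : κ → k, eval x P ≠ 0 → t.CanOutput (fam A₀ a x) (fam B₀ b x)
      (fun C => C = fam A₀ a x * fam B₀ b x) 0 0 L 0)
    (hdim : 2 * n ^ 2 < Fintype.card κ + (n - m + 1) ^ 2) : HasRank m (2 * L) := by
  obtain ⟨l, K, hK, hKQ, hl, hsys⟩ := core σ (m := n) (s := 0) (by omega) A₀ B₀ a b t L 0 P hP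
    (fun x hx => (H x hx).mono (fun C hC => by
      rw [hC, sub_self, Matrix.rank_zero]) t 0 0 L 0)
  exact fam_sys_const hm hK (by omega) hl (linearIndependent_pairs σ hind) hsys hdim

end

end Pool.Agent.W966.Mm
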